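import Mathlib

set_option autoImplicit false

/-!
Packing bounds and finite nets in finite-dimensional normed spaces.
-/

namespace P06184b

open MeasureTheory Metric Set

open scoped ENNReal Function in
/-- An `ε`-separated subset of a ball of radius `R` has at most `(1 + 2 R / ε) ^ dim` elements. -/
theorem card_le_of_sep {E : Type*} [NormedAddCommGroup E] [NormedSpace ℝ E]
    [FiniteDimensional ℝ E] (s : Finset E) (y : E) (R ε : ℝ) (hε : 0 < ε) (hR : 0 ≤ R)
    (hs : ∀ c ∈ s, ‖c - y‖ ≤ R) (h : ∀ c ∈ s, ∀ d ∈ s, c ≠ d → ε < ‖c - d‖) :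
    (s.card : ℝ) ≤ (1 + 2 * R / ε) ^ Module.finrank ℝ E := by
  borelize E
  let μ : Measure E := Measure.addHaar
  set δ : ℝ := ε / 2 with hδ
  set ρ : ℝ := R + ε / 2 with hρ
  have δpos : 0 < δ := by positivity
  have ρpos : 0 < ρ := by positivity
  set A := ⋃ c ∈ s, ball (c : E) δ with hA
  have D : Set.Pairwise (s : Set E) (Disjoint on fun c => ball (c : E) δ) := by
    rintro c hc d hd hcd
    apply ball_disjoint_ball
    rw [dist_eq_norm]
    have := h c hc d hd hcd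
    rw [hδ]
    linarith
  have A_subset : A ⊆ ball y ρ := by
    refine iUnion₂_subset fun x hx => ?_
    apply ball_subset_ball'
    have := hs x hx
    rw [dist_eq_norm, hδ, hρ]
    linarith
  have I :
    (s.card : ℝ≥0∞) * ENNReal.ofReal (δ ^ Module.finrank ℝ E) * μ (ball 0 1) ≤
      ENNReal.ofReal (ρ ^ Module.finrank ℝ E) * μ (ball 0 1) :=
    calc
      (s.card : ℝ≥0∞) * ENNReal.ofReal (δ ^ Module.finrank ℝ E) * μ (ball 0 1) = μ A := by
        rw [hA, measure_biUnion_finset D fun c _ => measurableSet_ball]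
        simp only [μ.addHaar_ball_of_pos _ δpos]
        simp only [Finset.sum_const, nsmul_eq_mul, mul_assoc]
      _ ≤ μ (ball y ρ) := measure_mono A_subset
      _ = ENNReal.ofReal (ρ ^ Module.finrank ℝ E) * μ (ball 0 1) := by
        simp only [μ.addHaar_ball_of_pos _ ρpos]
  have J : (s.card : ℝ≥0∞) * ENNReal.ofReal (δ ^ Module.finrank ℝ E) ≤
      ENNReal.ofReal (ρ ^ Module.finrank ℝ E) :=
    (ENNReal.mul_le_mul_iff_left (measure_ball_pos _ _ zero_lt_one).ne'
      measure_ball_lt_top.ne).1 I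
  have K : (s.card : ℝ) * δ ^ Module.finrank ℝ E ≤ ρ ^ Module.finrank ℝ E := by
    have := ENNReal.toReal_mono (by simp) J
    rwa [ENNReal.toReal_mul, ENNReal.toReal_natCast, ENNReal.toReal_ofReal (by positivity),
      ENNReal.toReal_ofReal (by positivity)] at this
  have e : 1 + 2 * R / ε = ρ / δ := by
    rw [hδ, hρ]
    field_simp
    ring
  rw [e, div_pow, le_div_iff₀ (by positivity)]
  exact K

/-- A finset of maximal cardinality which is independent for a symmetric relation dominates. -/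
theorem exists_maximal {α : Type*} (S : Set α) (r : α → α → Prop) (hrefl : ∀ x ∈ S, r x x)
    (hsymm : ∀ x y, r x y → r y x) (N : ℕ)
    (hN : ∀ F : Finset α, ↑F ⊆ S → (∀ x ∈ F, ∀ y ∈ F, x ≠ y → ¬ r x y) → F.card ≤ N) :
    ∃ Y : Finset α, ↑Y ⊆ S ∧ (∀ x ∈ Y, ∀ y ∈ Y, x ≠ y → ¬ r x y) ∧ Y.card ≤ N ∧
      ∀ x ∈ S, ∃ y ∈ Y, r x y := by
  classical
  let P : ℕ → Prop := fun k => ∃ F : Finset α, ↑F ⊆ S ∧
    (∀ x ∈ F, ∀ y ∈ F, x ≠ y → ¬ r x y) ∧ F.card = k
  have hP0 : P 0 := ⟨∅, by simp, by simp, rfl⟩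
  have hmax : P (Nat.findGreatest P N) := Nat.findGreatest_spec (Nat.zero_le N) hP0
  obtain ⟨Y, hY1, hY2, hY3⟩ := hmax
  refine ⟨Y, hY1, hY2, hN Y hY1 hY2, ?_⟩
  intro x hx
  by_contra hcon
  push Not at hcon
  have hxY : x ∉ Y := fun hxY => hcon x hxY (hrefl x hx)
  have hind : ∀ a ∈ insert x Y, ∀ b ∈ insert x Y, a ≠ b → ¬ r a b := by
    intro a ha b hb hab
    rw [Finset.mem_insert] at ha hb
    rcases ha with rfl | ha
    · rcases hb with rfl | hb
      · exact absurd rfl hab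
      · exact hcon b hb
    · rcases hb with rfl | hb
      · exact fun hr => hcon a ha (hsymm _ _ hr)
      · exact hY2 a ha b hb hab
  have hsub : (↑(insert x Y) : Set α) ⊆ S := by
    intro a ha
    rw [Finset.coe_insert, Set.mem_insert_iff] at ha
    rcases ha with rfl | ha
    · exact hx
    · exact hY1 ha
  have hcard := hN _ hsub hind
  have hP : P (insert x Y).card := ⟨_, hsub, hind, rfl⟩
  have := Nat.le_findGreatest hcard hP
  rw [Finset.card_insert_of_notMem hxY, hY3] at this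
  omega

/-- A set in the unit ball of a finite-dimensional normed space has a small `ε`-net. -/
theorem exists_net {E : Type*} [NormedAddCommGroup E] [NormedSpace ℝ E] [FiniteDimensional ℝ E]
    (S : Set E) (hS : ∀ x ∈ S, ‖x‖ ≤ 1) (ε : ℝ) (hε : 0 < ε) :
    ∃ Y : Finset E, ↑Y ⊆ S ∧ (Y.card : ℝ) ≤ (1 + 2 / ε) ^ Module.finrank ℝ E ∧
      ∀ x ∈ S, ∃ y ∈ Y, ‖x - y‖ ≤ ε := by
  have hb : ∀ F : Finset E, ↑F ⊆ S → (∀ x ∈ F, ∀ y ∈ F, x ≠ y → ¬ ‖x - y‖ ≤ ε) →
      (F.card : ℝ) ≤ (1 + 2 / ε) ^ Module.finrank ℝ E := by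
    intro F hF hsep
    have := card_le_of_sep F 0 1 ε hε zero_le_one (fun c hc => by
      rw [sub_zero]; exact hS c (hF hc)) (fun c hc d hd hcd => not_le.1 (hsep c hc d hd hcd))
    simpa using this
  obtain ⟨Y, h1, h2, _, h4⟩ := exists_maximal S (fun x y => ‖x - y‖ ≤ ε)
    (fun x _ => by simp [hε.le]) (fun x y hxy => by rw [norm_sub_rev]; exact hxy)
    ⌊(1 + 2 / ε) ^ Module.finrank ℝ E⌋₊ (fun F hF hsep => Nat.le_floor (hb F hF hsep))
  exact ⟨Y, h1, hb Y h1 h2, h4⟩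

end P06184b
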