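import Pool.Agent.Lib.P06184b.Norm

/-!
# Chains of norming functionals of contractions of the spiky space
-/

open scoped InnerProductSpace

namespace P06184b

variable {𝕜 V : Type*} [RCLike 𝕜] [NormedAddCommGroup V] [InnerProductSpace 𝕜 V]

variable (𝕜) in
/-- `A` is the adjoint of `T` and maps the dual body to itself. -/
structure Contr (U : Set V) (c : ℝ) (T A : V →L[𝕜] V) : Prop where
  adj : ∀ x y, ⟪A x, y⟫_𝕜 = ⟪x, T y⟫_𝕜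
  maps : ∀ f ∈ Dual 𝕜 U c, A f ∈ Dual 𝕜 U c

variable (𝕜) in
/-- No unimodular eigenvalues. -/
structure NoUni (T A : V →L[𝕜] V) : Prop where
  T1 : ∀ (x : V) (ζ : 𝕜), ‖ζ‖ = 1 → T x = ζ • x → x = 0
  A1 : ∀ (x : V) (ζ : 𝕜), ‖ζ‖ = 1 → A x = ζ • x → x = 0
  A2 : ∀ (x : V) (ζ : 𝕜), ‖ζ‖ = 1 → A (A x) = ζ • x → x = 0

variable (𝕜) in
/-- The rigidity property. -/
def Rigid (T A : V →L[𝕜] V) : Prop :=
  (∀ v, ‖T v‖ ≤ ‖v‖) → ∀ a b : V, ‖a‖ = 1 → ‖b‖ = 1 → (∀ ζ : 𝕜, ‖ζ‖ = 1 → b ≠ ζ • a) →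
    A (T a) = a → A (T b) = b → ∃ ζ : 𝕜, ‖ζ‖ = 1 ∧ ∀ v, T v = ζ • v

variable {U : Set V} {c σ : ℝ} {T A : V →L[𝕜] V}

namespace Setup

theorem tip_mem (S : Setup 𝕜 U c σ) {u : V} (hu : u ∈ U) :
    ((c⁻¹ : ℝ) : 𝕜) • u ∈ SBall 𝕜 U c := by
  intro f hf
  rw [inner_smul_right, norm_mul, RCLike.norm_ofReal, abs_of_pos (inv_pos.2 S.hc),
    inv_mul_eq_div, div_le_one S.hc, norm_inner_symm]
  exact hf.2 u hu

/-- Connectedness lemma. -/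
theorem conn (S : Setup 𝕜 U c σ) {s : Set V} (hs : IsPreconnected s)
    (hcov : ∀ z ∈ s, ∃ u ∈ U, c * ‖z‖ < ‖⟪u, z⟫_𝕜‖) {u z z' : V} (hu : u ∈ U) (hz : z ∈ s)
    (hz' : z' ∈ s) (h : c * ‖z‖ ≤ ‖⟪u, z⟫_𝕜‖) : c * ‖z'‖ < ‖⟪u, z'⟫_𝕜‖ := by
  have hne : ∀ (w y : V), c * ‖y‖ < ‖⟪w, y⟫_𝕜‖ → y ≠ 0 := by
    rintro w y hy rfl; simp at hy
  have hopen : ∀ w : V, IsOpen {y : V | c * ‖y‖ < ‖⟪w, y⟫_𝕜‖} := fun w =>
    isOpen_lt (by fun_prop) (by fun_prop)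
  set O1 : Set V := {y | c * ‖y‖ < ‖⟪u, y⟫_𝕜‖} with hO1
  set O2 : Set V := ⋃ w ∈ {w ∈ U | ¬ ∃ ζ : 𝕜, ‖ζ‖ = 1 ∧ w = ζ • u},
    {y : V | c * ‖y‖ < ‖⟪w, y⟫_𝕜‖} with hO2
  have hsame : ∀ w ∈ U, ∀ y, c * ‖y‖ < ‖⟪w, y⟫_𝕜‖ → c * ‖y‖ ≤ ‖⟪u, y⟫_𝕜‖ →
      c * ‖y‖ < ‖⟪u, y⟫_𝕜‖ := by
    intro w hw y hy hy'
    obtain ⟨ζ, hζ, rfl⟩ := S.same hu hw (hne _ _ hy) hy' hy.le
    rwa [inner_smul_left, norm_mul, RCLike.norm_conj, hζ, one_mul] at hy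
  have h1 : IsOpen O1 := hopen u
  have h2 : IsOpen O2 := isOpen_biUnion fun w _ => hopen w
  have hdis : Disjoint O1 O2 := by
    rw [Set.disjoint_left]
    intro y hy1 hy2
    rw [hO2, Set.mem_iUnion₂] at hy2
    obtain ⟨w, hw, hy3⟩ := hy2
    exact hw.2 (S.same hu hw.1 (hne _ _ hy1) (le_of_lt hy1) (le_of_lt hy3))
  have hsub : s ⊆ O1 ∪ O2 := by
    intro y hy
    obtain ⟨w, hw, hyw⟩ := hcov y hy
    by_cases hwu : ∃ ζ : 𝕜, ‖ζ‖ = 1 ∧ w = ζ • u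
    · left
      obtain ⟨ζ, hζ, rfl⟩ := hwu
      rwa [inner_smul_left, norm_mul, RCLike.norm_conj, hζ, one_mul] at hyw
    · right
      rw [hO2, Set.mem_iUnion₂]
      exact ⟨w, ⟨hw, hwu⟩, hyw⟩
  have hzO : z ∈ O1 := by
    obtain ⟨w, hw, hzw⟩ := hcov z hz
    exact hsame w hw z hzw h
  exact IsPreconnected.subset_left_of_subset_union h1 h2 hdis hsub ⟨z, hz, hzO⟩ hs hz'

end Setup

namespace Contr

variable (C : Contr 𝕜 U c T A)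
include C

theorem ball {x : V} (hx : x ∈ SBall 𝕜 U c) : T x ∈ SBall 𝕜 U c := by
  intro f hf
  rw [← C.adj]
  exact hx _ (C.maps f hf)

theorem cone {v : V} (hv : ‖v‖ < ‖T v‖) : ∃ u ∈ U, c * ‖T v‖ < ‖⟪u, T v⟫_𝕜‖ := by
  have h0 : 0 < ‖T v‖ := lt_of_le_of_lt (norm_nonneg v) hv
  by_contra hcon
  push Not at hcon
  have hmem : ((‖T v‖⁻¹ : ℝ) : 𝕜) • T v ∈ Dual 𝕜 U c := by
    constructor
    · rw [norm_smul, RCLike.norm_ofReal, abs_of_pos (by positivity), inv_mul_cancel₀ h0.ne']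
    · intro u hu
      rw [inner_smul_right, norm_mul, RCLike.norm_ofReal, abs_of_pos (by positivity),
        inv_mul_eq_div, div_le_iff₀ h0]
      exact hcon u hu
  have h1 := (C.maps _ hmem).1
  have h2 := norm_inner_le_norm (𝕜 := 𝕜) (A (((‖T v‖⁻¹ : ℝ) : 𝕜) • T v)) v
  rw [C.adj, inner_smul_left, norm_mul, inner_self_eq_norm_sq_to_K, RCLike.conj_ofReal,
    RCLike.norm_ofReal, norm_pow, RCLike.norm_ofReal, abs_of_pos (by positivity : 0 < ‖T v‖⁻¹),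
    abs_of_pos h0] at h2
  have e : ‖T v‖⁻¹ * ‖T v‖ ^ 2 = ‖T v‖ := by field_simp
  rw [e] at h2
  nlinarith [norm_nonneg v]

/-- The sector lemma. -/
theorem sector (S : Setup 𝕜 U c σ) {a v u : V} (ha : ‖a‖ ≤ ‖T a‖) (hv : ‖v‖ < ‖T v‖)
    (hu : u ∈ U) (h : c * ‖T v‖ ≤ ‖⟪u, T v⟫_𝕜‖) : c * ‖T a‖ ≤ ‖⟪u, T a⟫_𝕜‖ := by
  obtain ⟨ε, hε, hε2⟩ := RCLike.exists_norm_eq_mul_self (⟪T v, T a⟫_𝕜 - ⟪v, a⟫_𝕜)
  set Q := ‖⟪T v, T a⟫_𝕜 - ⟪v, a⟫_𝕜‖ with hQ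
  have hQ0 : 0 ≤ Q := norm_nonneg _
  have hre : RCLike.re (⟪T v, T (ε • a)⟫_𝕜) - RCLike.re (⟪v, ε • a⟫_𝕜) = Q := by
    rw [← map_sub, map_smul, inner_smul_right, inner_smul_right, ← mul_sub, ← hε2]
    exact RCLike.ofReal_re _
  have hna : ‖ε • a‖ = ‖a‖ := by rw [norm_smul, hε, one_mul]
  have hnTa : ‖T (ε • a)‖ = ‖T a‖ := by rw [map_smul, norm_smul, hε, one_mul]
  have hn : ∀ t : ℝ, 0 ≤ t → ‖v + (t : 𝕜) • (ε • a)‖ < ‖T (v + (t : 𝕜) • (ε • a))‖ := by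
    intro t ht
    have e1 : ‖v + (t : 𝕜) • (ε • a)‖ ^ 2 = ‖v‖ ^ 2 + 2 * (t * RCLike.re (⟪v, ε • a⟫_𝕜)) +
        t ^ 2 * ‖a‖ ^ 2 := by
      rw [@norm_add_sq 𝕜, inner_smul_right _ _ (t : 𝕜), RCLike.re_ofReal_mul, norm_smul (t : 𝕜),
        hna, RCLike.norm_ofReal, mul_pow, sq_abs]
    have e2 : ‖T (v + (t : 𝕜) • (ε • a))‖ ^ 2 = ‖T v‖ ^ 2 +
        2 * (t * RCLike.re (⟪T v, T (ε • a)⟫_𝕜)) + t ^ 2 * ‖T a‖ ^ 2 := by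
      rw [map_add, map_smul T (t : 𝕜), @norm_add_sq 𝕜, inner_smul_right _ _ (t : 𝕜),
        RCLike.re_ofReal_mul, norm_smul (t : 𝕜), hnTa, RCLike.norm_ofReal, mul_pow, sq_abs]
    have e3 : ‖v + (t : 𝕜) • (ε • a)‖ ^ 2 < ‖T (v + (t : 𝕜) • (ε • a))‖ ^ 2 := by
      rw [e1, e2]
      have h1 : ‖v‖ ^ 2 < ‖T v‖ ^ 2 := by nlinarith [norm_nonneg v]
      have h2 : ‖a‖ ^ 2 ≤ ‖T a‖ ^ 2 := by nlinarith [norm_nonneg a]
      have h3 : t ^ 2 * ‖a‖ ^ 2 ≤ t ^ 2 * ‖T a‖ ^ 2 := mul_le_mul_of_nonneg_left h2 (sq_nonneg t)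
      have h4 : 0 ≤ t * Q := mul_nonneg ht hQ0
      rw [← hre, mul_sub] at h4
      linarith
    exact lt_of_pow_lt_pow_left₀ 2 (norm_nonneg _) e3
  set F : ℝ → V := fun t => T (v + (t : 𝕜) • (ε • a)) with hF
  have hFc : Continuous F := by rw [hF]; fun_prop
  have hpre : IsPreconnected (F '' Set.Ici 0) :=
    (isPreconnected_Ici).image F hFc.continuousOn
  have hcov : ∀ z ∈ F '' Set.Ici 0, ∃ u ∈ U, c * ‖z‖ < ‖⟪u, z⟫_𝕜‖ := by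
    rintro _ ⟨t, ht, rfl⟩
    exact C.cone (hn t ht)
  have h0 : F 0 = T v := by simp [hF]
  have hall : ∀ t : ℝ, 0 ≤ t → c * ‖F t‖ < ‖⟪u, F t⟫_𝕜‖ := fun t ht =>
    S.conn hpre hcov hu (z := F 0) ⟨0, by simp, rfl⟩ ⟨t, ht, rfl⟩ (by rw [h0]; exact h)
  have hbd : ∀ t : ℝ, 0 ≤ t → t * (c * ‖T a‖ - ‖⟪u, T a⟫_𝕜‖) ≤ (1 + c) * ‖T v‖ := by
    intro t ht
    have h1 := hall t ht
    have e : F t = T v + (t : 𝕜) • T (ε • a) := by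
      change T (v + (t : 𝕜) • (ε • a)) = _
      rw [map_add, map_smul T (t : 𝕜)]
    have hn1 : ‖(t : 𝕜) • T (ε • a)‖ = t * ‖T a‖ := by
      rw [norm_smul, RCLike.norm_ofReal, abs_of_nonneg ht, hnTa]
    have h2 : t * ‖T a‖ - ‖T v‖ ≤ ‖F t‖ := by
      rw [e, ← hn1, add_comm]
      have := norm_sub_norm_le ((t : 𝕜) • T (ε • a)) (-(T v))
      rw [norm_neg, sub_neg_eq_add] at this
      exact this
    have h3 : ‖⟪u, F t⟫_𝕜‖ ≤ ‖T v‖ + t * ‖⟪u, T a⟫_𝕜‖ := by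
      rw [e, inner_add_right]
      refine le_trans (norm_add_le _ _) (add_le_add ?_ ?_)
      · refine le_trans (norm_inner_le_norm _ _) ?_
        rw [S.sp.unit u hu, one_mul]
      · rw [inner_smul_right, norm_mul, RCLike.norm_ofReal, abs_of_nonneg ht, map_smul,
          inner_smul_right, norm_mul, hε, one_mul]
    have h4 : c * (t * ‖T a‖ - ‖T v‖) ≤ c * ‖F t‖ := mul_le_mul_of_nonneg_left h2 S.hc.le
    nlinarith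
  by_contra hcon
  push Not at hcon
  have hpos : 0 < c * ‖T a‖ - ‖⟪u, T a⟫_𝕜‖ := by linarith
  have hc := S.hc
  have h5 := hbd (((1 + c) * ‖T v‖ + 1) / (c * ‖T a‖ - ‖⟪u, T a⟫_𝕜‖)) (by positivity)
  rw [div_mul_cancel₀ _ hpos.ne'] at h5
  linarith

/-- (A) -/
theorem ofH (S : Setup 𝕜 U c σ) {g₀ g₁ : V} (h0 : ‖g₀‖ = 1) (h1 : ‖g₁‖ = 1) (hT : T g₀ = g₁)
    (hA : A g₁ = g₀) (v : V) : ‖T v‖ ≤ ‖v‖ := by
  by_contra hcon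
  push Not at hcon
  have hn : ∀ α : 𝕜, ‖v + α • g₀‖ < ‖T (v + α • g₀)‖ := by
    intro α
    have e1 : ‖v + α • g₀‖ ^ 2 = ‖v‖ ^ 2 + 2 * RCLike.re (α * ⟪v, g₀⟫_𝕜) + ‖α‖ ^ 2 := by
      rw [@norm_add_sq 𝕜, inner_smul_right, norm_smul, h0, mul_one]
    have e2 : ‖T (v + α • g₀)‖ ^ 2 = ‖T v‖ ^ 2 + 2 * RCLike.re (α * ⟪v, g₀⟫_𝕜) + ‖α‖ ^ 2 := by
      rw [map_add, map_smul, hT, @norm_add_sq 𝕜, inner_smul_right, norm_smul, h1, mul_one,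
        ← inner_conj_symm (T v) g₁, ← C.adj, hA, inner_conj_symm]
    have e3 : ‖v + α • g₀‖ ^ 2 < ‖T (v + α • g₀)‖ ^ 2 := by
      rw [e1, e2]
      have h1 : ‖v‖ ^ 2 < ‖T v‖ ^ 2 := by nlinarith [norm_nonneg v]
      linarith
    exact lt_of_pow_lt_pow_left₀ 2 (norm_nonneg _) e3
  set F : 𝕜 → V := fun α => T (v + α • g₀) with hF
  have hFc : Continuous F := by rw [hF]; fun_prop
  have hpre : IsPreconnected (Set.range F) := isPreconnected_range hFc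
  have hcov : ∀ z ∈ Set.range F, ∃ u ∈ U, c * ‖z‖ < ‖⟪u, z⟫_𝕜‖ := by
    rintro _ ⟨t, rfl⟩
    exact C.cone (hn t)
  obtain ⟨u, hu, hcu⟩ := hcov (F 0) ⟨0, rfl⟩
  have hall : ∀ α : 𝕜, c * ‖T v + α • g₁‖ < ‖⟪u, T v + α • g₁⟫_𝕜‖ := by
    intro α
    have := S.conn hpre hcov hu (z := F 0) ⟨0, rfl⟩ ⟨α, rfl⟩ hcu.le
    have e : F α = T v + α • g₁ := by
      change T (v + α • g₀) = _
      rw [map_add, map_smul, hT]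
    rwa [e] at this
  have hc := S.hc
  by_cases hg : ⟪u, g₁⟫_𝕜 = 0
  · have h2 := hall (((‖T v‖ + ‖T v‖ / c : ℝ)) : 𝕜)
    rw [inner_add_right, inner_smul_right, hg, mul_zero, add_zero] at h2
    have h3 : ‖⟪u, T v⟫_𝕜‖ ≤ ‖T v‖ := by
      refine le_trans (norm_inner_le_norm _ _) ?_
      rw [S.sp.unit u hu, one_mul]
    have h4 : ‖((‖T v‖ + ‖T v‖ / c : ℝ) : 𝕜) • g₁‖ = ‖T v‖ + ‖T v‖ / c := by
      rw [norm_smul, h1, mul_one, RCLike.norm_ofReal, abs_of_nonneg (by positivity)]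
    have h5 : ‖T v‖ / c ≤ ‖T v + ((‖T v‖ + ‖T v‖ / c : ℝ) : 𝕜) • g₁‖ := by
      have := norm_sub_norm_le (((‖T v‖ + ‖T v‖ / c : ℝ) : 𝕜) • g₁) (-(T v))
      rw [norm_neg, sub_neg_eq_add, h4, add_comm _ (T v)] at this
      linarith
    have h6 : ‖T v‖ ≤ c * ‖T v + ((‖T v‖ + ‖T v‖ / c : ℝ) : 𝕜) • g₁‖ := by
      have h7 := mul_le_mul_of_nonneg_left h5 hc.le
      rw [mul_div_cancel₀ _ hc.ne'] at h7
      exact h7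
    linarith
  · have h2 := hall (-(⟪u, T v⟫_𝕜 / ⟪u, g₁⟫_𝕜))
    rw [inner_add_right, inner_smul_right, neg_mul, div_mul_cancel₀ _ hg, add_neg_cancel,
      norm_zero] at h2
    have : 0 ≤ c * ‖T v + -(⟪u, T v⟫_𝕜 / ⟪u, g₁⟫_𝕜) • g₁‖ := by positivity
    linarith

/-- (C) -/
theorem ofTip (S : Setup 𝕜 U c σ) {f u : V} (hf : ‖f‖ ≤ 1) (hu : u ∈ U)
    (hT : T f = ((c⁻¹ : ℝ) : 𝕜) • u) (v : V) : T v = (((c⁻¹ : ℝ) : 𝕜) * ⟪f, v⟫_𝕜) • u := by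
  have hc := S.hc
  have hcK : (c : 𝕜) ≠ 0 := by simpa using hc.ne'
  have hσK : (σ : 𝕜) ≠ 0 := by simpa using S.hσ.ne'
  have key : ∀ t : V, ⟪u, t⟫_𝕜 = 0 → ‖t‖ ≤ 1 → A ((c : 𝕜) • u + (σ : 𝕜) • t) = f := by
    intro t ht ht1
    have h1 := (C.maps _ (S.cap_mem hu ht ht1)).1
    have h2 : ⟪A ((c : 𝕜) • u + (σ : 𝕜) • t), f⟫_𝕜 = 1 := by
      rw [C.adj, hT, inner_smul_right, inner_add_left, inner_smul_left, inner_smul_left,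
        S.inner_self_U hu, ← inner_conj_symm t u, ht]
      simp [hc.ne']
    exact (Setup.eq_of_inner (𝕜 := 𝕜) h1 hf (by rw [h2]; simp)).1.symm
  have hAu : (c : 𝕜) • A u = f := by
    have := key 0 (by simp) (by simp)
    rwa [smul_zero, add_zero, map_smul] at this
  have hAt : ∀ t : V, ⟪u, t⟫_𝕜 = 0 → A t = 0 := by
    intro t ht
    have h1 : ∀ t : V, ⟪u, t⟫_𝕜 = 0 → ‖t‖ ≤ 1 → A t = 0 := by
      intro t ht ht1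
      have h2 := key t ht ht1
      rw [map_add, map_smul, map_smul, hAu] at h2
      have h3 : (σ : 𝕜) • A t = 0 := by
        have : f + (σ : 𝕜) • A t = f + 0 := by rw [h2, add_zero]
        exact add_left_cancel this
      exact (smul_eq_zero.1 h3).resolve_left hσK
    by_cases h0 : t = 0
    · rw [h0, map_zero]
    · have hn : 0 < ‖t‖ := norm_pos_iff.2 h0
      have h2 := h1 (((‖t‖⁻¹ : ℝ) : 𝕜) • t) (by rw [inner_smul_right, ht, mul_zero])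
        (by rw [norm_smul, RCLike.norm_ofReal, abs_of_pos (by positivity),
              inv_mul_cancel₀ hn.ne'])
      rw [map_smul] at h2
      refine (smul_eq_zero.1 h2).resolve_left ?_
      simpa using h0
  set w := T v - ⟪u, T v⟫_𝕜 • u with hw
  have huw : ⟪u, w⟫_𝕜 = 0 := by
    rw [hw, inner_sub_right, inner_smul_right, S.inner_self_U hu, mul_one, sub_self]
  have hwu : ⟪w, u⟫_𝕜 = 0 := by rw [← inner_conj_symm, huw]; simp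
  have hw0 : ⟪w, w⟫_𝕜 = 0 := by
    have h1 : ⟪w, T v⟫_𝕜 = 0 := by rw [← C.adj, hAt w huw, inner_zero_left]
    have h2 : ⟪w, w⟫_𝕜 = ⟪w, T v⟫_𝕜 - ⟪u, T v⟫_𝕜 * ⟪w, u⟫_𝕜 := by
      conv_lhs => rw [show ⟪w, w⟫_𝕜 = ⟪w, T v - ⟪u, T v⟫_𝕜 • u⟫_𝕜 from by rw [← hw]]
      rw [inner_sub_right, inner_smul_right]
    rw [h2, h1, hwu]; ring
  have hw1 : w = 0 := inner_self_eq_zero.1 hw0
  have hTv : T v = ⟪u, T v⟫_𝕜 • u := by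
    rw [hw, sub_eq_zero] at hw1; exact hw1
  rw [hTv]
  congr 1
  rw [← C.adj, ← hAu, inner_smul_left]
  push_cast
  rw [RCLike.conj_ofReal, ← mul_assoc, inv_mul_cancel₀ hcK, one_mul]

theorem adj_le (h1 : ∀ v, ‖T v‖ ≤ ‖v‖) (w : V) : ‖A w‖ ≤ ‖w‖ := by
  have h2 : ‖A w‖ ^ 2 ≤ ‖w‖ * ‖A w‖ := by
    have h3 := norm_inner_le_norm (𝕜 := 𝕜) w (T (A w))
    rw [← C.adj, inner_self_eq_norm_sq_to_K, norm_pow, RCLike.norm_ofReal,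
      abs_of_nonneg (norm_nonneg _)] at h3
    exact le_trans h3 (mul_le_mul_of_nonneg_left (h1 _) (norm_nonneg _))
  by_cases h0 : ‖A w‖ = 0
  · rw [h0]; exact norm_nonneg _
  · have : 0 < ‖A w‖ := lt_of_le_of_ne (norm_nonneg _) (Ne.symm h0)
    nlinarith

theorem adj_iso (h1 : ∀ v, ‖T v‖ ≤ ‖v‖) {a : V} (ha : ‖T a‖ = ‖a‖) : A (T a) = a := by
  have h2 : ‖A (T a) - a‖ ^ 2 ≤ 0 := by
    rw [@norm_sub_sq 𝕜, C.adj, inner_self_eq_norm_sq]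
    have := C.adj_le h1 (T a)
    rw [ha] at *
    nlinarith [norm_nonneg (A (T a)), norm_nonneg a]
  have h3 : ‖A (T a) - a‖ = 0 := by nlinarith [norm_nonneg (A (T a) - a)]
  exact sub_eq_zero.1 (norm_eq_zero.1 h3)

/-- (tips) -/
theorem tips (S : Setup 𝕜 U c σ) (N : NoUni 𝕜 T A) {u₀ u₁ u₂ : V} (h0 : u₀ ∈ U) (h1 : u₁ ∈ U)
    (h2 : u₂ ∈ U) (e1 : T u₀ = u₁) (e2 : T u₁ = u₂) (v : V) : ‖T v‖ ≤ ‖v‖ := by
  by_contra hcon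
  push Not at hcon
  obtain ⟨u, hu, hcu⟩ := C.cone hcon
  have n0 := S.sp.unit u₀ h0
  have n1 := S.sp.unit u₁ h1
  have n2 := S.sp.unit u₂ h2
  have hc1 := S.hc1
  have a1 := C.sector S (a := u₀) (by rw [e1, n0, n1]) hcon hu hcu.le
  have a2 := C.sector S (a := u₁) (by rw [e2, n1, n2]) hcon hu hcu.le
  rw [e1] at a1
  rw [e2] at a2
  have z1 : u₁ ≠ 0 := by rintro rfl; simp at n1
  have z2 : u₂ ≠ 0 := by rintro rfl; simp at n2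
  obtain ⟨ζ, hζ, r1⟩ := S.same hu h1 z1 a1 (by rw [S.inner_self_U h1, n1]; simp; exact hc1.le)
  obtain ⟨ξ, hξ, r2⟩ := S.same hu h2 z2 a2 (by rw [S.inner_self_U h2, n2]; simp; exact hc1.le)
  have hζ0 : ζ ≠ 0 := by rintro rfl; simp at hζ
  apply z1
  refine N.T1 u₁ (ξ * ζ⁻¹) (by simp [hζ, hξ]) ?_
  rw [e2, r2, mul_smul]
  congr 1
  rw [r1, smul_smul, inv_mul_cancel₀ hζ0, one_smul]

end Contr

end P06184b
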