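import Mathlib

set_option autoImplicit false

/-!
Counting subsets which avoid prescribed traces on disjoint blocks, and two small lemmas.
-/

namespace P06184b

open Finset Filter

/-- The number of subsets `Ω` of `Y` with `Ω ∩ A j ≠ {z j}` for all `j ∈ J`. -/
theorem count_bad {α ι : Type*} [DecidableEq α] [DecidableEq ι] (Y : Finset α) (g : ℕ)
    (J : Finset ι) (A : ι → Finset α) (z : ι → α) (hA : ∀ j ∈ J, A j ⊆ Y)
    (hz : ∀ j ∈ J, z j ∈ A j) (hg : ∀ j ∈ J, (A j).card ≤ g)
    (hdisj : ∀ i ∈ J, ∀ j ∈ J, i ≠ j → Disjoint (A i) (A j)) :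
    ((Y.powerset.filter (fun Ω => ∀ j ∈ J, Ω ∩ A j ≠ {z j})).card : ℝ) ≤
      2 ^ Y.card * (1 - 1 / 2 ^ g) ^ J.card := by
  induction J using Finset.induction_on generalizing Y with
  | empty =>
    simp
  | insert t J ht ih =>
    have hAt : A t ⊆ Y := hA t (mem_insert_self t J)
    -- apply the induction hypothesis to `Y \ A t`
    have hsub : ∀ j ∈ J, A j ⊆ Y \ A t := by
      intro j hj
      rw [Finset.subset_sdiff]
      refine ⟨hA j (mem_insert_of_mem hj), ?_⟩
      have hjt : j ≠ t := by rintro rfl; exact ht hj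
      exact hdisj j (mem_insert_of_mem hj) t (mem_insert_self t J) hjt
    have ihY := ih (Y \ A t) hsub (fun j hj => hz j (mem_insert_of_mem hj))
      (fun j hj => hg j (mem_insert_of_mem hj))
      (fun i hi j hj hij => hdisj i (mem_insert_of_mem hi) j (mem_insert_of_mem hj) hij)
    set B1 := ((Y \ A t).powerset.filter (fun Ω => ∀ j ∈ J, Ω ∩ A j ≠ {z j})) with hB1
    set B2 := (A t).powerset.erase {z t} with hB2
    have hinj : ((Y.powerset.filter (fun Ω => ∀ j ∈ insert t J, Ω ∩ A j ≠ {z j})).card) ≤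
        (B1 ×ˢ B2).card := by
      refine Finset.card_le_card_of_injOn (fun Ω => (Ω \ A t, Ω ∩ A t)) ?_ ?_
      · intro Ω hΩ
        simp only [coe_filter, mem_powerset, Set.mem_ofPred_eq, coe_product, Set.mem_prod,
          mem_coe] at hΩ ⊢
        obtain ⟨h1, h2⟩ := hΩ
        refine ⟨?_, ?_⟩
        · rw [hB1, mem_filter, mem_powerset]
          refine ⟨Finset.sdiff_subset_sdiff h1 (Finset.Subset.refl _), fun j hj => ?_⟩
          have hjt : j ≠ t := by rintro rfl; exact ht hj
          have hd := hdisj j (mem_insert_of_mem hj) t (mem_insert_self t J) hjt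
          have : (Ω \ A t) ∩ A j = Ω ∩ A j := by
            ext a
            simp only [Finset.mem_inter, Finset.mem_sdiff]
            constructor
            · rintro ⟨⟨h3, _⟩, h4⟩; exact ⟨h3, h4⟩
            · rintro ⟨h3, h4⟩
              exact ⟨⟨h3, fun h5 => (Finset.disjoint_left.1 hd h4 h5)⟩, h4⟩
          rw [this]
          exact h2 j (mem_insert_of_mem hj)
        · rw [hB2, mem_erase, mem_powerset]
          exact ⟨h2 t (mem_insert_self t J), Finset.inter_subset_right⟩
      · intro Ω _ Ω' _ heq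
        simp only [Prod.mk.injEq] at heq
        rw [← Finset.sdiff_union_inter Ω (A t), ← Finset.sdiff_union_inter Ω' (A t), heq.1, heq.2]
    have hB2card : (B2.card : ℝ) = 2 ^ (A t).card - 1 := by
      have hmem : ({z t} : Finset α) ∈ (A t).powerset := by
        rw [mem_powerset, singleton_subset_iff]
        exact hz t (mem_insert_self t J)
      rw [hB2, card_erase_of_mem hmem, card_powerset, Nat.cast_sub Nat.one_le_two_pow]
      simp
    have hYcard : Y.card = (Y \ A t).card + (A t).card := by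
      rw [Finset.card_sdiff_add_card_eq_card hAt]
    have hgt : (A t).card ≤ g := hg t (mem_insert_self t J)
    have hbase : (1 : ℝ) - 1 / 2 ^ (A t).card ≤ 1 - 1 / 2 ^ g := by
      have : (1 : ℝ) / 2 ^ g ≤ 1 / 2 ^ (A t).card :=
        one_div_le_one_div_of_le (by positivity) (pow_le_pow_right₀ (by norm_num) hgt)
      linarith
    have h0 : (0 : ℝ) ≤ 1 - 1 / 2 ^ g := by
      have : (1 : ℝ) / 2 ^ g ≤ 1 := by
        rw [div_le_one (by positivity)]
        exact one_le_pow₀ (by norm_num)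
      linarith
    calc ((Y.powerset.filter (fun Ω => ∀ j ∈ insert t J, Ω ∩ A j ≠ {z j})).card : ℝ)
        ≤ ((B1 ×ˢ B2).card : ℝ) := by exact_mod_cast hinj
      _ = (B1.card : ℝ) * (2 ^ (A t).card - 1) := by
          rw [card_product, Nat.cast_mul, hB2card]
      _ ≤ (2 ^ (Y \ A t).card * (1 - 1 / 2 ^ g) ^ J.card) * (2 ^ (A t).card - 1) := by
          refine mul_le_mul_of_nonneg_right ihY ?_
          have : (1 : ℝ) ≤ 2 ^ (A t).card := one_le_pow₀ (by norm_num)
          linarith
      _ = 2 ^ Y.card * (1 - 1 / 2 ^ g) ^ J.card * (1 - 1 / 2 ^ (A t).card) := by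
          rw [hYcard, pow_add]
          have : (2 : ℝ) ^ (A t).card ≠ 0 := by positivity
          field_simp
      _ ≤ 2 ^ Y.card * (1 - 1 / 2 ^ g) ^ J.card * (1 - 1 / 2 ^ g) :=
          mul_le_mul_of_nonneg_left hbase (by positivity)
      _ = 2 ^ Y.card * (1 - 1 / 2 ^ g) ^ (insert t J).card := by
          rw [card_insert_of_notMem ht, pow_succ]; ring

/-- A partial injection has an independent set of a third of the size. -/
theorem exists_indep {ι : Type*} [DecidableEq ι] (T : Finset ι) (c : ι → ι → Prop)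
    (h1 : ∀ i ∈ T, ∀ j ∈ T, ∀ k ∈ T, c i j → c i k → j = k)
    (h2 : ∀ i ∈ T, ∀ j ∈ T, ∀ k ∈ T, c i k → c j k → i = j) :
    ∃ J : Finset ι, J ⊆ T ∧ T.card ≤ 3 * J.card ∧ ∀ i ∈ J, ∀ j ∈ J, i ≠ j → ¬ c i j := by
  classical
  let S : Finset (Finset ι) := T.powerset.filter (fun J => ∀ i ∈ J, ∀ j ∈ J, i ≠ j → ¬ c i j)
  have hS : S.Nonempty := ⟨∅, by simp [S]⟩
  obtain ⟨J, hJS, hJmax⟩ := Finset.exists_max_image S Finset.card hS
  simp only [S, mem_filter, mem_powerset] at hJS hJmax
  obtain ⟨hJT, hJind⟩ := hJS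
  refine ⟨J, hJT, ?_, hJind⟩
  -- every element of `T \ J` is a neighbour of `J`
  have hcov : ∀ x ∈ T, x ∈ J ∨ (∃ y ∈ J, c x y) ∨ (∃ y ∈ J, c y x) := by
    intro x hx
    by_contra hcon
    push Not at hcon
    obtain ⟨hxJ, hc1, hc2⟩ := hcon
    have := hJmax (insert x J) ⟨Finset.insert_subset hx hJT, ?_⟩
    · rw [card_insert_of_notMem hxJ] at this
      omega
    · intro i hi j hj hij
      rw [mem_insert] at hi hj
      rcases hi with rfl | hi
      · rcases hj with rfl | hj
        · exact absurd rfl hij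
        · exact hc1 j hj
      · rcases hj with rfl | hj
        · exact hc2 i hi
        · exact hJind i hi j hj hij
  set T1 := T.filter (fun x => ∃ y ∈ J, c x y) with hT1
  set T2 := T.filter (fun x => ∃ y ∈ J, c y x) with hT2
  have hTsub : T ⊆ J ∪ (T1 ∪ T2) := by
    intro x hx
    simp only [hT1, hT2, mem_union, mem_filter]
    rcases hcov x hx with h | h | h
    · exact Or.inl h
    · exact Or.inr (Or.inl ⟨hx, h⟩)
    · exact Or.inr (Or.inr ⟨hx, h⟩)
  have hc1 : T1.card ≤ J.card := by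
    have hex : ∀ x ∈ T1, ∃ y ∈ J, c x y := fun x hx => (mem_filter.1 hx).2
    choose! φ hφ1 hφ2 using hex
    refine Finset.card_le_card_of_injOn φ (fun x hx => hφ1 x hx) ?_
    intro x hx x' hx' heq
    have hxT := (mem_filter.1 hx).1
    have hxT' := (mem_filter.1 hx').1
    refine h2 x hxT x' hxT' (φ x) (hJT (hφ1 x hx)) (hφ2 x hx) ?_
    rw [heq]
    exact hφ2 x' hx'
  have hc2 : T2.card ≤ J.card := by
    have hex : ∀ x ∈ T2, ∃ y ∈ J, c y x := fun x hx => (mem_filter.1 hx).2
    choose! φ hφ1 hφ2 using hex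
    refine Finset.card_le_card_of_injOn φ (fun x hx => hφ1 x hx) ?_
    intro x hx x' hx' heq
    have hxT := (mem_filter.1 hx).1
    have hxT' := (mem_filter.1 hx').1
    refine h1 (φ x) (hJT (hφ1 x hx)) x hxT x' hxT' (hφ2 x hx) ?_
    rw [heq]
    exact hφ2 x' hx'
  have := Finset.card_le_card hTsub
  have h3 := Finset.card_union_le J (T1 ∪ T2)
  have h4 := Finset.card_union_le T1 T2
  omega

/-- An exponential beats a polynomial. -/
theorem exists_large (C : ℝ) (hC : 0 ≤ C) (k : ℕ) (r : ℝ) (h0 : 0 ≤ r) (h1 : r < 1) :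
    ∃ m : ℕ, 1 ≤ m ∧ (1 + C * m) ^ k * r ^ m < 1 := by
  have ht : Tendsto (fun n : ℕ => (1 + C) ^ k * ((n : ℝ) ^ k * r ^ n)) atTop
      (nhds ((1 + C) ^ k * 0)) :=
    (tendsto_pow_const_mul_const_pow_of_lt_one k h0 h1).const_mul _
  rw [mul_zero] at ht
  have hev := (ht.eventually (gt_mem_nhds zero_lt_one)).and (eventually_ge_atTop 1)
  obtain ⟨m, hm1, hm2⟩ := hev.exists
  refine ⟨m, hm2, lt_of_le_of_lt ?_ hm1⟩
  have hm : (1 : ℝ) ≤ m := by exact_mod_cast hm2
  have hle : (1 + C * m) ^ k ≤ ((1 + C) * m) ^ k := by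
    refine pow_le_pow_left₀ (by positivity) ?_ k
    nlinarith
  calc (1 + C * m) ^ k * r ^ m ≤ ((1 + C) * m) ^ k * r ^ m :=
        mul_le_mul_of_nonneg_right hle (by positivity)
    _ = (1 + C) ^ k * ((m : ℝ) ^ k * r ^ m) := by rw [mul_pow]; ring

end P06184b
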