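import Mathlib

/-!
# Spike systems (definitions)

Definitions shared by the files of `Pool/Agent/Lib/P06184b`.
-/

open scoped InnerProductSpace

namespace P06184b

variable {𝕜 V : Type*} [RCLike 𝕜] [NormedAddCommGroup V] [InnerProductSpace 𝕜 V]

variable (𝕜) in
/-- A system of unit vectors, closed under unimodular scalars, in which two vectors of different
classes modulo unimodular scalars are at distance at least `4 σ`. -/
structure Spikes (U : Set V) (σ : ℝ) : Prop where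
  unit : ∀ u ∈ U, ‖u‖ = 1
  smul : ∀ u ∈ U, ∀ ζ : 𝕜, ‖ζ‖ = 1 → ζ • u ∈ U
  sep : ∀ u ∈ U, ∀ u' ∈ U, ‖u - u'‖ < 4 * σ → ∃ ζ : 𝕜, ‖ζ‖ = 1 ∧ u' = ζ • u

variable (𝕜) in
/-- Pseudo-randomness of a spike system: given a circle arc `θ ↦ cos θ p + sin θ q + r` of unit
vectors and a second arc `θ ↦ cos θ p' + sin θ q'`, there is a place `θ` at which the first arc is
`τ σ`-close to a vector `u` of the system while near the same place of the second arc there is no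
vector of the system, except possibly those in the class of `u`. -/
def Arcs (U : Set V) (σ τ : ℝ) : Prop :=
  ∀ p q r p' q' : V, ⟪p, q⟫_𝕜 = 0 → ⟪p, r⟫_𝕜 = 0 → ⟪q, r⟫_𝕜 = 0 → ‖p‖ = ‖q‖ →
    ‖p‖ ^ 2 + ‖r‖ ^ 2 = 1 → 1 / 2 ≤ ‖p‖ → ‖p'‖ = 1 → ‖q'‖ = 1 → ⟪p', q'⟫_𝕜 = 0 →
    ∃ θ : ℝ, 0 ≤ θ ∧ θ ≤ 1 / 10 ∧ ∃ u ∈ U,
      ‖u - ((Real.cos θ : 𝕜) • p + (Real.sin θ : 𝕜) • q + r)‖ ≤ τ * σ ∧
      ∀ u' ∈ U, ‖u' - ((Real.cos θ : 𝕜) • p' + (Real.sin θ : 𝕜) • q')‖ ≤ σ →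
        ∃ ζ : 𝕜, ‖ζ‖ = 1 ∧ u' = ζ • u

end P06184b
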