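import Pool.Agent.Lib.P06184b.Defs
import Pool.Agent.Lib.P06184b.Pack
import Pool.Agent.Lib.P06184b.Count

/-!
# Existence of pseudo-random spike systems
-/

open scoped InnerProductSpace

namespace P06184b

variable {𝕜 V : Type*} [RCLike 𝕜] [NormedAddCommGroup V] [InnerProductSpace 𝕜 V]

variable (𝕜) in
/-- `a` is `R`-close to `b` modulo unimodular scalars. -/
def near (R : ℝ) (a b : V) : Prop := ∃ ζ : 𝕜, ‖ζ‖ = 1 ∧ ‖ζ • a - b‖ ≤ R

theorem near_refl {R : ℝ} (hR : 0 ≤ R) (a : V) : near 𝕜 R a a := ⟨1, by simp, by simpa using hR⟩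

theorem near_symm {R : ℝ} {a b : V} (h : near 𝕜 R a b) : near 𝕜 R b a := by
  obtain ⟨ζ, hζ, h⟩ := h
  have hζ0 : ζ ≠ 0 := by rintro rfl; simp at hζ
  refine ⟨ζ⁻¹, by simp [hζ], ?_⟩
  have e : ζ⁻¹ • b - a = -(ζ⁻¹ • (ζ • a - b)) := by
    rw [smul_sub, smul_smul, inv_mul_cancel₀ hζ0, one_smul]; abel
  rw [e, norm_neg, norm_smul, norm_inv, hζ, inv_one, one_mul]
  exact h

theorem near_trans {R R' : ℝ} {a b c : V} (h : near 𝕜 R a b) (h' : near 𝕜 R' b c) :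
    near 𝕜 (R + R') a c := by
  obtain ⟨ζ, hζ, h⟩ := h
  obtain ⟨ξ, hξ, h'⟩ := h'
  refine ⟨ξ * ζ, by simp [hζ, hξ], ?_⟩
  have e : (ξ * ζ) • a - c = ξ • (ζ • a - b) + (ξ • b - c) := by
    rw [mul_smul, smul_sub]; abel
  rw [e]
  refine le_trans (norm_add_le _ _) (add_le_add ?_ h')
  rw [norm_smul, hξ, one_mul]; exact h

theorem near_mono {R R' : ℝ} (hR : R ≤ R') {a b : V} (h : near 𝕜 R a b) : near 𝕜 R' a b := by
  obtain ⟨ζ, hζ, h⟩ := h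
  exact ⟨ζ, hζ, h.trans hR⟩

variable (𝕜) in
/-- A circle arc. -/
noncomputable def arc (p q r : V) (θ : ℝ) : V := (Real.cos θ : 𝕜) • p + (Real.sin θ : 𝕜) • q + r

variable (𝕜) in
/-- Validity of the data of an arc. -/
structure ArcOK (p q r : V) : Prop where
  pq : ⟪p, q⟫_𝕜 = 0
  pr : ⟪p, r⟫_𝕜 = 0
  qr : ⟪q, r⟫_𝕜 = 0
  n : ‖p‖ = ‖q‖
  n2 : ‖p‖ ^ 2 + ‖r‖ ^ 2 = 1
  n3 : 1 / 2 ≤ ‖p‖

theorem ArcOK.inner {p q r : V} (h : ArcOK 𝕜 p q r) (θ θ' : ℝ) :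
    ⟪arc 𝕜 p q r θ, arc 𝕜 p q r θ'⟫_𝕜 =
      ((‖p‖ ^ 2 * Real.cos (θ - θ') + ‖r‖ ^ 2 : ℝ) : 𝕜) := by
  have qp : ⟪q, p⟫_𝕜 = 0 := by rw [← inner_conj_symm, h.pq]; simp
  have rp : ⟪r, p⟫_𝕜 = 0 := by rw [← inner_conj_symm, h.pr]; simp
  have rq : ⟪r, q⟫_𝕜 = 0 := by rw [← inner_conj_symm, h.qr]; simp
  rw [arc, arc]
  simp only [inner_add_left, inner_add_right, inner_smul_left, inner_smul_right, h.pq, h.pr, h.qr,
    qp, rp, rq, RCLike.conj_ofReal, inner_self_eq_norm_sq_to_K, ← h.n]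
  rw [Real.cos_sub]; push_cast; ring

theorem ArcOK.norm {p q r : V} (h : ArcOK 𝕜 p q r) (θ : ℝ) : ‖arc 𝕜 p q r θ‖ = 1 := by
  have h1 := h.inner θ θ
  rw [sub_self, Real.cos_zero, mul_one, h.n2, inner_self_eq_norm_sq_to_K] at h1
  have h2 : ‖arc 𝕜 p q r θ‖ ^ 2 = 1 := by
    have : ((‖arc 𝕜 p q r θ‖ ^ 2 : ℝ) : 𝕜) = ((1 : ℝ) : 𝕜) := by
      rw [← h1]; push_cast; rfl
    exact_mod_cast this
  nlinarith [norm_nonneg (arc 𝕜 p q r θ)]

/-- Different places of an arc are far apart, also modulo scalars. -/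
theorem ArcOK.sep {p q r : V} (h : ArcOK 𝕜 p q r) {θ θ' σ : ℝ} (hσ : 0 < σ)
    (h1 : 50 * σ ≤ |θ - θ'|) (h2 : |θ - θ'| ≤ 1 / 10) :
    ¬ near 𝕜 (20 * σ) (arc 𝕜 p q r θ) (arc 𝕜 p q r θ') := by
  rintro ⟨ζ, hζ, hn⟩
  set x := arc 𝕜 p q r θ with hx
  set y := arc 𝕜 p q r θ' with hy
  have hxn : ‖x‖ = 1 := h.norm θ
  have hyn : ‖y‖ = 1 := h.norm θ'
  set Δ := |θ - θ'| with hΔ
  have hcos : Real.cos (θ - θ') = Real.cos Δ := (Real.cos_abs _).symm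
  have hΔ0 : 0 ≤ Δ := abs_nonneg _
  have hcb := Real.cos_bound (x := Δ) (by rw [abs_of_nonneg hΔ0]; linarith)
  rw [abs_of_nonneg hΔ0] at hcb
  have hc1 := (abs_le.1 hcb).2
  have hΔ2 : Δ ^ 4 ≤ Δ ^ 2 / 100 := by
    have : Δ ^ 2 ≤ 1 / 100 := by nlinarith
    nlinarith [sq_nonneg Δ]
  have hc2 : Real.cos Δ ≤ 1 - 49 / 100 * Δ ^ 2 := by nlinarith
  have hcl : 0 ≤ Real.cos Δ := by
    have := Real.one_sub_sq_div_two_le_cos (x := Δ)
    nlinarith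
  have hin : ⟪x, y⟫_𝕜 = ((‖p‖ ^ 2 * Real.cos Δ + ‖r‖ ^ 2 : ℝ) : 𝕜) := by
    rw [hx, hy, h.inner, hcos]
  have hp2 : 1 / 4 ≤ ‖p‖ ^ 2 := by nlinarith [h.n3]
  have hin2 : ‖⟪x, y⟫_𝕜‖ ≤ 1 - 49 / 400 * Δ ^ 2 := by
    rw [hin, RCLike.norm_ofReal, abs_of_nonneg (by positivity)]
    have h3 : ‖p‖ ^ 2 * Real.cos Δ ≤ ‖p‖ ^ 2 * (1 - 49 / 100 * Δ ^ 2) :=
      mul_le_mul_of_nonneg_left hc2 (by positivity)
    have h4 : 1 / 4 * (49 / 100 * Δ ^ 2) ≤ ‖p‖ ^ 2 * (49 / 100 * Δ ^ 2) :=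
      mul_le_mul_of_nonneg_right hp2 (by positivity)
    have := h.n2
    nlinarith
  have hd : ‖ζ • x - y‖ ^ 2 = 2 - 2 * RCLike.re ⟪ζ • x, y⟫_𝕜 := by
    rw [@norm_sub_sq 𝕜, norm_smul, hζ, hxn, hyn]; ring
  have hre : RCLike.re ⟪ζ • x, y⟫_𝕜 ≤ 1 - 49 / 400 * Δ ^ 2 := by
    refine le_trans (RCLike.re_le_norm _) ?_
    rw [inner_smul_left, norm_mul, RCLike.norm_conj, hζ, one_mul]
    exact hin2
  have h5 : 49 / 200 * Δ ^ 2 ≤ (20 * σ) ^ 2 := by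
    have h6 : ‖ζ • x - y‖ ^ 2 ≤ (20 * σ) ^ 2 := pow_le_pow_left₀ (norm_nonneg _) hn 2
    linarith
  have h7 : (50 * σ) ^ 2 ≤ Δ ^ 2 := pow_le_pow_left₀ (by positivity) h1 2
  nlinarith

theorem arc_close {p q r p' q' r' : V} {ε : ℝ} (hp : ‖p - p'‖ ≤ ε) (hq : ‖q - q'‖ ≤ ε)
    (hr : ‖r - r'‖ ≤ ε) (θ : ℝ) : ‖arc 𝕜 p q r θ - arc 𝕜 p' q' r' θ‖ ≤ 3 * ε := by
  have e : arc 𝕜 p q r θ - arc 𝕜 p' q' r' θ =
      (Real.cos θ : 𝕜) • (p - p') + (Real.sin θ : 𝕜) • (q - q') + (r - r') := by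
    rw [arc, arc]; module
  rw [e]
  have h1 : ‖(Real.cos θ : 𝕜) • (p - p')‖ ≤ ε := by
    rw [norm_smul, RCLike.norm_ofReal]
    nlinarith [Real.abs_cos_le_one θ, norm_nonneg (p - p'), abs_nonneg (Real.cos θ)]
  have h2 : ‖(Real.sin θ : 𝕜) • (q - q')‖ ≤ ε := by
    rw [norm_smul, RCLike.norm_ofReal]
    nlinarith [Real.abs_sin_le_one θ, norm_nonneg (q - q'), abs_nonneg (Real.sin θ)]
  refine le_trans (norm_add_le _ _) (le_trans (add_le_add (norm_add_le _ _) le_rfl) ?_)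
  linarith

variable [NormedSpace ℝ V] [FiniteDimensional ℝ V]

/-- Local bound for the number of points of a separated set. -/
theorem card_near_le (Y : Finset V) (ε R : ℝ) (hε : 0 < ε) (hR : 0 ≤ R)
    (hY : ∀ x ∈ Y, ∀ y ∈ Y, x ≠ y → ¬ near 𝕜 ε x y) (y : V) (Z : Finset V) (hZ : Z ⊆ Y)
    (hZy : ∀ z ∈ Z, near 𝕜 R z y) :
    (Z.card : ℝ) ≤ (1 + 2 * R / ε) ^ Module.finrank ℝ V := by
  classical
  have hex : ∀ z : V, ∃ ζ : 𝕜, ‖ζ‖ = 1 ∧ (z ∈ Z → ‖ζ • z - y‖ ≤ R) := by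
    intro z
    by_cases hz : z ∈ Z
    · obtain ⟨ζ, h1, h2⟩ := hZy z hz
      exact ⟨ζ, h1, fun _ => h2⟩
    · exact ⟨1, by simp, fun h => absurd h hz⟩
  choose ζ h1 h2 using hex
  have hsep : ∀ a ∈ Z, ∀ b ∈ Z, a ≠ b → ε < ‖ζ a • a - ζ b • b‖ := by
    intro a ha b hb hab
    by_contra hcon
    push Not at hcon
    apply hY a (hZ ha) b (hZ hb) hab
    have hb0 : ζ b ≠ 0 := by
      intro h0; have := h1 b; rw [h0, norm_zero] at this; exact zero_ne_one this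
    refine ⟨(ζ b)⁻¹ * ζ a, by simp [h1], ?_⟩
    have e : ((ζ b)⁻¹ * ζ a) • a - b = (ζ b)⁻¹ • (ζ a • a - ζ b • b) := by
      rw [smul_sub, smul_smul, smul_smul, inv_mul_cancel₀ hb0, one_smul]
    rw [e, norm_smul, norm_inv, h1, inv_one, one_mul]
    exact hcon
  have hinj : Set.InjOn (fun z => ζ z • z) (Z : Set V) := by
    intro a ha b hb hab
    by_contra hne
    have := hsep a ha b hb hne
    simp only at hab
    rw [hab, sub_self, norm_zero] at this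
    linarith
  rw [← Finset.card_image_of_injOn hinj]
  refine card_le_of_sep _ y R ε hε hR ?_ ?_
  · intro c hc
    obtain ⟨z, hz, rfl⟩ := Finset.mem_image.1 hc
    exact h2 z hz
  · intro c hc d hd hcd
    obtain ⟨z, hz, rfl⟩ := Finset.mem_image.1 hc
    obtain ⟨w, hw, rfl⟩ := Finset.mem_image.1 hd
    exact hsep z hz w hw (fun h => hcd (by rw [h]))

open Classical in
variable (𝕜) in
/-- The points of `Y` relevant for a place of the two arcs. -/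
noncomputable def At (Y : Finset V) (σ : ℝ) (x y : V) : Finset V :=
  Y.filter (fun z => near 𝕜 (5 * σ) z x ∨ near 𝕜 (5 * σ) z y)

theorem card_At_le (Y : Finset V) (σ τ : ℝ) (hσ : 0 < σ) (hτ : 0 < τ)
    (hY : ∀ x ∈ Y, ∀ y ∈ Y, x ≠ y → ¬ near 𝕜 (τ * σ / 2) x y) (x y : V) :
    ((At 𝕜 Y σ x y).card : ℝ) ≤ 2 * (1 + 20 / τ) ^ Module.finrank ℝ V := by
  classical
  have hb : ∀ w : V, ((Y.filter (fun z => near 𝕜 (5 * σ) z w)).card : ℝ) ≤
      (1 + 20 / τ) ^ Module.finrank ℝ V := by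
    intro w
    have h := card_near_le (𝕜 := 𝕜) Y (τ * σ / 2) (5 * σ) (by positivity) (by positivity) hY w
      (Y.filter (fun z => near 𝕜 (5 * σ) z w)) (Finset.filter_subset _ _)
      (fun z hz => (Finset.mem_filter.1 hz).2)
    have e : 2 * (5 * σ) / (τ * σ / 2) = 20 / τ := by field_simp; norm_num
    rwa [e] at h
  have hsub : At 𝕜 Y σ x y ⊆ Y.filter (fun z => near 𝕜 (5 * σ) z x) ∪
      Y.filter (fun z => near 𝕜 (5 * σ) z y) := by
    intro z hz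
    rw [At, Finset.mem_filter] at hz
    rw [Finset.mem_union, Finset.mem_filter, Finset.mem_filter]
    rcases hz with ⟨h1, h2 | h2⟩
    · exact Or.inl ⟨h1, h2⟩
    · exact Or.inr ⟨h1, h2⟩
  have h1 : ((At 𝕜 Y σ x y).card : ℝ) ≤ ((Y.filter (fun z => near 𝕜 (5 * σ) z x)).card : ℝ) +
      ((Y.filter (fun z => near 𝕜 (5 * σ) z y)).card : ℝ) := by
    exact_mod_cast le_trans (Finset.card_le_card hsub) (Finset.card_union_le _ _)
  linarith [hb x, hb y]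

omit [NormedSpace ℝ V] [FiniteDimensional ℝ V] in
/-- Many places with disjoint relevant sets. -/
theorem exists_places (Y : Finset V) (m : ℕ) (hm : 1 ≤ m) {p q r p' q' r' : V}
    (h : ArcOK 𝕜 p q r) (h' : ArcOK 𝕜 p' q' r') :
    ∃ J : Finset ℕ, (∀ j ∈ J, j < 3 * m) ∧ m ≤ J.card ∧ ∀ i ∈ J, ∀ j ∈ J, i ≠ j →
      Disjoint (At 𝕜 Y (1 / (1500 * m)) (arc 𝕜 p q r (i / (30 * m))) (arc 𝕜 p' q' r' (i / (30 * m))))
        (At 𝕜 Y (1 / (1500 * m)) (arc 𝕜 p q r (j / (30 * m))) (arc 𝕜 p' q' r' (j / (30 * m)))) := by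
  classical
  have hm0 : (0 : ℝ) < m := by exact_mod_cast hm
  obtain ⟨σ, hσd⟩ : ∃ σ : ℝ, σ = 1 / (1500 * m) := ⟨_, rfl⟩
  have hσ : 0 < σ := by rw [hσd]; positivity
  rw [← hσd]
  have hθ : ∀ i j : ℕ, i < 3 * m → j < 3 * m → i ≠ j →
      50 * σ ≤ |((i : ℝ) / (30 * m)) - (j / (30 * m))| ∧
      |((i : ℝ) / (30 * m)) - (j / (30 * m))| ≤ 1 / 10 := by
    intro i j hi hj hij
    have e : ((i : ℝ) / (30 * m)) - (j / (30 * m)) = ((i : ℝ) - j) / (30 * m) := by ring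
    rw [e, abs_div, abs_of_pos (by positivity : (0 : ℝ) < 30 * m)]
    constructor
    · rw [le_div_iff₀ (by positivity), hσd]
      have h1 : (1 : ℝ) ≤ |(i : ℝ) - j| := by
        have h2 : (1 : ℤ) ≤ |(i : ℤ) - j| := Int.one_le_abs (by omega)
        exact_mod_cast h2
      have : 50 * (1 / (1500 * (m : ℝ))) * (30 * m) = 1 := by field_simp; norm_num
      rw [this]; exact h1
    · rw [div_le_iff₀ (by positivity)]
      have h1 : |(i : ℝ) - j| ≤ 3 * m := by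
        rw [abs_le]
        have a : (i : ℝ) < 3 * m := by exact_mod_cast hi
        have b : (j : ℝ) < 3 * m := by exact_mod_cast hj
        have c : (0 : ℝ) ≤ i := by positivity
        have d : (0 : ℝ) ≤ j := by positivity
        constructor <;> linarith
      linarith
  set γ : ℕ → V := fun i => arc 𝕜 p q r (i / (30 * m)) with hγ
  set γ' : ℕ → V := fun i => arc 𝕜 p' q' r' (i / (30 * m)) with hγ'
  have sep1 : ∀ i j : ℕ, i < 3 * m → j < 3 * m → near 𝕜 (20 * σ) (γ i) (γ j) → i = j := by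
    intro i j hi hj hn
    by_contra hij
    obtain ⟨a, b⟩ := hθ i j hi hj hij
    exact h.sep hσ a b hn
  have sep2 : ∀ i j : ℕ, i < 3 * m → j < 3 * m → near 𝕜 (20 * σ) (γ' i) (γ' j) → i = j := by
    intro i j hi hj hn
    by_contra hij
    obtain ⟨a, b⟩ := hθ i j hi hj hij
    exact h'.sep hσ a b hn
  have comb : ∀ x y z : V, near 𝕜 (5 * σ) z x → near 𝕜 (5 * σ) z y → near 𝕜 (10 * σ) x y := by
    intro x y z h1 h2
    exact near_mono (by linarith) (near_trans (near_symm h1) h2)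
  have comb2 : ∀ x y z : V, near 𝕜 (10 * σ) z x → near 𝕜 (10 * σ) z y → near 𝕜 (20 * σ) x y := by
    intro x y z h1 h2
    exact near_mono (by linarith) (near_trans (near_symm h1) h2)
  set cc : ℕ → ℕ → Prop := fun i j => ∃ z, near 𝕜 (5 * σ) z (γ i) ∧ near 𝕜 (5 * σ) z (γ' j)
    with hcc
  have hcc10 : ∀ i j, cc i j → near 𝕜 (10 * σ) (γ i) (γ' j) := by
    rintro i j ⟨z, h1, h2⟩
    exact comb _ _ z h1 h2
  obtain ⟨J, hJ, hJc, hJi⟩ := exists_indep (Finset.range (3 * m)) cc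
    (by
      intro i _ j hj k hk h1 h2
      exact sep2 j k (Finset.mem_range.1 hj) (Finset.mem_range.1 hk)
        (comb2 _ _ _ (hcc10 _ _ h1) (hcc10 _ _ h2)))
    (by
      intro i hi j hj k _ h1 h2
      exact sep1 i j (Finset.mem_range.1 hi) (Finset.mem_range.1 hj)
        (comb2 _ _ _ (near_symm (hcc10 _ _ h1)) (near_symm (hcc10 _ _ h2))))
  rw [Finset.card_range] at hJc
  refine ⟨J, fun j hj => Finset.mem_range.1 (hJ hj), by omega, ?_⟩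
  intro i hi j hj hij
  have hi' := Finset.mem_range.1 (hJ hi)
  have hj' := Finset.mem_range.1 (hJ hj)
  rw [Finset.disjoint_left]
  intro z hz1 hz2
  rw [At, Finset.mem_filter] at hz1 hz2
  rcases hz1.2 with a | a <;> rcases hz2.2 with b | b
  · exact hij (sep1 i j hi' hj' (near_mono (by linarith) (comb _ _ z a b)))
  · exact hJi i hi j hj hij ⟨z, a, b⟩
  · exact hJi j hj i hi (Ne.symm hij) ⟨z, b, a⟩
  · exact hij (sep2 i j hi' hj' (near_mono (by linarith) (comb _ _ z a b)))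

theorem exists_spikes_real (τ : ℝ) (hτ : 0 < τ) (hτ1 : τ ≤ 1) :
    ∃ (σ : ℝ) (U : Set V), 0 < σ ∧ σ ≤ 1 / 100 ∧ Spikes 𝕜 U σ ∧ Arcs 𝕜 U σ τ := by
  classical
  set d := Module.finrank ℝ V with hd
  obtain ⟨g, hg⟩ := exists_nat_ge (2 * (1 + 20 / τ) ^ d)
  obtain ⟨m, hm, hlarge⟩ := exists_large (18000 / τ) (by positivity) (5 * d) (1 - 1 / 2 ^ g)
    (by
      rw [sub_nonneg, div_le_one (by positivity)]
      exact one_le_pow₀ (by norm_num))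
    (by
      have : (0 : ℝ) < 1 / 2 ^ g := by positivity
      linarith)
  have hm0 : (0 : ℝ) < m := by exact_mod_cast hm
  have hm1 : (1 : ℝ) ≤ m := by exact_mod_cast hm
  obtain ⟨σ, hσd⟩ : ∃ σ : ℝ, σ = 1 / (1500 * m) := ⟨_, rfl⟩
  have hσ : 0 < σ := by rw [hσd]; positivity
  have hσ1 : σ ≤ 1 / 100 := by
    rw [hσd]; apply one_div_le_one_div_of_le (by norm_num); linarith
  -- the maximal separated set
  have hε : 0 < τ * σ / 2 := by positivity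
  obtain ⟨N, hN⟩ := exists_nat_ge ((1 + 2 * 1 / (τ * σ / 2)) ^ d)
  obtain ⟨Y, hY1, hYsep, -, hYmax⟩ := exists_maximal {x : V | ‖x‖ = 1} (near 𝕜 (τ * σ / 2))
    (fun x _ => near_refl hε.le x) (fun x y h => near_symm h) N (by
      intro F hF hFsep
      have h1 := card_le_of_sep F 0 1 (τ * σ / 2) hε zero_le_one
        (fun c hc => by rw [sub_zero]; exact le_of_eq (hF hc))
        (fun c hc e he hce => by
          by_contra hcon
          push Not at hcon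
          exact hFsep c hc e he hce ⟨1, by simp, by simpa using hcon⟩)
      exact_mod_cast le_trans h1 hN)
  -- representatives of the data
  set DD : Set (Fin 5 → V) := {w | ArcOK 𝕜 (w 0) (w 1) (w 2) ∧ ArcOK 𝕜 (w 3) (w 4) 0} with hDD
  have hDD1 : ∀ w ∈ DD, ‖w‖ ≤ 1 := by
    rintro w ⟨h1, h2⟩
    have a0 : ‖w 0‖ ≤ 1 := by nlinarith [h1.n2, norm_nonneg (w 0), sq_nonneg ‖w 2‖]
    have a2 : ‖w 2‖ ≤ 1 := by nlinarith [h1.n2, norm_nonneg (w 2), sq_nonneg ‖w 0‖]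
    have a3 : ‖w 3‖ ≤ 1 := by
      have := h2.n2
      rw [norm_zero] at this
      nlinarith [norm_nonneg (w 3)]
    rw [pi_norm_le_iff_of_nonneg zero_le_one]
    intro i
    fin_cases i
    · exact a0
    · change ‖w 1‖ ≤ 1
      rw [← h1.n]; exact a0
    · exact a2
    · exact a3
    · change ‖w 4‖ ≤ 1
      rw [← h2.n]; exact a3
  obtain ⟨W, hW1, hWc, hWnet⟩ := exists_net DD hDD1 (τ * σ / 6) (by positivity)
  have hfr : Module.finrank ℝ (Fin 5 → V) = 5 * d := by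
    rw [Module.finrank_pi_fintype]; simp [hd]
  have h2ε : 2 / (τ * σ / 6) = 18000 / τ * m := by
    rw [hσd]; field_simp; norm_num
  rw [hfr, h2ε] at hWc
  -- places for the representatives
  have hplaces : ∀ w : Fin 5 → V, ∃ J : Finset ℕ, w ∈ DD → (∀ j ∈ J, j < 3 * m) ∧ m ≤ J.card ∧
      ∀ i ∈ J, ∀ j ∈ J, i ≠ j →
      Disjoint (At 𝕜 Y σ (arc 𝕜 (w 0) (w 1) (w 2) (i / (30 * m))) (arc 𝕜 (w 3) (w 4) 0 (i / (30 * m))))
        (At 𝕜 Y σ (arc 𝕜 (w 0) (w 1) (w 2) (j / (30 * m))) (arc 𝕜 (w 3) (w 4) 0 (j / (30 * m)))) := by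
    intro w
    by_cases hw : w ∈ DD
    · obtain ⟨J, hJ⟩ := exists_places Y m hm hw.1 hw.2
      rw [← hσd] at hJ
      exact ⟨J, fun _ => hJ⟩
    · exact ⟨∅, fun h => absurd h hw⟩
  choose J hJ using hplaces
  have hzex : ∀ (w : Fin 5 → V) (j : ℕ), ∃ z : V, w ∈ DD → z ∈ Y ∧
      near 𝕜 (τ * σ / 2) (arc 𝕜 (w 0) (w 1) (w 2) (j / (30 * m))) z := by
    intro w j
    by_cases hw : w ∈ DD
    · obtain ⟨z, hz, hz2⟩ := hYmax (arc 𝕜 (w 0) (w 1) (w 2) (j / (30 * m))) (hw.1.norm _)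
      exact ⟨z, fun _ => ⟨hz, hz2⟩⟩
    · exact ⟨0, fun h => absurd h hw⟩
  choose z hz using hzex
  set A : (Fin 5 → V) → ℕ → Finset V := fun w j =>
    At 𝕜 Y σ (arc 𝕜 (w 0) (w 1) (w 2) (j / (30 * m))) (arc 𝕜 (w 3) (w 4) 0 (j / (30 * m))) with hA
  set Bad : (Fin 5 → V) → Finset (Finset V) := fun w =>
    Y.powerset.filter (fun Ω => ∀ j ∈ J w, Ω ∩ A w j ≠ {z w j}) with hBad
  have hBadc : ∀ w ∈ DD, ((Bad w).card : ℝ) ≤ 2 ^ Y.card * (1 - 1 / 2 ^ g) ^ m := by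
    intro w hw
    have h1 := count_bad Y g (J w) (A w) (z w) (fun j _ => Finset.filter_subset _ _)
      (fun j _ => by
        simp only [hA, At, Finset.mem_filter]
        obtain ⟨a, b⟩ := hz w j hw
        exact ⟨a, Or.inl (near_mono (by nlinarith) (near_symm b))⟩)
      (fun j _ => by
        have := card_At_le (𝕜 := 𝕜) Y σ τ hσ hτ hYsep (arc 𝕜 (w 0) (w 1) (w 2) (j / (30 * m)))
          (arc 𝕜 (w 3) (w 4) 0 (j / (30 * m)))
        exact Nat.cast_le.1 (le_trans this hg))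
      (hJ w hw).2.2
    refine le_trans h1 (mul_le_mul_of_nonneg_left ?_ (by positivity))
    refine pow_le_pow_of_le_one ?_ ?_ (hJ w hw).2.1
    · rw [sub_nonneg, div_le_one (by positivity)]
      exact one_le_pow₀ (by norm_num)
    · have : (0 : ℝ) < 1 / 2 ^ g := by positivity
      linarith
  have hex : ∃ Ω ∈ Y.powerset, ∀ w ∈ W, Ω ∉ Bad w := by
    by_contra hcon
    push Not at hcon
    have hsub : Y.powerset ⊆ W.biUnion Bad := by
      intro Ω hΩ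
      obtain ⟨w, hw, hwB⟩ := hcon Ω hΩ
      exact Finset.mem_biUnion.2 ⟨w, hw, hwB⟩
    have h1 : ((Y.powerset.card : ℕ) : ℝ) ≤ ∑ w ∈ W, ((Bad w).card : ℝ) := by
      exact_mod_cast le_trans (Finset.card_le_card hsub) Finset.card_biUnion_le
    have h2 : ∑ w ∈ W, ((Bad w).card : ℝ) ≤ W.card * (2 ^ Y.card * (1 - 1 / 2 ^ g) ^ m) := by
      rw [← nsmul_eq_mul]
      exact Finset.sum_le_card_nsmul _ _ _ (fun w hw => hBadc w (hW1 hw))
    rw [Finset.card_powerset] at h1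
    push_cast at h1
    have hr0 : (0 : ℝ) ≤ (1 - 1 / 2 ^ g) ^ m := by
      apply pow_nonneg
      rw [sub_nonneg, div_le_one (by positivity)]
      exact one_le_pow₀ (by norm_num)
    have h3 : (W.card : ℝ) * (2 ^ Y.card * (1 - 1 / 2 ^ g) ^ m) ≤
        2 ^ Y.card * ((1 + 18000 / τ * m) ^ (5 * d) * (1 - 1 / 2 ^ g) ^ m) := by
      have : (W.card : ℝ) * (1 - 1 / 2 ^ g) ^ m ≤
          (1 + 18000 / τ * m) ^ (5 * d) * (1 - 1 / 2 ^ g) ^ m :=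
        mul_le_mul_of_nonneg_right hWc hr0
      calc (W.card : ℝ) * (2 ^ Y.card * (1 - 1 / 2 ^ g) ^ m)
          = 2 ^ Y.card * (W.card * (1 - 1 / 2 ^ g) ^ m) := by ring
        _ ≤ _ := mul_le_mul_of_nonneg_left this (by positivity)
    have h4 : (2 : ℝ) ^ Y.card * ((1 + 18000 / τ * m) ^ (5 * d) * (1 - 1 / 2 ^ g) ^ m) <
        2 ^ Y.card * 1 := mul_lt_mul_of_pos_left hlarge (by positivity)
    linarith
  obtain ⟨Ω, hΩ, hΩW⟩ := hex
  rw [Finset.mem_powerset] at hΩ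
  -- the spike system
  set Iso : Set V := {x | x ∈ Ω ∧ ∀ y ∈ Ω, near 𝕜 (4 * σ) x y → y = x} with hIso
  set U : Set V := {u | ∃ x ∈ Iso, ∃ ζ : 𝕜, ‖ζ‖ = 1 ∧ u = ζ • x} with hU
  refine ⟨σ, U, hσ, hσ1, ?_, ?_⟩
  · refine ⟨?_, ?_, ?_⟩
    · rintro u ⟨x, hx, ζ, hζ, rfl⟩
      rw [norm_smul, hζ, one_mul]
      exact hY1 (hΩ hx.1)
    · rintro u ⟨x, hx, ζ, hζ, rfl⟩ ξ hξ
      exact ⟨x, hx, ξ * ζ, by simp [hζ, hξ], by rw [mul_smul]⟩
    · rintro u ⟨x, hx, ζ, hζ, rfl⟩ u' ⟨x', hx', ζ', hζ', rfl⟩ hlt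
      have hζ0 : ζ ≠ 0 := by rintro rfl; simp at hζ
      have hζ'0 : ζ' ≠ 0 := by rintro rfl; simp at hζ'
      have hnear : near 𝕜 (4 * σ) x x' := by
        refine ⟨ζ'⁻¹ * ζ, by simp [hζ, hζ'], ?_⟩
        have e : (ζ'⁻¹ * ζ) • x - x' = ζ'⁻¹ • (ζ • x - ζ' • x') := by
          rw [smul_sub, smul_smul, smul_smul, inv_mul_cancel₀ hζ'0, one_smul]
        rw [e, norm_smul, norm_inv, hζ', inv_one, one_mul]
        exact hlt.le
      have hxx := hx.2 x' hx'.1 hnear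
      refine ⟨ζ' * ζ⁻¹, by simp [hζ, hζ'], ?_⟩
      rw [hxx, smul_smul, mul_assoc, inv_mul_cancel₀ hζ0, mul_one]
  · intro p q r p' q' hpq hpr hqr hn hn2 hn3 hp' hq' hpq'
    set w' : Fin 5 → V := ![p, q, r, p', q'] with hw'
    have hw'D : w' ∈ DD := by
      refine ⟨⟨hpq, hpr, hqr, hn, hn2, hn3⟩, ⟨hpq', by simp, by simp, ?_, ?_, ?_⟩⟩
      · change ‖p'‖ = ‖q'‖
        rw [hp', hq']
      · change ‖p'‖ ^ 2 + ‖(0 : V)‖ ^ 2 = 1
        rw [hp', norm_zero]; norm_num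
      · change 1 / 2 ≤ ‖p'‖
        rw [hp']; norm_num
    obtain ⟨w, hwW, hww⟩ := hWnet w' hw'D
    have hwD : w ∈ DD := hW1 hwW
    have hcomp : ∀ i, ‖w' i - w i‖ ≤ τ * σ / 6 := fun i => le_trans (norm_le_pi_norm (w' - w) i) hww
    have hnb := hΩW w hwW
    rw [hBad, Finset.mem_filter, not_and] at hnb
    have hnb2 := hnb (Finset.mem_powerset.2 hΩ)
    push Not at hnb2
    obtain ⟨j, hjJ, hj⟩ := hnb2
    have hjm := (hJ w hwD).1 j hjJ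
    obtain ⟨hzY, hznear⟩ := hz w j hwD
    set θ : ℝ := (j : ℝ) / (30 * m) with hθ
    have hzΩ : z w j ∈ Ω := by
      have : z w j ∈ Ω ∩ A w j := by rw [hj]; exact Finset.mem_singleton_self _
      exact (Finset.mem_inter.1 this).1
    have honly : ∀ y ∈ Ω, y ∈ A w j → y = z w j := by
      intro y hy1 hy2
      have : y ∈ Ω ∩ A w j := Finset.mem_inter.2 ⟨hy1, hy2⟩
      rw [hj] at this
      exact Finset.mem_singleton.1 this
    obtain ⟨ζ, hζ, hζn⟩ := near_symm hznear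
    have hζ0 : ζ ≠ 0 := by rintro rfl; simp at hζ
    have hiso : z w j ∈ Iso := by
      refine ⟨hzΩ, fun y hy hny => honly y hy ?_⟩
      simp only [hA, At, Finset.mem_filter]
      refine ⟨hΩ hy, Or.inl ?_⟩
      have := near_trans (near_symm hny) (near_symm hznear)
      exact near_mono (by nlinarith) this
    refine ⟨θ, by positivity, ?_, ζ • z w j, ⟨z w j, hiso, ζ, hζ, rfl⟩, ?_, ?_⟩
    · rw [hθ, div_le_iff₀ (by positivity)]
      have : (j : ℝ) < 3 * m := by exact_mod_cast hjm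
      linarith
    · have hcl := arc_close (𝕜 := 𝕜) (hcomp 0) (hcomp 1) (hcomp 2) θ
      change ‖arc 𝕜 p q r θ - _‖ ≤ _ at hcl
      change ‖ζ • z w j - arc 𝕜 p q r θ‖ ≤ τ * σ
      have e : ζ • z w j - arc 𝕜 p q r θ = (ζ • z w j - arc 𝕜 (w 0) (w 1) (w 2) θ) -
          (arc 𝕜 p q r θ - arc 𝕜 (w 0) (w 1) (w 2) θ) := by abel
      rw [e]
      refine le_trans (norm_sub_le _ _) ?_
      linarith
    · rintro u' ⟨x', hx', ζ', hζ', rfl⟩ hu'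
      have hcl := arc_close (𝕜 := 𝕜) (hcomp 3) (hcomp 4)
        (show ‖(0 : V) - 0‖ ≤ τ * σ / 6 by simp; positivity) θ
      change ‖arc 𝕜 p' q' 0 θ - _‖ ≤ _ at hcl
      have hu'' : ‖ζ' • x' - arc 𝕜 p' q' 0 θ‖ ≤ σ := by
        rw [arc, add_zero]; exact hu'
      have hnear : near 𝕜 (5 * σ) x' (arc 𝕜 (w 3) (w 4) 0 θ) := by
        refine ⟨ζ', hζ', ?_⟩
        have e : ζ' • x' - arc 𝕜 (w 3) (w 4) 0 θ = (ζ' • x' - arc 𝕜 p' q' 0 θ) +
            (arc 𝕜 p' q' 0 θ - arc 𝕜 (w 3) (w 4) 0 θ) := by abel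
        rw [e]
        refine le_trans (norm_add_le _ _) ?_
        nlinarith
      have hx'z : x' = z w j := by
        refine honly x' hx'.1 ?_
        simp only [hA, At, Finset.mem_filter]
        exact ⟨hΩ hx'.1, Or.inr hnear⟩
      refine ⟨ζ' * ζ⁻¹, by simp [hζ, hζ'], ?_⟩
      rw [hx'z, smul_smul, mul_assoc, inv_mul_cancel₀ hζ0, mul_one]

end P06184b
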