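import Pool.Agent.Lib.P06184b.Rigid
import Pool.Agent.Lib.P06184b.Exist

/-!
# Critical exponents; the minimal critical exponent is at most four
-/

open scoped InnerProductSpace

namespace P06184b

section Defs

variable {𝕜 : Type*} [RCLike 𝕜] [NormedAlgebra 𝕜 ℂ]
variable {E : Type*} [NormedAddCommGroup E] [NormedSpace 𝕜 E] [FiniteDimensional 𝕜 E]

/-- `T` is stable: all its complex eigenvalues (the complex roots of its characteristic
polynomial) have modulus less than one. -/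
def Stable (T : E →L[𝕜] E) : Prop :=
  ∀ z ∈ (T : E →ₗ[𝕜] E).charpoly.aroots ℂ, ‖z‖ < 1

/-- `m(T)`: the least `m ≥ 1` with `‖T ^ m‖ < 1` (`⊤` if there is none). -/
noncomputable def leastPow (T : E →L[𝕜] E) : ℕ∞ :=
  sInf {m : ℕ∞ | ∃ k : ℕ, 1 ≤ k ∧ ‖T ^ k‖ < 1 ∧ m = k}

variable (𝕜 E) in
/-- The critical exponent `q(E)`: supremum of `m(T)` over the stable contractions of `E`. -/
noncomputable def critExp : ℕ∞ :=
  ⨆ (T : E →L[𝕜] E) (_ : ‖T‖ ≤ 1) (_ : Stable T), leastPow T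

variable (𝕜) in
/-- The minimal critical exponent `M(n)` of the `n`-dimensional normed spaces. -/
noncomputable def minCrit (n : ℕ) : ℕ∞ :=
  sInf {q : ℕ∞ | ∃ (E : Type) (_ : NormedAddCommGroup E) (_ : NormedSpace 𝕜 E)
    (_ : FiniteDimensional 𝕜 E), Module.finrank 𝕜 E = n ∧ critExp 𝕜 E = q}

end Defs

section

variable {𝕜 : Type} [RCLike 𝕜] [NormedAlgebra 𝕜 ℂ]

/-- If `p(T) y = 0` with `y ≠ 0` then `p` has a complex root which is an eigenvalue of `T`. -/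
theorem exists_root {E : Type*} [AddCommGroup E] [Module 𝕜 E] [FiniteDimensional 𝕜 E]
    (T : E →ₗ[𝕜] E) (hT : ∀ z ∈ T.charpoly.aroots ℂ, ‖z‖ < 1) (p : Polynomial 𝕜) {y : E}
    (hy : y ≠ 0) (h : Polynomial.aeval T p y = 0) :
    ∃ a : ℂ, ‖a‖ < 1 ∧ Polynomial.aeval a p = 0 := by
  by_contra hcon
  push Not at hcon
  have hcop : IsCoprime p T.charpoly := by
    refine (Polynomial.isCoprime_iff_aeval_ne_zero_of_isAlgClosed 𝕜 ℂ p T.charpoly).2 ?_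
    intro a
    by_cases ha : Polynomial.aeval a T.charpoly = 0
    · left
      refine hcon a (hT a ?_)
      rw [Polynomial.mem_aroots]
      exact ⟨T.charpoly_monic.ne_zero, ha⟩
    · right; exact ha
  obtain ⟨s, t, hst⟩ := hcop
  apply hy
  have h1 := congrArg (fun q => Polynomial.aeval T q y) hst
  simp only [map_add, map_mul, LinearMap.aeval_self_charpoly, mul_zero, add_zero, map_one,
    Module.End.one_apply, Module.End.mul_apply, h, map_zero] at h1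
  exact h1.symm

variable {V : Type*} [NormedAddCommGroup V] [InnerProductSpace 𝕜 V] [FiniteDimensional 𝕜 V]

omit [NormedAlgebra 𝕜 ℂ] in
theorem ker_adj {S₁ S₂ : V →ₗ[𝕜] V} (h : ∀ x y, ⟪S₁ x, y⟫_𝕜 = ⟪x, S₂ y⟫_𝕜) {x : V} (hx : x ≠ 0)
    (hx0 : S₁ x = 0) : ∃ y, y ≠ 0 ∧ S₂ y = 0 := by
  by_contra hcon
  push Not at hcon
  have hinj : Function.Injective S₂ := by
    rw [injective_iff_map_eq_zero]
    intro y hy
    by_contra h0
    exact hcon y h0 hy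
  have hsur := LinearMap.injective_iff_surjective.1 hinj
  obtain ⟨y, hy⟩ := hsur x
  apply hx
  rw [← inner_self_eq_zero (𝕜 := 𝕜)]
  conv_lhs => rw [← hy]
  rw [hy, show ⟪x, x⟫_𝕜 = ⟪x, S₂ y⟫_𝕜 by rw [hy], ← h, hx0, inner_zero_left]

theorem noUni_of_stable {E : Type*} [NormedAddCommGroup E] [NormedSpace 𝕜 E]
    [FiniteDimensional 𝕜 E] (φ : E ≃ₗ[𝕜] V) (T : E →L[𝕜] E) (hT : Stable T)
    (T₀ A : V →L[𝕜] V) (hT₀ : ∀ x, T₀ (φ x) = φ (T x))
    (hadj : ∀ x y, ⟪A x, y⟫_𝕜 = ⟪x, T₀ y⟫_𝕜) : NoUni 𝕜 T₀ A := by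
  have hT₀' : ∀ x, T₀ x = φ (T (φ.symm x)) := by
    intro x
    rw [← hT₀, φ.apply_symm_apply]
  have e1 : ∀ (x : V) (ζ : 𝕜), ‖ζ‖ = 1 → T₀ x = ζ • x → x = 0 := by
    intro x ζ hζ hx
    by_contra h0
    have hy0 : φ.symm x ≠ 0 := by simpa using h0
    obtain ⟨a, ha, ha2⟩ := exists_root (T : E →ₗ[𝕜] E) hT
      (Polynomial.X - Polynomial.C ζ) hy0 (by
        simp only [map_sub, Polynomial.aeval_X, Polynomial.aeval_C, LinearMap.sub_apply,
          Module.algebraMap_end_apply, ContinuousLinearMap.coe_coe]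
        rw [hT₀'] at hx
        rw [sub_eq_zero]
        apply φ.injective
        rw [hx, map_smul, φ.apply_symm_apply])
    simp only [map_sub, Polynomial.aeval_X, Polynomial.aeval_C, sub_eq_zero] at ha2
    rw [ha2, norm_algebraMap', hζ] at ha
    exact lt_irrefl _ ha
  have e2 : ∀ (x : V) (ζ : 𝕜), ‖ζ‖ = 1 → T₀ (T₀ x) = ζ • x → x = 0 := by
    intro x ζ hζ hx
    by_contra h0
    have hy0 : φ.symm x ≠ 0 := by simpa using h0
    obtain ⟨a, ha, ha2⟩ := exists_root (T : E →ₗ[𝕜] E) hT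
      (Polynomial.X ^ 2 - Polynomial.C ζ) hy0 (by
        simp only [map_sub, map_mul, Polynomial.aeval_X, Polynomial.aeval_C, LinearMap.sub_apply,
          Module.algebraMap_end_apply, pow_two, Module.End.mul_apply,
          ContinuousLinearMap.coe_coe]
        rw [hT₀', hT₀', φ.symm_apply_apply] at hx
        rw [sub_eq_zero]
        apply φ.injective
        rw [hx, map_smul, φ.apply_symm_apply])
    simp only [map_sub, map_pow, Polynomial.aeval_X, Polynomial.aeval_C, sub_eq_zero] at ha2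
    have h3 : ‖a‖ ^ 2 = 1 := by rw [← norm_pow, ha2, norm_algebraMap', hζ]
    nlinarith [norm_nonneg a]
  refine ⟨e1, ?_, ?_⟩
  · intro x ζ hζ hx
    by_contra h0
    obtain ⟨y, hy, hy2⟩ := ker_adj (𝕜 := 𝕜)
      (S₁ := (A : V →ₗ[𝕜] V) - ζ • LinearMap.id)
      (S₂ := (T₀ : V →ₗ[𝕜] V) - (starRingEnd 𝕜 ζ) • LinearMap.id) (by
        intro x y
        simp [inner_sub_left, inner_sub_right, inner_smul_left, inner_smul_right, hadj]) h0
      (by simp [hx])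
    apply hy
    refine e1 y (starRingEnd 𝕜 ζ) (by simpa using hζ) ?_
    simpa [sub_eq_zero] using hy2
  · intro x ζ hζ hx
    by_contra h0
    obtain ⟨y, hy, hy2⟩ := ker_adj (𝕜 := 𝕜)
      (S₁ := (A : V →ₗ[𝕜] V) ∘ₗ (A : V →ₗ[𝕜] V) - ζ • LinearMap.id)
      (S₂ := (T₀ : V →ₗ[𝕜] V) ∘ₗ (T₀ : V →ₗ[𝕜] V) - (starRingEnd 𝕜 ζ) • LinearMap.id) (by
        intro x y
        simp [inner_sub_left, inner_sub_right, inner_smul_left, inner_smul_right, hadj]) h0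
      (by simp [hx])
    apply hy
    refine e2 y (starRingEnd 𝕜 ζ) (by simpa using hζ) ?_
    simpa [sub_eq_zero] using hy2

/-- In a space with the spiky norm every stable contraction has a fourth power of norm `< 1`. -/
theorem pow_four_lt {E : Type*} [NormedAddCommGroup E] [NormedSpace 𝕜 E]
    [FiniteDimensional 𝕜 E] {U : Set V} {c σ : ℝ} (S : Setup 𝕜 U c σ)
    (hA : Arcs 𝕜 U σ (1 / 100000)) (φ : E ≃ₗ[𝕜] V)
    (hN1 : ∀ x : E, ∀ f ∈ Dual 𝕜 U c, ‖⟪f, φ x⟫_𝕜‖ ≤ ‖x‖)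
    (hN2 : ∀ x : E, ∃ f ∈ Dual 𝕜 U c, ⟪f, φ x⟫_𝕜 = (‖x‖ : 𝕜))
    (T : E →L[𝕜] E) (hT1 : ‖T‖ ≤ 1) (hT : Stable T) : ‖T ^ 4‖ < 1 := by
  have : CompleteSpace V := FiniteDimensional.complete 𝕜 V
  have : ProperSpace E := FiniteDimensional.proper 𝕜 E
  set T₀ : V →L[𝕜] V :=
    LinearMap.toContinuousLinearMap (φ.toLinearMap ∘ₗ (T : E →ₗ[𝕜] E) ∘ₗ φ.symm.toLinearMap)
    with hT₀def
  have hT₀' : ∀ x, T₀ x = φ (T (φ.symm x)) := fun x => rfl
  have hT₀ : ∀ x, T₀ (φ x) = φ (T x) := by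
    intro x; rw [hT₀', φ.symm_apply_apply]
  set A : V →L[𝕜] V := ContinuousLinearMap.adjoint T₀ with hAdef
  have hadj : ∀ x y, ⟪A x, y⟫_𝕜 = ⟪x, T₀ y⟫_𝕜 := fun x y =>
    ContinuousLinearMap.adjoint_inner_left T₀ y x
  have hTc : ∀ x, ‖T x‖ ≤ ‖x‖ := fun x => by
    have := T.le_of_opNorm_le hT1 x; simpa using this
  have hnle : ∀ y : V, ‖φ.symm y‖ ≤ ‖y‖ := by
    intro y
    obtain ⟨f, hf, he⟩ := hN2 (φ.symm y)
    rw [φ.apply_symm_apply] at he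
    have h1 := norm_inner_le_norm (𝕜 := 𝕜) f y
    rw [he, RCLike.norm_ofReal, abs_of_nonneg (norm_nonneg _)] at h1
    nlinarith [hf.1, norm_nonneg y, norm_nonneg f]
  have hpair : ∀ f ∈ Dual 𝕜 U c, ∀ y : V, ‖⟪f, T₀ y⟫_𝕜‖ ≤ ‖φ.symm y‖ := by
    intro f hf y
    rw [hT₀']
    exact (hN1 _ f hf).trans (hTc _)
  have C : Contr 𝕜 U c T₀ A := by
    refine ⟨hadj, fun f hf => ⟨?_, ?_⟩⟩
    · have h1 : ‖A f‖ ^ 2 ≤ ‖A f‖ := by
        have h2 := (hpair f hf (A f)).trans (hnle (A f))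
        rw [← hadj, inner_self_eq_norm_sq_to_K, norm_pow, RCLike.norm_ofReal,
          abs_of_nonneg (norm_nonneg _)] at h2
        exact h2
      by_contra hcon
      push Not at hcon
      nlinarith
    · intro u hu
      have h1 := hpair f hf u
      rw [← hadj, norm_inner_symm] at h1
      refine h1.trans ?_
      obtain ⟨f', hf', he⟩ := hN2 (φ.symm u)
      rw [φ.apply_symm_apply] at he
      have h2 := hf'.2 u hu
      rw [norm_inner_symm, he, RCLike.norm_ofReal, abs_of_nonneg (norm_nonneg _)] at h2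
      exact h2
  have N : NoUni 𝕜 T₀ A := noUni_of_stable φ T hT T₀ A hT₀ hadj
  have R : Rigid 𝕜 T₀ A := rigid S C hA
  by_contra hcon
  push Not at hcon
  obtain ⟨x₀, hx₀, hmax⟩ := (isCompact_closedBall (0 : E) 1).exists_isMaxOn ⟨0, by simp⟩
    (f := fun x => ‖(T ^ 4) x‖) (by fun_prop)
  rw [mem_closedBall_zero_iff] at hx₀
  have hK : ‖T ^ 4‖ ≤ ‖(T ^ 4) x₀‖ := by
    refine (T ^ 4).opNorm_le_bound (norm_nonneg _) ?_
    intro x
    by_cases hx : x = 0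
    · rw [hx]; simp
    have hxn : 0 < ‖x‖ := norm_pos_iff.2 hx
    have h1 : ‖(T ^ 4) (((‖x‖⁻¹ : ℝ) : 𝕜) • x)‖ ≤ ‖(T ^ 4) x₀‖ := by
      refine hmax ?_
      rw [mem_closedBall_zero_iff, norm_smul, RCLike.norm_ofReal, abs_of_pos (by positivity),
        inv_mul_cancel₀ hxn.ne']
    rw [map_smul, norm_smul, RCLike.norm_ofReal, abs_of_pos (by positivity), inv_mul_eq_div,
      div_le_iff₀ hxn] at h1
    exact h1
  have hle4 : ‖(T ^ 4) x₀‖ ≤ 1 := by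
    have e : (T ^ 4) x₀ = T (T (T (T x₀))) := rfl
    rw [e]
    exact (hTc _).trans ((hTc _).trans ((hTc _).trans ((hTc _).trans hx₀)))
  have h1 : ‖(T ^ 4) x₀‖ = 1 := le_antisymm hle4 (hcon.trans hK)
  obtain ⟨f₄, hf₄, he⟩ := hN2 ((T ^ 4) x₀)
  rw [h1, RCLike.ofReal_one] at he
  refine C.no_four S N R hf₄ (x₀ := φ x₀) (fun f hf => (hN1 x₀ f hf).trans hx₀) ?_
  rw [hT₀, hT₀, hT₀, hT₀]
  exact he

end

/-! ### The space -/

/-- The type of the vectors of the spiky space. -/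
def Sp (_𝕜 : Type) {V : Type} (_U : Set V) (_c : ℝ) : Type := V

section Space

variable {𝕜 V : Type} [RCLike 𝕜] [NormedAddCommGroup V] [InnerProductSpace 𝕜 V]
variable {U : Set V} {c σ : ℝ}

instance : AddCommGroup (Sp 𝕜 U c) := inferInstanceAs (AddCommGroup V)

instance : Module 𝕜 (Sp 𝕜 U c) := inferInstanceAs (Module 𝕜 V)

variable (𝕜 U c) in
/-- The identity map. -/
def toV : Sp 𝕜 U c ≃ₗ[𝕜] V := LinearEquiv.refl 𝕜 V

/-- The spiky norm. -/
noncomputable instance : Norm (Sp 𝕜 U c) :=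
  ⟨fun x => ⨆ f : Dual 𝕜 U c, ‖⟪(f : V), toV 𝕜 U c x⟫_𝕜‖⟩

theorem sp_norm_def (x : Sp 𝕜 U c) : ‖x‖ = ⨆ f : Dual 𝕜 U c, ‖⟪(f : V), toV 𝕜 U c x⟫_𝕜‖ := rfl

theorem sp_bdd (x : Sp 𝕜 U c) :
    BddAbove (Set.range fun f : Dual 𝕜 U c => ‖⟪(f : V), toV 𝕜 U c x⟫_𝕜‖) := by
  refine ⟨‖toV 𝕜 U c x‖, ?_⟩
  rintro _ ⟨f, rfl⟩
  refine (norm_inner_le_norm _ _).trans ?_
  have := f.2.1
  nlinarith [norm_nonneg (toV 𝕜 U c x)]

theorem sp_le (x : Sp 𝕜 U c) {f : V} (hf : f ∈ Dual 𝕜 U c) : ‖⟪f, toV 𝕜 U c x⟫_𝕜‖ ≤ ‖x‖ :=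
  le_ciSup (sp_bdd x) ⟨f, hf⟩

theorem zero_mem_dual (hc : 0 ≤ c) : (0 : V) ∈ Dual 𝕜 U c :=
  ⟨by simp, fun u _ => by simpa using hc⟩

theorem Setup.core_space (S : Setup 𝕜 U c σ) : NormedSpace.Core 𝕜 (Sp 𝕜 U c) := by
  have hne : Nonempty (Dual 𝕜 U c) := ⟨⟨0, zero_mem_dual S.hc.le⟩⟩
  have hnn : ∀ x : Sp 𝕜 U c, 0 ≤ ‖x‖ := fun x => Real.iSup_nonneg fun f => norm_nonneg _
  refine { norm_nonneg := hnn, norm_smul := ?_, norm_triangle := ?_, norm_eq_zero_iff := ?_ }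
  · intro a x
    rw [sp_norm_def, sp_norm_def, Real.mul_iSup_of_nonneg (norm_nonneg a)]
    congr 1
    funext f
    rw [map_smul, inner_smul_right, norm_mul]
  · intro x y
    rw [sp_norm_def]
    refine ciSup_le fun f => ?_
    rw [map_add, inner_add_right]
    exact (norm_add_le _ _).trans (add_le_add (sp_le x f.2) (sp_le y f.2))
  · intro x
    constructor
    · intro h
      by_contra h0
      have hx0 : toV 𝕜 U c x ≠ 0 := by simpa using h0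
      set v := toV 𝕜 U c x with hv
      have hn : 0 < ‖v‖ := norm_pos_iff.2 hx0
      have hc := S.hc
      have hmem : ((c * ‖v‖⁻¹ : ℝ) : 𝕜) • v ∈ Dual 𝕜 U c := by
        have hn1 : ‖((c * ‖v‖⁻¹ : ℝ) : 𝕜) • v‖ = c := by
          rw [norm_smul, RCLike.norm_ofReal, abs_of_pos (by positivity), mul_assoc,
            inv_mul_cancel₀ hn.ne', mul_one]
        refine ⟨hn1.le.trans S.hc1.le, fun u hu => ?_⟩
        refine (norm_inner_le_norm _ _).trans ?_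
        rw [hn1, S.sp.unit u hu, one_mul]
      have h1 := sp_le x hmem
      rw [h, ← hv, inner_smul_left, inner_self_eq_norm_sq_to_K, norm_mul, RCLike.norm_conj,
        RCLike.norm_ofReal, norm_pow, RCLike.norm_ofReal, abs_of_pos hn,
        abs_of_pos (by positivity)] at h1
      have : 0 < c * ‖v‖⁻¹ * ‖v‖ ^ 2 := by positivity
      linarith
    · rintro rfl
      rw [sp_norm_def]
      simp

theorem isClosed_dual : IsClosed (Dual 𝕜 U c) := by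
  have e : Dual 𝕜 U c = {f : V | ‖f‖ ≤ 1} ∩ ⋂ u ∈ U, {f : V | ‖⟪u, f⟫_𝕜‖ ≤ c} := by
    ext f; simp [Dual]
  rw [e]
  refine (isClosed_le continuous_norm continuous_const).inter
    (isClosed_biInter fun u _ => isClosed_le (by fun_prop) continuous_const)

theorem exists_norming [FiniteDimensional 𝕜 V] (hc : 0 ≤ c) (x : Sp 𝕜 U c) :
    ∃ f ∈ Dual 𝕜 U c, ⟪f, toV 𝕜 U c x⟫_𝕜 = (‖x‖ : 𝕜) := by
  have : ProperSpace V := FiniteDimensional.proper_rclike 𝕜 V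
  have hcomp : IsCompact (Dual 𝕜 U c) := by
    refine Metric.isCompact_of_isClosed_isBounded isClosed_dual ?_
    refine (Metric.isBounded_closedBall (x := (0 : V)) (r := 1)).subset fun f hf => ?_
    rw [mem_closedBall_zero_iff]; exact hf.1
  obtain ⟨f, hf, hmax⟩ := hcomp.exists_isMaxOn ⟨0, zero_mem_dual hc⟩
    (f := fun f => ‖⟪f, toV 𝕜 U c x⟫_𝕜‖) (by fun_prop)
  have hne : Nonempty (Dual 𝕜 U c) := ⟨⟨0, zero_mem_dual hc⟩⟩
  have hn : ‖x‖ = ‖⟪f, toV 𝕜 U c x⟫_𝕜‖ :=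
    le_antisymm (ciSup_le fun g => hmax g.2) (sp_le x hf)
  obtain ⟨ζ, hζ, he⟩ := exists_phase (𝕜 := 𝕜) f (toV 𝕜 U c x)
  refine ⟨ζ • f, ⟨?_, fun u hu => ?_⟩, ?_⟩
  · rw [norm_smul, hζ, one_mul]; exact hf.1
  · rw [inner_smul_right, norm_mul, hζ, one_mul]; exact hf.2 u hu
  · rw [he, ← hn]

end Space

section Main

variable {𝕜 : Type} [RCLike 𝕜] [NormedAlgebra 𝕜 ℂ]

theorem critExp_le_four {E : Type} [NormedAddCommGroup E] [NormedSpace 𝕜 E]
    [FiniteDimensional 𝕜 E] (h : ∀ T : E →L[𝕜] E, ‖T‖ ≤ 1 → Stable T → ‖T ^ 4‖ < 1) :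
    critExp 𝕜 E ≤ 4 := by
  refine iSup_le fun T => iSup_le fun h1 => iSup_le fun h2 => ?_
  exact sInf_le ⟨4, by norm_num, h T h1 h2, by norm_num⟩

theorem minCrit_le_four (n : ℕ) : minCrit 𝕜 n ≤ 4 := by
  obtain ⟨σ, U, hσ, hσ1, hU, hA⟩ := exists_spikes_real (𝕜 := 𝕜)
    (V := EuclideanSpace 𝕜 (Fin n)) (1 / 100000) (by norm_num) (by norm_num)
  have S : Setup 𝕜 U (√(1 - σ ^ 2)) σ :=
    { hc := Real.sqrt_pos.2 (by nlinarith)
      hσ := hσ
      hσ1 := hσ1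
      h := by rw [Real.sq_sqrt (by nlinarith)]; ring
      sp := hU }
  have core := S.core_space
  let i1 : NormedAddCommGroup (Sp 𝕜 U (√(1 - σ ^ 2))) := NormedAddCommGroup.ofCore core
  let i2 : NormedSpace 𝕜 (Sp 𝕜 U (√(1 - σ ^ 2))) := NormedSpace.ofCore core
  have i3 : FiniteDimensional 𝕜 (Sp 𝕜 U (√(1 - σ ^ 2))) :=
    (toV 𝕜 U (√(1 - σ ^ 2))).symm.finiteDimensional
  have hrank : Module.finrank 𝕜 (Sp 𝕜 U (√(1 - σ ^ 2))) = n := by
    rw [(toV 𝕜 U (√(1 - σ ^ 2))).finrank_eq, finrank_euclideanSpace_fin]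
  have hcrit : critExp 𝕜 (Sp 𝕜 U (√(1 - σ ^ 2))) ≤ 4 := by
    refine critExp_le_four fun T h1 h2 => ?_
    exact pow_four_lt S hA (toV 𝕜 U (√(1 - σ ^ 2))) (fun x f hf => sp_le x hf)
      (fun x => exists_norming S.hc.le x) T h1 h2
  exact (sInf_le ⟨_, i1, i2, i3, hrank, rfl⟩ : minCrit 𝕜 n ≤ _).trans hcrit

theorem two_le_critExp {E : Type} [NormedAddCommGroup E] [NormedSpace 𝕜 E]
    [FiniteDimensional 𝕜 E] (h : 2 ≤ Module.finrank 𝕜 E) : 2 ≤ critExp 𝕜 E := by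
  have hnt : Nontrivial E := Module.nontrivial_of_finrank_pos (R := 𝕜) (by omega)
  obtain ⟨x, hx⟩ := exists_ne (0 : E)
  obtain ⟨f, hf, -⟩ := exists_dual_vector 𝕜 x (norm_ne_zero_iff.2 hx)
  have hker : LinearMap.ker (f : E →ₗ[𝕜] 𝕜) ≠ ⊥ := by
    intro h0
    have h1 := LinearMap.finrank_range_add_finrank_ker (f : E →ₗ[𝕜] 𝕜)
    rw [h0, finrank_bot, add_zero] at h1
    have h2 := Submodule.finrank_le (LinearMap.range (f : E →ₗ[𝕜] 𝕜))
    rw [Module.finrank_self] at h2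
    omega
  obtain ⟨y, hy, hy0⟩ := Submodule.exists_mem_ne_zero_of_ne_bot hker
  have hyn : 0 < ‖y‖ := norm_pos_iff.2 hy0
  set z : E := ((‖y‖⁻¹ : ℝ) : 𝕜) • y with hz
  have hzn : ‖z‖ = 1 := by
    rw [hz, norm_smul, RCLike.norm_ofReal, abs_of_pos (by positivity), inv_mul_cancel₀ hyn.ne']
  have hfz : f z = 0 := by
    rw [hz, map_smul]
    have : f y = 0 := hy
    rw [this, smul_zero]
  set T : E →L[𝕜] E := f.smulRight z with hT
  have hTn : ‖T‖ = 1 := by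
    rw [hT, ContinuousLinearMap.norm_smulRight_apply, hf, hzn, one_mul]
  have hTT : (T : E →ₗ[𝕜] E) ^ 2 = 0 := by
    ext w
    rw [pow_two]
    simp [hT, hfz]
  have hst : Stable T := by
    have h1 : IsNilpotent (T : E →ₗ[𝕜] E) := ⟨2, hTT⟩
    intro z hz
    rw [h1.charpoly_eq_X_pow_finrank, Polynomial.mem_aroots, map_pow, Polynomial.aeval_X] at hz
    rw [eq_zero_of_pow_eq_zero hz.2, norm_zero]
    exact zero_lt_one
  have h3 : (2 : ℕ∞) ≤ leastPow T := by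
    refine le_sInf ?_
    rintro m ⟨k, hk1, hk2, rfl⟩
    have : k ≠ 1 := by
      rintro rfl
      rw [pow_one, hTn] at hk2
      exact lt_irrefl _ hk2
    have h4 : 2 ≤ k := by omega
    exact_mod_cast h4
  refine h3.trans ?_
  exact le_iSup_of_le T (le_iSup_of_le hTn.le (le_iSup_of_le hst le_rfl))

theorem two_le_minCrit {n : ℕ} (hn : 2 ≤ n) : 2 ≤ minCrit 𝕜 n := by
  refine le_sInf ?_
  rintro q ⟨E, i1, i2, i3, hrank, rfl⟩
  exact two_le_critExp (by omega)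

end Main

end P06184b
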