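import Pool.Agent.Lib.P06184b.Defs

/-!
# The spiky unit ball: dual body, representation, faces
-/

open scoped InnerProductSpace

namespace P06184b

variable {𝕜 V : Type*} [RCLike 𝕜] [NormedAddCommGroup V] [InnerProductSpace 𝕜 V]

variable (𝕜) in
/-- The standing hypotheses on the parameters and the spike system. -/
structure Setup (U : Set V) (c σ : ℝ) : Prop where
  hc : 0 < c
  hσ : 0 < σ
  hσ1 : σ ≤ 1 / 100
  h : c ^ 2 + σ ^ 2 = 1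
  sp : Spikes 𝕜 U σ

variable (𝕜) in
/-- The dual body. -/
def Dual (U : Set V) (c : ℝ) : Set V := {f | ‖f‖ ≤ 1 ∧ ∀ u ∈ U, ‖⟪u, f⟫_𝕜‖ ≤ c}

variable (𝕜) in
/-- The spiky unit ball (the polar of the dual body). -/
def SBall (U : Set V) (c : ℝ) : Set V := {x | ∀ f ∈ Dual 𝕜 U c, ‖⟪f, x⟫_𝕜‖ ≤ 1}

theorem exists_phase (w z : V) : ∃ ζ : 𝕜, ‖ζ‖ = 1 ∧ ⟪ζ • w, z⟫_𝕜 = (‖⟪w, z⟫_𝕜‖ : 𝕜) := by
  obtain ⟨c, hc, h⟩ := RCLike.exists_norm_eq_mul_self (⟪w, z⟫_𝕜)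
  refine ⟨(starRingEnd 𝕜) c, by simpa using hc, ?_⟩
  rw [inner_smul_left, h]
  simp

namespace Setup

variable {U : Set V} {c σ : ℝ}

theorem hc1 (S : Setup 𝕜 U c σ) : c < 1 := by
  have := S.h; have := S.hσ; have := S.hc; nlinarith

theorem one_sub_c (S : Setup 𝕜 U c σ) : 1 - c ≤ σ ^ 2 := by
  have := S.h; have := S.hσ; have := S.hc; have := S.hc1; nlinarith

/-- Two unit-like vectors close to a common vector are close. -/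
theorem close (S : Setup 𝕜 U c σ) {w w' z : V} (h : ‖w - z‖ ^ 2 ≤ 2 - 2 * c)
    (h' : ‖w' - z‖ ^ 2 ≤ 2 - 2 * c) : ‖w - w'‖ < 4 * σ := by
  have h1 := S.one_sub_c
  have hσ := S.hσ
  have a1 : ‖w - z‖ ≤ 3 / 2 * σ := by
    apply abs_le_of_sq_le_sq' _ (by positivity) |>.2
    nlinarith
  have a2 : ‖w' - z‖ ≤ 3 / 2 * σ := by
    apply abs_le_of_sq_le_sq' _ (by positivity) |>.2
    nlinarith
  calc ‖w - w'‖ = ‖(w - z) - (w' - z)‖ := by congr 1; abel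
    _ ≤ ‖w - z‖ + ‖w' - z‖ := norm_sub_le _ _
    _ ≤ 3 / 2 * σ + 3 / 2 * σ := add_le_add a1 a2
    _ < 4 * σ := by linarith

/-- Vectors in the closed cones of two spikes: the spikes are in the same class. -/
theorem same (S : Setup 𝕜 U c σ) {u u' z : V} (hu : u ∈ U) (hu' : u' ∈ U) (hz : z ≠ 0)
    (h : c * ‖z‖ ≤ ‖⟪u, z⟫_𝕜‖) (h' : c * ‖z‖ ≤ ‖⟪u', z⟫_𝕜‖) :
    ∃ ζ : 𝕜, ‖ζ‖ = 1 ∧ u' = ζ • u := by
  have hz0 : 0 < ‖z‖ := norm_pos_iff.2 hz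
  obtain ⟨ζ, hζ, e⟩ := exists_phase (𝕜 := 𝕜) u z
  obtain ⟨ζ', hζ', e'⟩ := exists_phase (𝕜 := 𝕜) u' z
  have key : ∀ (v : V) (η : 𝕜), v ∈ U → ‖η‖ = 1 → ⟪η • v, z⟫_𝕜 = (‖⟪v, z⟫_𝕜‖ : 𝕜) →
      c * ‖z‖ ≤ ‖⟪v, z⟫_𝕜‖ → ‖η • v - ((‖z‖⁻¹ : ℝ) : 𝕜) • z‖ ^ 2 ≤ 2 - 2 * c := by
    intro v η hv hη e hh
    rw [@norm_sub_sq 𝕜, inner_smul_right, e, norm_smul, norm_smul, hη, S.sp.unit v hv]
    have h1 : RCLike.re (((‖z‖⁻¹ : ℝ) : 𝕜) * (‖⟪v, z⟫_𝕜‖ : 𝕜)) = ‖z‖⁻¹ * ‖⟪v, z⟫_𝕜‖ := by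
      rw [← RCLike.ofReal_mul, RCLike.ofReal_re]
    have h2 : ‖((‖z‖⁻¹ : ℝ) : 𝕜)‖ * ‖z‖ = 1 := by
      rw [RCLike.norm_ofReal, abs_of_pos (by positivity)]
      field_simp
    rw [h1, h2]
    have h3 : c ≤ ‖z‖⁻¹ * ‖⟪v, z⟫_𝕜‖ := by
      rw [inv_mul_eq_div, le_div_iff₀ hz0]; exact hh
    linarith
  have d := S.close (key u ζ hu hζ e h) (key u' ζ' hu' hζ' e' h')
  obtain ⟨ξ, hξ, e3⟩ := S.sp.sep _ (S.sp.smul u hu ζ hζ) _ (S.sp.smul u' hu' ζ' hζ') d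
  have hζ'0 : ζ' ≠ 0 := by rintro rfl; simp at hζ'
  refine ⟨ζ'⁻¹ * (ξ * ζ), by simp [hζ', hξ, hζ], ?_⟩
  rw [mul_smul, mul_smul, ← e3, smul_smul, inv_mul_cancel₀ hζ'0, one_smul]

/-- If moreover the inner products are equal and nonzero the spikes are equal. -/
theorem same_eq (S : Setup 𝕜 U c σ) {u u' z : V} (hu : u ∈ U) (hu' : u' ∈ U) (hz : z ≠ 0)
    (h : c * ‖z‖ ≤ ‖⟪u, z⟫_𝕜‖) (h' : ⟪u', z⟫_𝕜 = ⟪u, z⟫_𝕜) : u' = u := by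
  obtain ⟨ζ, hζ, rfl⟩ := S.same hu hu' hz h (by rw [h']; exact h)
  rw [inner_smul_left] at h'
  have h0 : ⟪u, z⟫_𝕜 ≠ 0 := by
    have : 0 < c * ‖z‖ := mul_pos S.hc (norm_pos_iff.2 hz)
    intro h0; rw [h0, norm_zero] at h; linarith
  have h1 : (starRingEnd 𝕜) ζ = 1 := by
    have : (starRingEnd 𝕜) ζ * ⟪u, z⟫_𝕜 = 1 * ⟪u, z⟫_𝕜 := by rw [h', one_mul]
    exact mul_right_cancel₀ h0 this
  have h2 : ζ = 1 := by
    have := congrArg (starRingEnd 𝕜) h1; simpa using this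
  rw [h2, one_smul]

theorem inner_self_U (S : Setup 𝕜 U c σ) {u : V} (hu : u ∈ U) : ⟪u, u⟫_𝕜 = 1 := by
  rw [inner_self_eq_norm_sq_to_K, S.sp.unit u hu]; simp

theorem norm_sq_comb (a b : ℝ) {u t : V} (hu : ‖u‖ = 1) (h : ⟪u, t⟫_𝕜 = 0) :
    ‖(a : 𝕜) • u + (b : 𝕜) • t‖ ^ 2 = a ^ 2 + b ^ 2 * ‖t‖ ^ 2 := by
  rw [@norm_add_sq 𝕜, inner_smul_left, inner_smul_right, h, norm_smul, norm_smul, hu]
  simp [mul_pow]

/-- The caps of the dual body. -/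
theorem cap_mem (S : Setup 𝕜 U c σ) {u t : V} (hu : u ∈ U) (ht : ⟪u, t⟫_𝕜 = 0) (ht1 : ‖t‖ ≤ 1) :
    (c : 𝕜) • u + (σ : 𝕜) • t ∈ Dual 𝕜 U c := by
  set g := (c : 𝕜) • u + (σ : 𝕜) • t with hg
  have hun := S.sp.unit u hu
  have hc := S.hc
  have hσ := S.hσ
  have hh := S.h
  have ht2 : ‖t‖ ^ 2 ≤ 1 := by nlinarith [norm_nonneg t]
  have hgn : ‖g‖ ^ 2 = c ^ 2 + σ ^ 2 * ‖t‖ ^ 2 := norm_sq_comb c σ hun ht
  have hg1 : ‖g‖ ^ 2 ≤ 1 := by nlinarith [sq_nonneg σ]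
  have hug : ⟪u, g⟫_𝕜 = (c : 𝕜) := by
    rw [hg, inner_add_right, inner_smul_right, inner_smul_right, ht, S.inner_self_U hu]; simp
  refine ⟨by nlinarith [norm_nonneg g], ?_⟩
  intro u' hu'
  by_contra hcon
  push Not at hcon
  obtain ⟨ζ, hζ, e⟩ := exists_phase (𝕜 := 𝕜) u' g
  have h1 : ‖ζ • u' - g‖ ^ 2 ≤ 2 - 2 * c := by
    rw [@norm_sub_sq 𝕜, e, norm_smul, hζ, S.sp.unit u' hu', RCLike.ofReal_re]
    linarith
  have h2 : ‖u - g‖ ^ 2 ≤ 2 - 2 * c := by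
    rw [@norm_sub_sq 𝕜, hug, hun, RCLike.ofReal_re]
    linarith
  have d := S.close h2 h1
  obtain ⟨ξ, hξ, e3⟩ := S.sp.sep _ hu _ (S.sp.smul u' hu' ζ hζ) d
  have : ‖⟪ζ • u', g⟫_𝕜‖ = c := by
    rw [e3, inner_smul_left, hug]
    simp [hξ, abs_of_pos hc]
  rw [e] at this
  simp at this
  linarith

end Setup

namespace Setup

variable {U : Set V} {c σ : ℝ}

/-- A point of the spiky ball outside of the Euclidean ball lies under a spike. -/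
theorem core (S : Setup 𝕜 U c σ) {x : V} (hx : x ∈ SBall 𝕜 U c) (h1 : 1 < ‖x‖) :
    ∃ u ∈ U, ∃ α : ℝ, ⟪u, x⟫_𝕜 = (α : 𝕜) ∧ c * ‖x‖ < α ∧ c * α + σ * ‖x - (α : 𝕜) • u‖ ≤ 1 := by
  have hx0 : 0 < ‖x‖ := by linarith
  have hex : ∃ u ∈ U, c * ‖x‖ < ‖⟪u, x⟫_𝕜‖ := by
    by_contra hcon
    push Not at hcon
    have hmem : ((‖x‖⁻¹ : ℝ) : 𝕜) • x ∈ Dual 𝕜 U c := by
      constructor
      · rw [norm_smul, RCLike.norm_ofReal, abs_of_pos (by positivity), inv_mul_cancel₀ hx0.ne']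
      · intro u hu
        rw [inner_smul_right, norm_mul, RCLike.norm_ofReal, abs_of_pos (by positivity),
          inv_mul_eq_div, div_le_iff₀ hx0]
        exact hcon u hu
    have := hx _ hmem
    rw [inner_smul_left, norm_mul, inner_self_eq_norm_sq_to_K, RCLike.conj_ofReal,
      RCLike.norm_ofReal, norm_pow, RCLike.norm_ofReal, abs_of_pos (by positivity : 0 < ‖x‖⁻¹),
      abs_of_pos hx0] at this
    have e : ‖x‖⁻¹ * ‖x‖ ^ 2 = ‖x‖ := by field_simp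
    rw [e] at this
    linarith
  obtain ⟨u₀, hu₀, h2⟩ := hex
  obtain ⟨ζ, hζ, e⟩ := exists_phase (𝕜 := 𝕜) u₀ x
  have huU : ζ • u₀ ∈ U := S.sp.smul u₀ hu₀ ζ hζ
  obtain ⟨u, hu⟩ : ∃ u, u = ζ • u₀ := ⟨_, rfl⟩
  rw [← hu] at e huU
  set α := ‖⟪u₀, x⟫_𝕜‖ with hα
  refine ⟨u, huU, α, e, h2, ?_⟩
  set w := x - (α : 𝕜) • u with hw
  set β := ‖w‖ with hβ
  have huw : ⟪u, w⟫_𝕜 = 0 := by
    rw [hw, inner_sub_right, e, inner_smul_right, S.inner_self_U huU]; simp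
  have hwx : ⟪w, x⟫_𝕜 = ((β ^ 2 : ℝ) : 𝕜) := by
    have : x = w + (α : 𝕜) • u := by rw [hw]; abel
    rw [this, inner_add_right, inner_smul_right, ← inner_conj_symm w u, huw,
      inner_self_eq_norm_sq_to_K]
    simp [hβ]
  have hg := S.cap_mem huU (t := ((β⁻¹ : ℝ) : 𝕜) • w) (by rw [inner_smul_right, huw, mul_zero])
    (by
      rw [norm_smul, RCLike.norm_ofReal, abs_of_nonneg (by positivity)]
      by_cases hb : β = 0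
      · rw [hb]; simp
      · rw [inv_mul_cancel₀ hb])
  have h3 := hx _ hg
  rw [inner_add_left, inner_smul_left, inner_smul_left, inner_smul_left, e, hwx] at h3
  have e4 : (starRingEnd 𝕜) (c : 𝕜) * (α : 𝕜) + (starRingEnd 𝕜) (σ : 𝕜) *
      ((starRingEnd 𝕜) ((β⁻¹ : ℝ) : 𝕜) * ((β ^ 2 : ℝ) : 𝕜)) = ((c * α + σ * β : ℝ) : 𝕜) := by
    have : β⁻¹ * β ^ 2 = β := by
      by_cases hb : β = 0
      · rw [hb]; simp
      · field_simp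
    rw [RCLike.conj_ofReal, RCLike.conj_ofReal, RCLike.conj_ofReal, ← RCLike.ofReal_mul β⁻¹, this]
    push_cast
    ring
  rw [e4, RCLike.norm_ofReal] at h3
  exact (abs_le.1 h3).2

/-- Representation of the points of the spiky ball. -/
theorem repr (S : Setup 𝕜 U c σ) {x : V} (hx : x ∈ SBall 𝕜 U c) (h1 : 1 < ‖x‖) :
    ∃ u ∈ U, ∃ s : ℝ, 0 < s ∧ s ≤ 1 ∧ ∃ y : V, ‖y‖ ≤ 1 ∧
      x = ((1 - s : ℝ) : 𝕜) • y + ((s * c⁻¹ : ℝ) : 𝕜) • u := by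
  obtain ⟨u, hu, α, hα, h2, h3⟩ := S.core hx h1
  have hc := S.hc
  have hσ := S.hσ
  have hh := S.h
  have hx0 : 0 < ‖x‖ := by linarith
  have hαc : c < α := by nlinarith
  have hu1 := S.sp.unit u hu
  set w := x - (α : 𝕜) • u with hw
  have huw : ⟪u, w⟫_𝕜 = 0 := by
    rw [hw, inner_sub_right, hα, inner_smul_right, S.inner_self_U hu]; simp
  have hw0 := norm_nonneg w
  have hcα : c * α ≤ 1 := by nlinarith
  -- s = (α - c) / (c⁻¹ - c) = c (α - c) / σ²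
  set s : ℝ := c * (α - c) / σ ^ 2 with hs
  have hs0 : 0 < s := by rw [hs]; exact div_pos (mul_pos hc (by linarith)) (by positivity)
  have h1s : 1 - s = (1 - c * α) / σ ^ 2 := by
    rw [hs]; field_simp; nlinarith
  have hs1 : s ≤ 1 := by
    have : 0 ≤ (1 - c * α) / σ ^ 2 := div_nonneg (by linarith) (by positivity)
    linarith
  have hαs : α = (1 - s) * c + s * c⁻¹ := by
    rw [h1s, hs]; field_simp; nlinarith
  refine ⟨u, hu, s, hs0, hs1, ?_⟩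
  by_cases hs1' : s = 1
  · -- tip
    have h0 : 1 - c * α = 0 := by
      have : (1 - c * α) / σ ^ 2 = 0 := by rw [← h1s, hs1']; ring
      have h2 : σ ^ 2 ≠ 0 := by positivity
      exact (div_eq_zero_iff.1 this).resolve_right h2
    have hw00 : ‖w‖ = 0 := by nlinarith
    have hxw : x = (α : 𝕜) • u := by
      have := norm_eq_zero.1 hw00
      rw [hw, sub_eq_zero] at this; exact this
    refine ⟨0, by simp, ?_⟩
    rw [hxw, hαs, hs1']; simp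
  · have h1s0 : 0 < 1 - s := by
      rcases lt_or_eq_of_le hs1 with h | h
      · linarith
      · exact absurd h hs1'
    refine ⟨(c : 𝕜) • u + (((1 - s)⁻¹ : ℝ) : 𝕜) • w, ?_, ?_⟩
    · have h5 : ‖(c : 𝕜) • u + (((1 - s)⁻¹ : ℝ) : 𝕜) • w‖ ^ 2 = c ^ 2 + ((1 - s)⁻¹) ^ 2 * ‖w‖ ^ 2 :=
        norm_sq_comb c _ hu1 huw
      have h6 : (1 - s)⁻¹ * ‖w‖ ≤ σ := by
        rw [inv_mul_eq_div, div_le_iff₀ h1s0, h1s]
        field_simp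
        linarith
      have h7 : 0 ≤ (1 - s)⁻¹ * ‖w‖ := by positivity
      have h8 : ((1 - s)⁻¹) ^ 2 * ‖w‖ ^ 2 ≤ σ ^ 2 := by
        rw [← mul_pow]; exact pow_le_pow_left₀ h7 h6 2
      have h9 : ‖(c : 𝕜) • u + (((1 - s)⁻¹ : ℝ) : 𝕜) • w‖ ^ 2 ≤ 1 := by rw [h5]; linarith
      nlinarith [norm_nonneg ((c : 𝕜) • u + (((1 - s)⁻¹ : ℝ) : 𝕜) • w)]
    · have e1 : x = w + (α : 𝕜) • u := by rw [hw]; abel
      rw [smul_add, smul_smul, smul_smul, ← RCLike.ofReal_mul, ← RCLike.ofReal_mul,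
        mul_inv_cancel₀ h1s0.ne', RCLike.ofReal_one, one_smul]
      rw [e1]
      have : (α : 𝕜) • u = ((((1 - s) * c : ℝ) : 𝕜)) • u + ((s * c⁻¹ : ℝ) : 𝕜) • u := by
        rw [← add_smul, ← RCLike.ofReal_add, ← hαs]
      rw [this]; abel

/-- Euclidean rigidity: `‖f‖ ≤ 1`, `‖x‖ ≤ 1`, `⟪f, x⟫ = 1` imply `x = f`. -/
theorem eq_of_inner {f x : V} (hf : ‖f‖ ≤ 1) (hx : ‖x‖ ≤ 1) (h : RCLike.re ⟪f, x⟫_𝕜 = 1) :
    x = f ∧ ‖f‖ = 1 := by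
  have h1 : ‖f - x‖ ^ 2 ≤ 0 := by
    rw [@norm_sub_sq 𝕜, h]; nlinarith [norm_nonneg f, norm_nonneg x]
  have h2 : f - x = 0 := norm_eq_zero.1 (by nlinarith [norm_nonneg (f - x)])
  have h3 : f = x := sub_eq_zero.1 h2
  subst h3
  refine ⟨rfl, le_antisymm hf ?_⟩
  rw [inner_self_eq_norm_sq] at h
  nlinarith [norm_nonneg f]

theorem inner_eq_of_re {z : 𝕜} {a : ℝ} (h : ‖z‖ ≤ a) (h' : RCLike.re z = a) : z = a := by
  have h0 : 0 ≤ a := le_trans (norm_nonneg z) h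
  have h1 := RCLike.norm_sq_eq_def (z := z)
  rw [h'] at h1
  have h2 : RCLike.im z = 0 := by nlinarith [norm_nonneg z]
  apply RCLike.ext
  · simpa using h'
  · simpa using h2

/-- The faces of the spiky ball. -/
theorem face (S : Setup 𝕜 U c σ) {f x : V} (hf : f ∈ Dual 𝕜 U c) (hx : x ∈ SBall 𝕜 U c)
    (h : ⟪f, x⟫_𝕜 = 1) :
    (∃ u ∈ U, x = ((c⁻¹ : ℝ) : 𝕜) • u) ∨ (‖f‖ = 1 ∧ x = f) ∨
      (‖f‖ = 1 ∧ ∃ u ∈ U, ⟪u, f⟫_𝕜 = (c : 𝕜) ∧ ∃ s : ℝ, 0 < s ∧ s < 1 ∧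
        x = ((1 - s : ℝ) : 𝕜) • f + ((s * c⁻¹ : ℝ) : 𝕜) • u) := by
  by_cases h1 : ‖x‖ ≤ 1
  · right; left
    have := eq_of_inner (𝕜 := 𝕜) hf.1 h1 (by rw [h]; simp)
    exact ⟨this.2, this.1⟩
  · push Not at h1
    obtain ⟨u, hu, s, hs0, hs1, y, hy, hxe⟩ := S.repr hx h1
    have hc := S.hc
    have hfu : ‖⟪f, u⟫_𝕜‖ ≤ c := by rw [norm_inner_symm]; exact hf.2 u hu
    have hfur : RCLike.re ⟪f, u⟫_𝕜 ≤ c := le_trans (RCLike.re_le_norm _) hfu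
    have hfy : RCLike.re ⟪f, y⟫_𝕜 ≤ 1 := by
      refine le_trans (RCLike.re_le_norm _) (le_trans (norm_inner_le_norm f y) ?_)
      nlinarith [hf.1, norm_nonneg f, norm_nonneg y]
    have hre : (1 - s) * RCLike.re ⟪f, y⟫_𝕜 + s * c⁻¹ * RCLike.re ⟪f, u⟫_𝕜 = 1 := by
      have := congrArg RCLike.re h
      rw [hxe, inner_add_right, inner_smul_right, inner_smul_right, map_add,
        RCLike.re_ofReal_mul, RCLike.re_ofReal_mul, RCLike.one_re] at this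
      exact this
    have hcu : c⁻¹ * RCLike.re ⟪f, u⟫_𝕜 ≤ 1 := by
      rw [inv_mul_eq_div, div_le_one hc]; exact hfur
    have e1 : c⁻¹ * RCLike.re ⟪f, u⟫_𝕜 = 1 := by
      have h3 : (1 - s) * RCLike.re ⟪f, y⟫_𝕜 ≤ 1 - s := by nlinarith
      have h4 : s * (c⁻¹ * RCLike.re ⟪f, u⟫_𝕜) ≥ s := by nlinarith
      nlinarith
    have e2 : RCLike.re ⟪f, u⟫_𝕜 = c := by
      rw [inv_mul_eq_div, div_eq_one_iff_eq hc.ne'] at e1; exact e1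
    have e3 : ⟪f, u⟫_𝕜 = (c : 𝕜) := inner_eq_of_re hfu e2
    have e4 : ⟪u, f⟫_𝕜 = (c : 𝕜) := by rw [← inner_conj_symm, e3]; simp
    by_cases hs : s = 1
    · left
      refine ⟨u, hu, ?_⟩
      rw [hxe, hs]; simp
    · right; right
      have hs' : s < 1 := lt_of_le_of_ne hs1 hs
      have e5 : RCLike.re ⟪f, y⟫_𝕜 = 1 := by
        have : (1 - s) * RCLike.re ⟪f, y⟫_𝕜 = 1 - s := by nlinarith
        have h0 : (1 - s) ≠ 0 := by linarith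
        have h6 : (1 - s) * RCLike.re ⟪f, y⟫_𝕜 = (1 - s) * 1 := by rw [this, mul_one]
        exact mul_left_cancel₀ h0 h6
      have e6 := eq_of_inner (𝕜 := 𝕜) hf.1 hy e5
      refine ⟨e6.2, u, hu, e4, s, hs0, hs', ?_⟩
      rw [hxe, e6.1]

end Setup

end P06184b
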