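import Pool.Agent.Lib.P06184b.Steps

/-!
# Rigidity: a contraction of the spiky space which is a Euclidean contraction and isometric on a
plane is a unimodular scalar
-/

open scoped InnerProductSpace

namespace P06184b

variable {𝕜 V : Type*} [RCLike 𝕜] [NormedAddCommGroup V] [InnerProductSpace 𝕜 V]
variable {U : Set V} {c σ : ℝ} {T A : V →L[𝕜] V}

/-- Elementary estimate behind the hit lemma. -/
theorem hit_real {c σ α β κ : ℝ} (hc : 0 < c) (hσ : 0 < σ) (hσ1 : σ ≤ 1) (h : c ^ 2 + σ ^ 2 = 1)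
    (hβ : 0 ≤ β) (h1 : c * α + σ * β ≤ 1) (h2 : c ^ 2 * (α ^ 2 + β ^ 2) = 1 - κ) (h3 : c ≤ α) :
    c * β + (1 - c * α) ≤ 2 / σ * κ := by
  have hc1 : c ≤ 1 := by nlinarith
  obtain ⟨y, hy⟩ : ∃ y, y = 1 - c * α := ⟨_, rfl⟩
  have hyβ : σ * β ≤ y := by linarith
  have hy0 : 0 ≤ y := le_trans (by positivity) hyβ
  have hyσ : y ≤ σ ^ 2 := by nlinarith
  have hβy : β ≤ y / σ := by rw [le_div_iff₀ hσ]; linarith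
  have e1 : c ^ 2 * α ^ 2 = (1 - y) ^ 2 := by rw [hy]; ring
  have e2 : κ = 2 * y - y ^ 2 - c ^ 2 * β ^ 2 := by nlinarith
  have h4 : c ^ 2 * β ^ 2 ≤ c ^ 2 * (y / σ) ^ 2 :=
    mul_le_mul_of_nonneg_left (pow_le_pow_left₀ hβ hβy 2) (sq_nonneg c)
  have h5 : y ^ 2 + c ^ 2 * (y / σ) ^ 2 = y ^ 2 / σ ^ 2 := by
    have : c ^ 2 = 1 - σ ^ 2 := by linarith
    rw [this]; field_simp; ring
  have h6 : y ^ 2 / σ ^ 2 ≤ y := by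
    rw [div_le_iff₀ (by positivity)]; nlinarith
  have hκ : y ≤ κ := by linarith
  have h7 : c * β ≤ κ / σ := by
    calc c * β ≤ 1 * β := mul_le_mul_of_nonneg_right hc1 hβ
      _ = β := one_mul _
      _ ≤ y / σ := hβy
      _ ≤ κ / σ := div_le_div_of_nonneg_right hκ hσ.le
  have h8 : κ ≤ κ / σ := by
    rw [le_div_iff₀ hσ]; nlinarith
  have : 2 / σ * κ = κ / σ + κ / σ := by ring
  rw [this, ← hy]
  linarith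

variable (𝕜) in
/-- An orthonormal pair on which `T` is isometric. -/
structure Plane (T A : V →L[𝕜] V) (e₁ e₂ : V) : Prop where
  n1 : ‖e₁‖ = 1
  n2 : ‖e₂‖ = 1
  h12 : ⟪e₁, e₂⟫_𝕜 = 0
  p1 : A (T e₁) = e₁
  p2 : A (T e₂) = e₂

variable (𝕜) in
/-- Orthogonal projection on the plane. -/
def pr (e₁ e₂ x : V) : V := ⟪e₁, x⟫_𝕜 • e₁ + ⟪e₂, x⟫_𝕜 • e₂

variable (𝕜) in
/-- The real circle of the plane. -/
noncomputable def wv (e₁ e₂ : V) (ψ : ℝ) : V := (Real.cos ψ : 𝕜) • e₁ + (Real.sin ψ : 𝕜) • e₂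

theorem Contr.iso (C : Contr 𝕜 U c T A) {p : V} (hp : A (T p) = p) (y : V) :
    ⟪T p, T y⟫_𝕜 = ⟪p, y⟫_𝕜 := by rw [← C.adj, hp]

theorem Contr.iso' (C : Contr 𝕜 U c T A) {p : V} (hp : A (T p) = p) (y : V) :
    ⟪T y, T p⟫_𝕜 = ⟪y, p⟫_𝕜 := by rw [← inner_conj_symm, C.iso hp, inner_conj_symm]

namespace Plane

variable {e₁ e₂ : V} (P : Plane 𝕜 T A e₁ e₂)
include P

theorem h21 : ⟪e₂, e₁⟫_𝕜 = 0 := by rw [← inner_conj_symm, P.h12]; simp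

theorem s1 : ⟪e₁, e₁⟫_𝕜 = 1 := by rw [inner_self_eq_norm_sq_to_K, P.n1]; simp

theorem s2 : ⟪e₂, e₂⟫_𝕜 = 1 := by rw [inner_self_eq_norm_sq_to_K, P.n2]; simp

theorem orth1 (x : V) : ⟪e₁, x - pr 𝕜 e₁ e₂ x⟫_𝕜 = 0 := by
  rw [pr, inner_sub_right, inner_add_right, inner_smul_right, inner_smul_right, P.s1, P.h12]; ring

theorem orth2 (x : V) : ⟪e₂, x - pr 𝕜 e₁ e₂ x⟫_𝕜 = 0 := by
  rw [pr, inner_sub_right, inner_add_right, inner_smul_right, inner_smul_right, P.s2, P.h21]; ring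

theorem fixed_comb (a b : 𝕜) : A (T (a • e₁ + b • e₂)) = a • e₁ + b • e₂ := by
  rw [map_add, map_smul, map_smul, map_add, map_smul, map_smul, P.p1, P.p2]

theorem fixed (x : V) : A (T (pr 𝕜 e₁ e₂ x)) = pr 𝕜 e₁ e₂ x := P.fixed_comb _ _

omit P in
theorem comb_orth (a b : 𝕜) {h : V} (h1 : ⟪e₁, h⟫_𝕜 = 0) (h2 : ⟪e₂, h⟫_𝕜 = 0) :
    ⟪a • e₁ + b • e₂, h⟫_𝕜 = 0 := by
  rw [inner_add_left, inner_smul_left, inner_smul_left, h1, h2]; simp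

/-- `‖x - pr x‖ ≤ ‖x - p‖` for `p` in the plane. -/
theorem norm_sub_pr_le (x : V) (a b : 𝕜) : ‖x - pr 𝕜 e₁ e₂ x‖ ≤ ‖x - (a • e₁ + b • e₂)‖ := by
  have e : x - (a • e₁ + b • e₂) =
      ((⟪e₁, x⟫_𝕜 - a) • e₁ + (⟪e₂, x⟫_𝕜 - b) • e₂) + (x - pr 𝕜 e₁ e₂ x) := by
    rw [pr, sub_smul, sub_smul]; abel
  have h0 := comb_orth (⟪e₁, x⟫_𝕜 - a) (⟪e₂, x⟫_𝕜 - b) (P.orth1 x) (P.orth2 x)
  have h1 : ‖x - (a • e₁ + b • e₂)‖ ^ 2 =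
      ‖(⟪e₁, x⟫_𝕜 - a) • e₁ + (⟪e₂, x⟫_𝕜 - b) • e₂‖ ^ 2 + ‖x - pr 𝕜 e₁ e₂ x‖ ^ 2 := by
    conv_lhs => rw [e]
    rw [@norm_add_sq 𝕜, h0]; simp
  have h2 : ‖x - pr 𝕜 e₁ e₂ x‖ ^ 2 ≤ ‖x - (a • e₁ + b • e₂)‖ ^ 2 := by
    rw [h1]; nlinarith [sq_nonneg ‖(⟪e₁, x⟫_𝕜 - a) • e₁ + (⟪e₂, x⟫_𝕜 - b) • e₂‖]
  exact le_of_sq_le_sq h2 (norm_nonneg _)

theorem wv_norm (ψ : ℝ) : ‖wv 𝕜 e₁ e₂ ψ‖ = 1 := by
  have h := Setup.norm_sq_comb (𝕜 := 𝕜) (Real.cos ψ) (Real.sin ψ) P.n1 P.h12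
  rw [P.n2] at h
  have h2 : ‖wv 𝕜 e₁ e₂ ψ‖ ^ 2 = 1 := by
    rw [wv, h]; nlinarith [Real.sin_sq_add_cos_sq ψ]
  have := norm_nonneg (wv 𝕜 e₁ e₂ ψ)
  nlinarith

theorem wv_inner (ψ ψ' : ℝ) : ⟪wv 𝕜 e₁ e₂ ψ, wv 𝕜 e₁ e₂ ψ'⟫_𝕜 = (Real.cos (ψ - ψ') : 𝕜) := by
  rw [wv, wv, inner_add_left, inner_add_right, inner_add_right]
  simp only [inner_smul_left, inner_smul_right, P.s1, P.s2, P.h12, P.h21, RCLike.conj_ofReal]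
  rw [Real.cos_sub]; push_cast; ring

/-- Hit lemma. -/
theorem hit (S : Setup 𝕜 U c σ) (C : Contr 𝕜 U c T A) {u : V} (hu : u ∈ U)
    (hh : ‖u - pr 𝕜 e₁ e₂ u‖ < σ) : ∃ u' ∈ U, ‖T u - u'‖ ≤
      2 / σ * (‖u - pr 𝕜 e₁ e₂ u‖ ^ 2 - ‖T (u - pr 𝕜 e₁ e₂ u)‖ ^ 2) := by
  have hc := S.hc
  have hσ := S.hσ
  have hS := S.h
  set v := pr 𝕜 e₁ e₂ u with hv
  set h := u - v with hhdef
  have hvh : ⟪v, h⟫_𝕜 = 0 := comb_orth _ _ (P.orth1 u) (P.orth2 u)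
  have huvh : u = v + h := by rw [hhdef]; abel
  have hfix : A (T v) = v := P.fixed u
  have n1 : ‖v‖ ^ 2 + ‖h‖ ^ 2 = 1 := by
    have := @norm_add_sq 𝕜 _ _ _ _ v h
    rw [← huvh, hvh, S.sp.unit u hu] at this
    simp at this
    linarith
  have nTv : ‖T v‖ ^ 2 = ‖v‖ ^ 2 := by
    have := C.iso hfix v
    rw [inner_self_eq_norm_sq_to_K, inner_self_eq_norm_sq_to_K] at this
    exact_mod_cast this
  have n2 : ‖T u‖ ^ 2 = 1 - (‖h‖ ^ 2 - ‖T h‖ ^ 2) := by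
    rw [huvh, map_add, @norm_add_sq 𝕜, C.iso hfix, hvh, nTv]
    simp
    linarith
  set κ := ‖h‖ ^ 2 - ‖T h‖ ^ 2 with hκ
  have hκσ : κ < σ ^ 2 := by
    have : ‖h‖ ^ 2 < σ ^ 2 := by nlinarith [norm_nonneg h]
    nlinarith [sq_nonneg ‖T h‖]
  set x := T (((c⁻¹ : ℝ) : 𝕜) • u) with hx
  have hxB : x ∈ SBall 𝕜 U c := C.ball (S.tip_mem hu)
  have hxe : x = ((c⁻¹ : ℝ) : 𝕜) • T u := by rw [hx, map_smul]
  have nx : ‖x‖ ^ 2 = (c⁻¹) ^ 2 * (1 - κ) := by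
    rw [hxe, norm_smul, mul_pow, n2, RCLike.norm_ofReal, sq_abs]
  have nx1 : 1 < ‖x‖ := by
    have h1 : 1 < ‖x‖ ^ 2 := by
      rw [nx, inv_pow, inv_mul_eq_div, lt_div_iff₀ (by positivity)]; linarith
    nlinarith [norm_nonneg x]
  obtain ⟨u', hu', α, hα, h1, h2⟩ := S.core hxB nx1
  refine ⟨u', hu', ?_⟩
  set w := x - (α : 𝕜) • u' with hw
  have huw : ⟪u', w⟫_𝕜 = 0 := by
    rw [hw, inner_sub_right, hα, inner_smul_right, S.inner_self_U hu']; simp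
  have nαβ : ‖x‖ ^ 2 = α ^ 2 + ‖w‖ ^ 2 := by
    have h3 := Setup.norm_sq_comb (𝕜 := 𝕜) α 1 (S.sp.unit u' hu') huw
    have : (α : 𝕜) • u' + ((1 : ℝ) : 𝕜) • w = x := by rw [hw]; simp
    rw [this] at h3
    linarith
  have hαc : c ≤ α := by nlinarith
  have hmain := hit_real hc hσ (by linarith [S.hσ1]) hS (norm_nonneg w) h2
    (κ := κ) (by rw [← nαβ, nx]; field_simp) hαc
  refine le_trans ?_ hmain
  have hTu : T u - u' = (c : 𝕜) • w + ((-(1 - c * α) : ℝ) : 𝕜) • u' := by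
    have : T u = (c : 𝕜) • x := by
      rw [hxe, smul_smul, ← RCLike.ofReal_mul, mul_inv_cancel₀ hc.ne']; simp
    rw [this, hw, smul_sub, smul_smul]
    push_cast
    module
  have hcα : 0 ≤ 1 - c * α := by
    have : 0 ≤ σ * ‖w‖ := by positivity
    linarith
  rw [hTu]
  refine le_trans (norm_add_le _ _) ?_
  rw [norm_smul, norm_smul, RCLike.norm_ofReal, RCLike.norm_ofReal, abs_of_pos hc, abs_neg,
    abs_of_nonneg hcα, S.sp.unit u' hu', mul_one]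

end Plane

namespace Plane

variable {e₁ e₂ : V} (P : Plane 𝕜 T A e₁ e₂)
include P

omit P in
theorem wv_rot (φ θ : ℝ) : (Real.cos θ : 𝕜) • wv 𝕜 e₁ e₂ φ +
    (Real.sin θ : 𝕜) • wv 𝕜 e₁ e₂ (φ + Real.pi / 2) = wv 𝕜 e₁ e₂ (φ + θ) := by
  rw [wv, wv, wv, Real.cos_add_pi_div_two, Real.sin_add_pi_div_two, Real.cos_add, Real.sin_add]
  push_cast
  module

omit P in
theorem wv_orth (ψ : ℝ) {r : V} (h1 : ⟪e₁, r⟫_𝕜 = 0) (h2 : ⟪e₂, r⟫_𝕜 = 0) :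
    ⟪wv 𝕜 e₁ e₂ ψ, r⟫_𝕜 = 0 := comb_orth _ _ h1 h2

theorem arcHit (S : Setup 𝕜 U c σ) (C : Contr 𝕜 U c T A) (hle : ∀ v, ‖T v‖ ≤ ‖v‖)
    (hA : Arcs 𝕜 U σ (1 / 100000)) (φ : ℝ) (r : V) (hr1 : ⟪e₁, r⟫_𝕜 = 0) (hr2 : ⟪e₂, r⟫_𝕜 = 0)
    (hr : ‖r‖ ≤ σ / 400) :
    ∃ ψ : ℝ, φ ≤ ψ ∧ ψ ≤ φ + 1 / 10 ∧ ∃ u ∈ U, ∃ ζ : 𝕜, ‖ζ‖ = 1 ∧
      ‖u - ((√(1 - ‖r‖ ^ 2) : 𝕜) • wv 𝕜 e₁ e₂ ψ + r)‖ ≤ 1 / 100000 * σ ∧
      ‖u - pr 𝕜 e₁ e₂ u‖ ≤ ‖r‖ + 1 / 100000 * σ ∧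
      ‖T u - ζ • u‖ ≤ 2 / σ * (‖u - pr 𝕜 e₁ e₂ u‖ ^ 2 - ‖T (u - pr 𝕜 e₁ e₂ u)‖ ^ 2) := by
  have hσ := S.hσ
  have hσ1 := S.hσ1
  have hr0 := norm_nonneg r
  have hrs : ‖r‖ ^ 2 ≤ ‖r‖ / 100 := by nlinarith
  obtain ⟨b, hb⟩ : ∃ b : ℝ, b = √(1 - ‖r‖ ^ 2) := ⟨_, rfl⟩
  have hb0 : 0 ≤ b := hb ▸ Real.sqrt_nonneg _
  have hb2 : b ^ 2 = 1 - ‖r‖ ^ 2 := by rw [hb, Real.sq_sqrt (by nlinarith)]
  have hb1 : b ≤ 1 := by nlinarith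
  have hb3 : 1 - ‖r‖ / 100 ≤ b := by nlinarith
  rw [← hb]
  have hpq : ⟪wv 𝕜 e₁ e₂ φ, wv 𝕜 e₁ e₂ (φ + Real.pi / 2)⟫_𝕜 = 0 := by
    rw [P.wv_inner, show φ - (φ + Real.pi / 2) = -(Real.pi / 2) by ring, Real.cos_neg,
      Real.cos_pi_div_two]; simp
  have hnb : ∀ ψ, ‖(b : 𝕜) • wv 𝕜 e₁ e₂ ψ‖ = b := by
    intro ψ
    rw [norm_smul, P.wv_norm, mul_one, RCLike.norm_ofReal, abs_of_nonneg hb0]
  have hfixw : ∀ ψ, A (T (wv 𝕜 e₁ e₂ ψ)) = wv 𝕜 e₁ e₂ ψ := fun ψ => P.fixed_comb _ _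
  have hTn : ∀ ψ, ‖T (wv 𝕜 e₁ e₂ ψ)‖ = 1 := by
    intro ψ
    have h1 : ‖T (wv 𝕜 e₁ e₂ ψ)‖ ^ 2 = 1 := by
      have := C.iso (hfixw ψ) (wv 𝕜 e₁ e₂ ψ)
      rw [inner_self_eq_norm_sq_to_K, inner_self_eq_norm_sq_to_K, P.wv_norm, RCLike.ofReal_one,
        one_pow] at this
      exact_mod_cast this
    nlinarith [norm_nonneg (T (wv 𝕜 e₁ e₂ ψ))]
  obtain ⟨θ, hθ0, hθ1, u, hu, hu1, hu2⟩ := hA ((b : 𝕜) • wv 𝕜 e₁ e₂ φ)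
    ((b : 𝕜) • wv 𝕜 e₁ e₂ (φ + Real.pi / 2)) r (T (wv 𝕜 e₁ e₂ φ))
    (T (wv 𝕜 e₁ e₂ (φ + Real.pi / 2)))
    (by rw [inner_smul_left, inner_smul_right, hpq]; simp)
    (by rw [inner_smul_left, wv_orth _ hr1 hr2, mul_zero])
    (by rw [inner_smul_left, wv_orth _ hr1 hr2, mul_zero])
    (by rw [hnb, hnb]) (by rw [hnb, hb2]; ring) (by rw [hnb]; linarith) (hTn _) (hTn _)
    (by rw [C.iso (hfixw _), hpq])
  have e1 : (Real.cos θ : 𝕜) • (b : 𝕜) • wv 𝕜 e₁ e₂ φ +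
      (Real.sin θ : 𝕜) • (b : 𝕜) • wv 𝕜 e₁ e₂ (φ + Real.pi / 2) + r =
      (b : 𝕜) • wv 𝕜 e₁ e₂ (φ + θ) + r := by
    rw [← wv_rot φ θ, smul_add, smul_comm (b : 𝕜), smul_comm (b : 𝕜)]
  have e2 : (Real.cos θ : 𝕜) • T (wv 𝕜 e₁ e₂ φ) +
      (Real.sin θ : 𝕜) • T (wv 𝕜 e₁ e₂ (φ + Real.pi / 2)) = T (wv 𝕜 e₁ e₂ (φ + θ)) := by
    rw [← wv_rot φ θ, map_add, map_smul, map_smul]
  rw [e1] at hu1
  simp only [e2] at hu2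
  set ψ := φ + θ with hψ
  have hpr : ‖u - pr 𝕜 e₁ e₂ u‖ ≤ ‖r‖ + 1 / 100000 * σ := by
    have h1 := P.norm_sub_pr_le u ((b : 𝕜) * (Real.cos ψ : 𝕜)) ((b : 𝕜) * (Real.sin ψ : 𝕜))
    have h2 : ((b : 𝕜) * (Real.cos ψ : 𝕜)) • e₁ + ((b : 𝕜) * (Real.sin ψ : 𝕜)) • e₂ =
        (b : 𝕜) • wv 𝕜 e₁ e₂ ψ := by rw [wv, smul_add, smul_smul, smul_smul]
    rw [h2] at h1
    refine le_trans h1 ?_
    have h3 : u - (b : 𝕜) • wv 𝕜 e₁ e₂ ψ = r + (u - ((b : 𝕜) • wv 𝕜 e₁ e₂ ψ + r)) := by abel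
    rw [h3]
    exact le_trans (norm_add_le _ _) (by linarith)
  have hpr2 : ‖u - pr 𝕜 e₁ e₂ u‖ ≤ σ / 300 := by linarith
  obtain ⟨u', hu', hhit⟩ := P.hit S C hu (lt_of_le_of_lt hpr2 (by linarith))
  have hκ : 2 / σ * (‖u - pr 𝕜 e₁ e₂ u‖ ^ 2 - ‖T (u - pr 𝕜 e₁ e₂ u)‖ ^ 2) ≤ σ / 100 := by
    have h1 : ‖u - pr 𝕜 e₁ e₂ u‖ ^ 2 ≤ (σ / 300) ^ 2 := pow_le_pow_left₀ (norm_nonneg _) hpr2 2
    have h2 : ‖u - pr 𝕜 e₁ e₂ u‖ ^ 2 - ‖T (u - pr 𝕜 e₁ e₂ u)‖ ^ 2 ≤ (σ / 300) ^ 2 := by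
      nlinarith [sq_nonneg ‖T (u - pr 𝕜 e₁ e₂ u)‖]
    calc 2 / σ * (‖u - pr 𝕜 e₁ e₂ u‖ ^ 2 - ‖T (u - pr 𝕜 e₁ e₂ u)‖ ^ 2)
        ≤ 2 / σ * (σ / 300) ^ 2 := mul_le_mul_of_nonneg_left h2 (by positivity)
      _ = 2 * σ / 90000 := by field_simp; norm_num
      _ ≤ σ / 100 := by linarith
  have hclose : ‖u' - T (wv 𝕜 e₁ e₂ ψ)‖ ≤ σ := by
    have h1 : u' - T (wv 𝕜 e₁ e₂ ψ) = -(T u - u') + T (u - wv 𝕜 e₁ e₂ ψ) := by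
      rw [map_sub]; abel
    have h2 : u - wv 𝕜 e₁ e₂ ψ = (u - ((b : 𝕜) • wv 𝕜 e₁ e₂ ψ + r)) + (r +
        ((-(1 - b) : ℝ) : 𝕜) • wv 𝕜 e₁ e₂ ψ) := by push_cast; module
    have h3 : ‖u - wv 𝕜 e₁ e₂ ψ‖ ≤ 1 / 100000 * σ + (‖r‖ + (1 - b)) := by
      rw [h2]
      refine le_trans (norm_add_le _ _) (add_le_add hu1 (le_trans (norm_add_le _ _) ?_))
      rw [norm_smul, P.wv_norm, RCLike.norm_ofReal, abs_neg, abs_of_nonneg (by linarith), mul_one]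
    rw [h1]
    refine le_trans (norm_add_le _ _) ?_
    rw [norm_neg]
    have h4 := hle (u - wv 𝕜 e₁ e₂ ψ)
    linarith
  obtain ⟨ζ, hζ, rfl⟩ := hu2 u' hu' hclose
  exact ⟨ψ, by linarith, by linarith, u, hu, ζ, hζ, hu1, hpr, hhit⟩

/-- Comparison of phases. -/
theorem phase (S : Setup 𝕜 U c σ) (C : Contr 𝕜 U c T A) (hle : ∀ v, ‖T v‖ ≤ ‖v‖) {M : ℝ} {η : 𝕜}
    (hη : ‖η‖ = 1) (hM : ∀ v, ‖T v - η • v‖ ≤ M * ‖v‖) {u u₁ : V} (hu : u ∈ U) (hu₁ : u₁ ∈ U)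
    {ζ ζ₁ : 𝕜} (hζ : ‖ζ‖ = 1) {E E₁ : ℝ} (hE : ‖T u - ζ • u‖ ≤ E)
    (hE₁ : ‖T u₁ - ζ₁ • u₁‖ ≤ E₁) :
    ‖ζ - ζ₁‖ * ‖⟪u, u₁⟫_𝕜‖ ≤
      2 * M * ‖u - pr 𝕜 e₁ e₂ u‖ * ‖u₁ - pr 𝕜 e₁ e₂ u₁‖ + E + E₁ := by
  set v := pr 𝕜 e₁ e₂ u with hv
  set v₁ := pr 𝕜 e₁ e₂ u₁ with hv₁
  obtain ⟨h, hh⟩ : ∃ h, h = u - v := ⟨_, rfl⟩
  obtain ⟨h₁, hh₁⟩ : ∃ h, h = u₁ - v₁ := ⟨_, rfl⟩
  have f : A (T v) = v := P.fixed u
  have f₁ : A (T v₁) = v₁ := P.fixed u₁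
  have o : ⟪h, v₁⟫_𝕜 = 0 := by
    rw [← inner_conj_symm, hh]
    have : ⟪v₁, u - v⟫_𝕜 = 0 := comb_orth _ _ (P.orth1 u) (P.orth2 u)
    rw [this]; simp
  have e1 : ⟪T u, T u₁⟫_𝕜 - ⟪u, u₁⟫_𝕜 = ⟪T h, T h₁⟫_𝕜 - ⟪h, h₁⟫_𝕜 := by
    have a1 : u = v + h := by rw [hh]; abel
    have a2 : u₁ = v₁ + h₁ := by rw [hh₁]; abel
    have b1 : ⟪T u, T u₁⟫_𝕜 = ⟪v, u₁⟫_𝕜 + ⟪T h, T h₁⟫_𝕜 := by
      conv_lhs => rw [a1]
      rw [map_add, inner_add_left, C.iso f]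
      congr 1
      rw [a2, map_add, inner_add_right, C.iso' f₁, o, zero_add]
    have b2 : ⟪u, u₁⟫_𝕜 = ⟪v, u₁⟫_𝕜 + ⟪h, h₁⟫_𝕜 := by
      conv_lhs => rw [a1]
      rw [inner_add_left]
      congr 1
      rw [a2, inner_add_right, o, zero_add]
    rw [b1, b2]; ring
  have hηη : (starRingEnd 𝕜) η * η = 1 := by rw [RCLike.conj_mul, hη]; simp
  have e2 : ‖⟪T h, T h₁⟫_𝕜 - ⟪h, h₁⟫_𝕜‖ ≤ 2 * M * ‖h‖ * ‖h₁‖ := by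
    have b : ⟪T h, T h₁⟫_𝕜 - ⟪h, h₁⟫_𝕜 = ⟪T h - η • h, T h₁⟫_𝕜 + ⟪η • h, T h₁ - η • h₁⟫_𝕜 := by
      rw [inner_sub_left, inner_sub_right, inner_smul_left h (η • h₁) η, inner_smul_right,
        ← mul_assoc, hηη, one_mul]
      ring
    rw [b]
    refine le_trans (norm_add_le _ _) ?_
    have c1 : ‖⟪T h - η • h, T h₁⟫_𝕜‖ ≤ M * ‖h‖ * ‖h₁‖ :=
      le_trans (norm_inner_le_norm _ _) (mul_le_mul (hM h) (hle h₁) (norm_nonneg _)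
        (le_trans (norm_nonneg _) (hM h)))
    have c2 : ‖⟪η • h, T h₁ - η • h₁⟫_𝕜‖ ≤ ‖h‖ * (M * ‖h₁‖) := by
      refine le_trans (norm_inner_le_norm _ _) ?_
      rw [norm_smul, hη, one_mul]
      exact mul_le_mul_of_nonneg_left (hM h₁) (norm_nonneg _)
    linarith
  have e3 : ((starRingEnd 𝕜) ζ * ζ₁ - 1) * ⟪u, u₁⟫_𝕜 = (⟪T u, T u₁⟫_𝕜 - ⟪u, u₁⟫_𝕜) -
      ⟪T u - ζ • u, T u₁⟫_𝕜 - ⟪ζ • u, T u₁ - ζ₁ • u₁⟫_𝕜 := by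
    rw [inner_sub_left, inner_sub_right, inner_smul_left u (ζ₁ • u₁) ζ, inner_smul_right]
    ring
  have e4 : ‖(starRingEnd 𝕜) ζ * ζ₁ - 1‖ = ‖ζ - ζ₁‖ := by
    have hζζ : ζ * (starRingEnd 𝕜) ζ = 1 := by rw [RCLike.mul_conj, hζ]; simp
    have : ζ * ((starRingEnd 𝕜) ζ * ζ₁ - 1) = -(ζ - ζ₁) := by
      rw [mul_sub, ← mul_assoc, hζζ]; ring
    have h2 := congrArg norm this
    rw [norm_mul, hζ, one_mul, norm_neg] at h2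
    exact h2
  rw [← e4, ← norm_mul, e3, e1]
  refine le_trans (norm_sub_le _ _) ?_
  refine le_trans (add_le_add (norm_sub_le _ _) le_rfl) ?_
  have c1 : ‖⟪T u - ζ • u, T u₁⟫_𝕜‖ ≤ E := by
    refine le_trans (norm_inner_le_norm _ _) ?_
    have h1 := hle u₁
    rw [S.sp.unit u₁ hu₁] at h1
    nlinarith [norm_nonneg (T u - ζ • u), norm_nonneg (T u₁)]
  have c2 : ‖⟪ζ • u, T u₁ - ζ₁ • u₁⟫_𝕜‖ ≤ E₁ := by
    refine le_trans (norm_inner_le_norm _ _) ?_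
    rw [norm_smul, hζ, S.sp.unit u hu, one_mul, one_mul]; exact hE₁
  rw [← hh, ← hh₁]
  linarith

omit P in
theorem kappa_le {M : ℝ} {η : 𝕜} (hle : ∀ v, ‖T v‖ ≤ ‖v‖) (hη : ‖η‖ = 1)
    (hM : ∀ v, ‖T v - η • v‖ ≤ M * ‖v‖) (h : V) : ‖h‖ ^ 2 - ‖T h‖ ^ 2 ≤ 2 * M * ‖h‖ ^ 2 := by
  have h1 : ‖h‖ ≤ ‖T h‖ + M * ‖h‖ := by
    have : η • h = T h - (T h - η • h) := by abel
    calc ‖h‖ = ‖η • h‖ := by rw [norm_smul, hη, one_mul]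
      _ = ‖T h - (T h - η • h)‖ := by rw [← this]
      _ ≤ ‖T h‖ + ‖T h - η • h‖ := norm_sub_le _ _
      _ ≤ _ := by linarith [hM h]
  have h2 := hle h
  have h3 : 0 ≤ M * ‖h‖ := le_trans (norm_nonneg _) (hM h)
  nlinarith [norm_nonneg h, norm_nonneg (T h)]

/-- Rigidity. -/
theorem scalar (S : Setup 𝕜 U c σ) (C : Contr 𝕜 U c T A) (hle : ∀ v, ‖T v‖ ≤ ‖v‖)
    (hA : Arcs 𝕜 U σ (1 / 100000)) : ∃ ζ : 𝕜, ‖ζ‖ = 1 ∧ ∀ v, T v = ζ • v := by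
  have hσ := S.hσ
  have hσ1 := S.hσ1
  obtain ⟨ψ₁, hψ₁0, hψ₁1, u₁, hu₁, ζ₁, hζ₁, hx₁, hp₁, hE₁⟩ :=
    P.arcHit S C hle hA 0 0 (by simp) (by simp) (by simp; positivity)
  simp only [norm_zero, ne_eq, OfNat.ofNat_ne_zero, not_false_eq_true, zero_pow, sub_zero,
    Real.sqrt_one, RCLike.ofReal_one, one_smul, add_zero, zero_add] at hx₁ hp₁
  rw [zero_add] at hψ₁1
  refine ⟨ζ₁, hζ₁, ?_⟩
  set D : V →L[𝕜] V := T - ζ₁ • ContinuousLinearMap.id 𝕜 V with hD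
  have hDv : ∀ v, D v = T v - ζ₁ • v := fun v => by rw [hD]; simp
  set M := ‖D‖ with hMdef
  have hM0 : 0 ≤ M := norm_nonneg D
  have hM : ∀ v, ‖T v - ζ₁ • v‖ ≤ M * ‖v‖ := fun v => by rw [← hDv]; exact D.le_opNorm v
  have hMD : ∀ v, ‖D v‖ ≤ M * ‖v‖ := fun v => D.le_opNorm v
  have hE₁' : ∀ d : ℝ, 1 / 100000 * σ ≤ d → ‖T u₁ - ζ₁ • u₁‖ ≤ 4 * M * d ^ 2 / σ := by
    intro d hd
    have h1 := kappa_le hle hζ₁ hM (u₁ - pr 𝕜 e₁ e₂ u₁)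
    have h2 : ‖u₁ - pr 𝕜 e₁ e₂ u₁‖ ^ 2 ≤ d ^ 2 :=
      pow_le_pow_left₀ (norm_nonneg _) (le_trans hp₁ hd) 2
    calc ‖T u₁ - ζ₁ • u₁‖ ≤ 2 / σ * (2 * M * d ^ 2) := by
          refine le_trans hE₁ (mul_le_mul_of_nonneg_left ?_ (by positivity))
          refine le_trans h1 (mul_le_mul_of_nonneg_left h2 (by positivity))
      _ = 4 * M * d ^ 2 / σ := by ring
  -- the general estimate
  have G : ∀ φ : ℝ, 0 ≤ φ → φ ≤ 7 / 10 → ∀ r : V, ⟪e₁, r⟫_𝕜 = 0 → ⟪e₂, r⟫_𝕜 = 0 →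
      ‖r‖ ≤ σ / 400 → ∃ ψ : ℝ, φ ≤ ψ ∧ ψ ≤ φ + 1 / 10 ∧
      ‖D ((√(1 - ‖r‖ ^ 2) : 𝕜) • wv 𝕜 e₁ e₂ ψ + r)‖ ≤
        24 * M * (‖r‖ + 1 / 100000 * σ) ^ 2 / σ + M * (1 / 100000 * σ) := by
    intro φ hφ0 hφ1 r hr1 hr2 hr
    obtain ⟨ψ, hψ0, hψ1, u, hu, ζ, hζ, hx, hp, hE⟩ := P.arcHit S C hle hA φ r hr1 hr2 hr
    refine ⟨ψ, hψ0, hψ1, ?_⟩
    set d := ‖r‖ + 1 / 100000 * σ with hd
    have hd0 : 0 ≤ d := by positivity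
    have hr0 := norm_nonneg r
    have hdτ : 1 / 100000 * σ ≤ d := by linarith
    obtain ⟨b, hb⟩ : ∃ b : ℝ, b = √(1 - ‖r‖ ^ 2) := ⟨_, rfl⟩
    rw [← hb] at hx ⊢
    have hrs : ‖r‖ ^ 2 ≤ 1 / 100 := by nlinarith
    have hb0 : 0 ≤ b := hb ▸ Real.sqrt_nonneg _
    have hb2 : b ^ 2 = 1 - ‖r‖ ^ 2 := by rw [hb, Real.sq_sqrt (by linarith)]
    have hb3 : 99 / 100 ≤ b := by nlinarith
    have hE' : ‖T u - ζ • u‖ ≤ 4 * M * d ^ 2 / σ := by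
      have h1 := kappa_le hle hζ₁ hM (u - pr 𝕜 e₁ e₂ u)
      have h2 : ‖u - pr 𝕜 e₁ e₂ u‖ ^ 2 ≤ d ^ 2 := pow_le_pow_left₀ (norm_nonneg _) hp 2
      calc ‖T u - ζ • u‖ ≤ 2 / σ * (2 * M * d ^ 2) := by
            refine le_trans hE (mul_le_mul_of_nonneg_left ?_ (by positivity))
            refine le_trans h1 (mul_le_mul_of_nonneg_left h2 (by positivity))
        _ = 4 * M * d ^ 2 / σ := by ring
    have hph := P.phase S C hle hζ₁ hM hu hu₁ hζ hE' (hE₁' d hdτ)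
    -- lower bound for the inner product
    set x := (b : 𝕜) • wv 𝕜 e₁ e₂ ψ + r with hxdef
    have hin : 1 / 2 ≤ ‖⟪u, u₁⟫_𝕜‖ := by
      have h1 : ⟪x, wv 𝕜 e₁ e₂ ψ₁⟫_𝕜 = ((b * Real.cos (ψ - ψ₁) : ℝ) : 𝕜) := by
        rw [hxdef, inner_add_left, inner_smul_left, P.wv_inner, ← inner_conj_symm r,
          wv_orth _ hr1 hr2]
        simp
      have h2 : ⟪u, u₁⟫_𝕜 = ⟪x, wv 𝕜 e₁ e₂ ψ₁⟫_𝕜 + (⟪u - x, u₁⟫_𝕜 +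
          ⟪x, u₁ - wv 𝕜 e₁ e₂ ψ₁⟫_𝕜) := by
        rw [inner_sub_left, inner_sub_right]; ring
      have hxn : ‖x‖ ≤ 2 := by
        rw [hxdef]
        refine le_trans (norm_add_le _ _) ?_
        rw [norm_smul, P.wv_norm, RCLike.norm_ofReal, abs_of_nonneg hb0]
        nlinarith
      have h3 : ‖⟪u - x, u₁⟫_𝕜 + ⟪x, u₁ - wv 𝕜 e₁ e₂ ψ₁⟫_𝕜‖ ≤ 1 / 100 := by
        refine le_trans (norm_add_le _ _) ?_
        have a1 : ‖⟪u - x, u₁⟫_𝕜‖ ≤ 1 / 100000 * σ := by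
          refine le_trans (norm_inner_le_norm _ _) ?_
          rw [S.sp.unit u₁ hu₁, mul_one]; exact hx
        have a2 : ‖⟪x, u₁ - wv 𝕜 e₁ e₂ ψ₁⟫_𝕜‖ ≤ 2 * (1 / 100000 * σ) := by
          refine le_trans (norm_inner_le_norm _ _) ?_
          exact mul_le_mul hxn hx₁ (norm_nonneg _) (by norm_num)
        linarith
      have hcos : 68 / 100 ≤ Real.cos (ψ - ψ₁) := by
        have := Real.one_sub_sq_div_two_le_cos (x := ψ - ψ₁)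
        nlinarith
      have h4 : 67 / 100 ≤ b * Real.cos (ψ - ψ₁) := by nlinarith
      have h5 : ‖⟪x, wv 𝕜 e₁ e₂ ψ₁⟫_𝕜‖ = b * Real.cos (ψ - ψ₁) := by
        rw [h1, RCLike.norm_ofReal, abs_of_nonneg (by linarith)]
      have h6 : ‖⟪x, wv 𝕜 e₁ e₂ ψ₁⟫_𝕜‖ ≤ ‖⟪u, u₁⟫_𝕜‖ +
          ‖⟪u - x, u₁⟫_𝕜 + ⟪x, u₁ - wv 𝕜 e₁ e₂ ψ₁⟫_𝕜‖ := by
        have : ⟪x, wv 𝕜 e₁ e₂ ψ₁⟫_𝕜 = ⟪u, u₁⟫_𝕜 -
          (⟪u - x, u₁⟫_𝕜 + ⟪x, u₁ - wv 𝕜 e₁ e₂ ψ₁⟫_𝕜) := by rw [h2]; ring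
        rw [this]; exact norm_sub_le _ _
      linarith
    have hζd : ‖ζ - ζ₁‖ ≤ 20 * M * d ^ 2 / σ := by
      have h1 : ‖ζ - ζ₁‖ * (1 / 2) ≤ ‖ζ - ζ₁‖ * ‖⟪u, u₁⟫_𝕜‖ :=
        mul_le_mul_of_nonneg_left hin (norm_nonneg _)
      have h2 : 2 * M * ‖u - pr 𝕜 e₁ e₂ u‖ * ‖u₁ - pr 𝕜 e₁ e₂ u₁‖ ≤ 2 * M * d * d := by
        have := norm_nonneg (u₁ - pr 𝕜 e₁ e₂ u₁)
        have := norm_nonneg (u - pr 𝕜 e₁ e₂ u)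
        have h3 : 2 * M * ‖u - pr 𝕜 e₁ e₂ u‖ ≤ 2 * M * d :=
          mul_le_mul_of_nonneg_left hp (by positivity)
        exact mul_le_mul h3 (le_trans hp₁ hdτ) (by positivity) (by positivity)
      have h4 : 2 * M * d * d ≤ 2 * M * d ^ 2 / σ := by
        rw [le_div_iff₀ hσ]
        have : 0 ≤ 2 * M * d ^ 2 := by positivity
        nlinarith
      have h5 : 20 * M * d ^ 2 / σ = 2 * (2 * M * d ^ 2 / σ + 4 * M * d ^ 2 / σ +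
        4 * M * d ^ 2 / σ) := by ring
      rw [h5]
      linarith
    have hTu : ‖D u‖ ≤ 24 * M * d ^ 2 / σ := by
      have h1 : D u = (T u - ζ • u) + (ζ - ζ₁) • u := by rw [hDv, sub_smul]; abel
      rw [h1]
      refine le_trans (norm_add_le _ _) ?_
      rw [norm_smul, S.sp.unit u hu, mul_one]
      have h5 : 24 * M * d ^ 2 / σ = 4 * M * d ^ 2 / σ + 20 * M * d ^ 2 / σ := by ring
      rw [h5]
      exact add_le_add hE' hζd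
    have h1 : D x = D u - D (u - x) := by rw [map_sub]; abel
    rw [h1]
    refine le_trans (norm_sub_le _ _) (add_le_add hTu ?_)
    exact le_trans (hMD _) (mul_le_mul_of_nonneg_left hx hM0)
  -- two independent vectors of the plane
  have G0 : ∀ φ : ℝ, 0 ≤ φ → φ ≤ 7 / 10 → ∃ ψ : ℝ, φ ≤ ψ ∧ ψ ≤ φ + 1 / 10 ∧
      ‖D (wv 𝕜 e₁ e₂ ψ)‖ ≤ 2 / 100000 * M * σ := by
    intro φ h0 h1
    obtain ⟨ψ, a1, a2, a3⟩ := G φ h0 h1 0 (by simp) (by simp) (by simp; positivity)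
    refine ⟨ψ, a1, a2, ?_⟩
    simp only [norm_zero, ne_eq, OfNat.ofNat_ne_zero, not_false_eq_true, zero_pow, sub_zero,
      Real.sqrt_one, RCLike.ofReal_one, one_smul, add_zero, zero_add] at a3
    refine le_trans a3 ?_
    have : 24 * M * (1 / 100000 * σ) ^ 2 / σ = 24 / 10000000000 * M * σ := by
      field_simp; norm_num
    rw [this]
    have : 0 ≤ M * σ := by positivity
    nlinarith
  obtain ⟨ψa, ha0, ha1, hDa⟩ := G0 0 le_rfl (by norm_num)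
  obtain ⟨ψb, hb0, hb1, hDb⟩ := G0 (7 / 10) (by norm_num) le_rfl
  have hsin : 1 / 2 ≤ Real.sin (ψb - ψa) := by
    have h1 : 0 < ψb - ψa := by linarith
    have := Real.sin_gt_sub_cube h1
    have h3 : (ψb - ψa) ^ 3 ≤ (8 / 10) ^ 2 * (ψb - ψa) := by
      have : (ψb - ψa) ^ 2 ≤ (8 / 10) ^ 2 := pow_le_pow_left₀ h1.le (by linarith) 2
      nlinarith
    nlinarith
  have key : ∀ (e : V) (α β : ℝ), |α| ≤ 1 → |β| ≤ 1 →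
      (Real.sin (ψb - ψa) : 𝕜) • e = (α : 𝕜) • wv 𝕜 e₁ e₂ ψa + (β : 𝕜) • wv 𝕜 e₁ e₂ ψb →
      ‖D e‖ ≤ 8 / 100000 * M * σ := by
    intro e α β hα hβ he
    have h1 : Real.sin (ψb - ψa) * ‖D e‖ = ‖D ((Real.sin (ψb - ψa) : 𝕜) • e)‖ := by
      rw [map_smul, norm_smul, RCLike.norm_ofReal, abs_of_nonneg (by linarith)]
    have h2 : ‖D ((Real.sin (ψb - ψa) : 𝕜) • e)‖ ≤ 4 / 100000 * M * σ := by
      rw [he, map_add, map_smul, map_smul]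
      refine le_trans (norm_add_le _ _) ?_
      rw [norm_smul, norm_smul, RCLike.norm_ofReal, RCLike.norm_ofReal]
      have b1 : |α| * ‖D (wv 𝕜 e₁ e₂ ψa)‖ ≤ 1 * (2 / 100000 * M * σ) :=
        mul_le_mul hα hDa (norm_nonneg _) (by norm_num)
      have b2 : |β| * ‖D (wv 𝕜 e₁ e₂ ψb)‖ ≤ 1 * (2 / 100000 * M * σ) :=
        mul_le_mul hβ hDb (norm_nonneg _) (by norm_num)
      linarith
    have h3 : 1 / 2 * ‖D e‖ ≤ Real.sin (ψb - ψa) * ‖D e‖ :=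
      mul_le_mul_of_nonneg_right hsin (norm_nonneg _)
    linarith
  have hD1 : ‖D e₁‖ ≤ 8 / 100000 * M * σ := by
    refine key e₁ (Real.sin ψb) (-Real.sin ψa) (Real.abs_sin_le_one _)
      (by rw [abs_neg]; exact Real.abs_sin_le_one _) ?_
    rw [wv, wv, Real.sin_sub]; push_cast; module
  have hD2 : ‖D e₂‖ ≤ 8 / 100000 * M * σ := by
    refine key e₂ (-Real.cos ψb) (Real.cos ψa) (by rw [abs_neg]; exact Real.abs_cos_le_one _)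
      (Real.abs_cos_le_one _) ?_
    rw [wv, wv, Real.sin_sub]; push_cast; module
  have hDcomb : ∀ a b : 𝕜, ‖D (a • e₁ + b • e₂)‖ ≤ (‖a‖ + ‖b‖) * (8 / 100000 * M * σ) := by
    intro a b
    rw [map_add, map_smul, map_smul]
    refine le_trans (norm_add_le _ _) ?_
    rw [norm_smul, norm_smul, add_mul]
    exact add_le_add (mul_le_mul_of_nonneg_left hD1 (norm_nonneg _))
      (mul_le_mul_of_nonneg_left hD2 (norm_nonneg _))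
  -- vectors orthogonal to the plane
  have hDn : ∀ n : V, ⟪e₁, n⟫_𝕜 = 0 → ⟪e₂, n⟫_𝕜 = 0 → ‖D n‖ ≤ 1 / 5 * M * ‖n‖ := by
    intro n hn1 hn2
    by_cases h0 : n = 0
    · rw [h0]; simp
    have hn0 : 0 < ‖n‖ := norm_pos_iff.2 h0
    obtain ⟨r, hr⟩ : ∃ r : V, r = ((σ / 400 * ‖n‖⁻¹ : ℝ) : 𝕜) • n := ⟨_, rfl⟩
    have hrn : ‖r‖ = σ / 400 := by
      rw [hr, norm_smul, RCLike.norm_ofReal, abs_of_pos (by positivity), mul_assoc,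
        inv_mul_cancel₀ hn0.ne', mul_one]
    obtain ⟨ψ, a1, a2, a3⟩ := G 0 le_rfl (by norm_num) r
      (by rw [hr, inner_smul_right, hn1, mul_zero]) (by rw [hr, inner_smul_right, hn2, mul_zero])
      hrn.le
    rw [hrn] at a3
    set b := √(1 - (σ / 400) ^ 2) with hb
    have hb1 : |b| ≤ 1 := by
      rw [hb, abs_of_nonneg (Real.sqrt_nonneg _)]
      exact Real.sqrt_le_one.2 (by nlinarith [sq_nonneg (σ / 400)])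
    have h1 : D r = D ((b : 𝕜) • wv 𝕜 e₁ e₂ ψ + r) - (b : 𝕜) • D (wv 𝕜 e₁ e₂ ψ) := by
      rw [map_add, map_smul]; abel
    have h2 : ‖D (wv 𝕜 e₁ e₂ ψ)‖ ≤ 16 / 100000 * M * σ := by
      refine le_trans (hDcomb _ _) ?_
      have b1 : ‖(Real.cos ψ : 𝕜)‖ ≤ 1 := by
        rw [RCLike.norm_ofReal]; exact Real.abs_cos_le_one _
      have b2 : ‖(Real.sin ψ : 𝕜)‖ ≤ 1 := by
        rw [RCLike.norm_ofReal]; exact Real.abs_sin_le_one _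
      have : 0 ≤ 8 / 100000 * M * σ := by positivity
      nlinarith
    have h3 : ‖D r‖ ≤ 24 * M * (σ / 400 + 1 / 100000 * σ) ^ 2 / σ + M * (1 / 100000 * σ) +
        16 / 100000 * M * σ := by
      rw [h1]
      refine le_trans (norm_sub_le _ _) (add_le_add a3 ?_)
      rw [norm_smul, RCLike.norm_ofReal]
      nlinarith [norm_nonneg (D (wv 𝕜 e₁ e₂ ψ)), abs_nonneg b]
    have h4 : 24 * M * (σ / 400 + 1 / 100000 * σ) ^ 2 / σ =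
        24 * (1 / 400 + 1 / 100000) ^ 2 * (M * σ) := by
      field_simp
    have h5 : ‖D r‖ = σ / 400 * ‖n‖⁻¹ * ‖D n‖ := by
      rw [hr, map_smul, norm_smul, RCLike.norm_ofReal, abs_of_pos (by positivity)]
    have h6 : σ / 400 * ‖n‖⁻¹ * ‖D n‖ ≤ 1 / 2000 * (M * σ) := by
      rw [← h5]
      refine le_trans h3 ?_
      rw [h4]
      have : 0 ≤ M * σ := by positivity
      nlinarith
    have h7 : ‖D n‖ = (400 / σ * ‖n‖) * (σ / 400 * ‖n‖⁻¹ * ‖D n‖) := by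
      field_simp
    rw [h7]
    calc (400 / σ * ‖n‖) * (σ / 400 * ‖n‖⁻¹ * ‖D n‖) ≤ (400 / σ * ‖n‖) * (1 / 2000 * (M * σ)) :=
          mul_le_mul_of_nonneg_left h6 (by positivity)
      _ = 1 / 5 * M * ‖n‖ := by field_simp; ring
  have hall : ∀ x, ‖D x‖ ≤ 1 / 2 * M * ‖x‖ := by
    intro x
    have h1 : D x = D (pr 𝕜 e₁ e₂ x) + D (x - pr 𝕜 e₁ e₂ x) := by rw [map_sub]; abel
    rw [h1]
    refine le_trans (norm_add_le _ _) ?_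
    have h2 : ‖D (pr 𝕜 e₁ e₂ x)‖ ≤ (‖x‖ + ‖x‖) * (8 / 100000 * M * σ) := by
      refine le_trans (hDcomb _ _) (mul_le_mul_of_nonneg_right (add_le_add ?_ ?_) (by positivity))
      · refine le_trans (norm_inner_le_norm _ _) ?_
        rw [P.n1, one_mul]
      · refine le_trans (norm_inner_le_norm _ _) ?_
        rw [P.n2, one_mul]
    have h3 := hDn _ (P.orth1 x) (P.orth2 x)
    have h4 : ‖x - pr 𝕜 e₁ e₂ x‖ ≤ ‖x‖ := by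
      have := P.norm_sub_pr_le x 0 0
      simpa using this
    have h5 : 1 / 5 * M * ‖x - pr 𝕜 e₁ e₂ x‖ ≤ 1 / 5 * M * ‖x‖ :=
      mul_le_mul_of_nonneg_left h4 (by positivity)
    have h6 : (‖x‖ + ‖x‖) * (8 / 100000 * M * σ) ≤ 1 / 5 * M * ‖x‖ := by
      have : 0 ≤ M * ‖x‖ := by positivity
      nlinarith
    have : 0 ≤ M * ‖x‖ := by positivity
    nlinarith
  have hMle : M ≤ 1 / 2 * M := D.opNorm_le_bound (by positivity) hall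
  have hM00 : M = 0 := by linarith
  intro v
  have h1 := hMD v
  rw [hM00, zero_mul] at h1
  have h2 : D v = 0 := norm_eq_zero.1 (le_antisymm h1 (norm_nonneg _))
  rw [hDv, sub_eq_zero] at h2
  exact h2

end Plane

theorem rigid (S : Setup 𝕜 U c σ) (C : Contr 𝕜 U c T A) (hA : Arcs 𝕜 U σ (1 / 100000)) :
    Rigid 𝕜 T A := by
  intro hle a b ha hb hab fa fb
  set w := b - ⟪a, b⟫_𝕜 • a with hw
  have haa : ⟪a, a⟫_𝕜 = 1 := by rw [inner_self_eq_norm_sq_to_K, ha]; simp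
  have haw : ⟪a, w⟫_𝕜 = 0 := by
    rw [hw, inner_sub_right, inner_smul_right, haa, mul_one, sub_self]
  have hw0 : w ≠ 0 := by
    intro h0
    have h1 : b = ⟪a, b⟫_𝕜 • a := by rw [hw, sub_eq_zero] at h0; exact h0
    have h2 : ‖⟪a, b⟫_𝕜‖ = 1 := by
      have := congrArg norm h1
      rw [norm_smul, ha, hb, mul_one] at this
      exact this.symm
    exact hab _ h2 h1
  have hwn : 0 < ‖w‖ := norm_pos_iff.2 hw0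
  have fw : A (T w) = w := by rw [hw, map_sub, map_sub, map_smul, map_smul, fa, fb]
  have P : Plane 𝕜 T A a (((‖w‖⁻¹ : ℝ) : 𝕜) • w) :=
    { n1 := ha
      n2 := by
        rw [norm_smul, RCLike.norm_ofReal, abs_of_pos (by positivity), inv_mul_cancel₀ hwn.ne']
      h12 := by rw [inner_smul_right, haw, mul_zero]
      p1 := fa
      p2 := by rw [map_smul, map_smul, fw] }
  exact P.scalar S C hle hA

end P06184b
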