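import Pool.Agent.Lib.P06184b.Chain

/-!
# No chain of length four
-/

open scoped InnerProductSpace

namespace P06184b

variable {𝕜 V : Type*} [RCLike 𝕜] [NormedAddCommGroup V] [InnerProductSpace 𝕜 V]
variable {U : Set V} {c σ : ℝ} {T A : V →L[𝕜] V}

variable (𝕜) in
/-- The point of parameter `s` on the edge from `g` to the tip of the spike `u`. -/
noncomputable def edge (c : ℝ) (g u : V) (s : ℝ) : V := ((1 - s : ℝ) : 𝕜) • g + ((s * c⁻¹ : ℝ) : 𝕜) • u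

namespace Setup

theorem edge_inner (S : Setup 𝕜 U c σ) {g u : V} (hu : u ∈ U) (hgu : ⟪u, g⟫_𝕜 = (c : 𝕜)) (s : ℝ) :
    ⟪u, edge 𝕜 c g u s⟫_𝕜 = (((1 - s) * c + s * c⁻¹ : ℝ) : 𝕜) := by
  rw [edge, inner_add_right, inner_smul_right, inner_smul_right, hgu, S.inner_self_U hu]
  push_cast; ring

theorem edge_norm (S : Setup 𝕜 U c σ) {g u : V} (hu : u ∈ U) (hg : ‖g‖ = 1)
    (hgu : ⟪u, g⟫_𝕜 = (c : 𝕜)) (s : ℝ) :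
    ‖edge 𝕜 c g u s‖ ^ 2 = 1 + s ^ 2 * ((c⁻¹) ^ 2 - 1) := by
  have hgu' : ⟪g, u⟫_𝕜 = (c : 𝕜) := by rw [← inner_conj_symm, hgu]; simp
  have hc := S.hc.ne'
  rw [edge, @norm_add_sq 𝕜, inner_smul_left, inner_smul_right, hgu', norm_smul, norm_smul, hg,
    S.sp.unit u hu, RCLike.conj_ofReal, ← RCLike.ofReal_mul, ← RCLike.ofReal_mul,
    RCLike.ofReal_re, RCLike.norm_ofReal, RCLike.norm_ofReal, mul_one, mul_one, sq_abs, sq_abs]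
  field_simp
  ring

theorem t_pos (S : Setup 𝕜 U c σ) : 0 < (c⁻¹) ^ 2 - 1 := by
  have hc := S.hc
  have h1 : 1 < c⁻¹ := by rw [lt_inv_comm₀ one_pos hc, inv_one]; exact S.hc1
  nlinarith

theorem edge_cone (S : Setup 𝕜 U c σ) {g u : V} (hu : u ∈ U) (hg : ‖g‖ = 1)
    (hgu : ⟪u, g⟫_𝕜 = (c : 𝕜)) {s : ℝ} (h0 : 0 ≤ s) (h1 : s ≤ 1) :
    c * ‖edge 𝕜 c g u s‖ ≤ ‖⟪u, edge 𝕜 c g u s⟫_𝕜‖ := by
  have hc := S.hc
  have hc1 := S.hc1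
  have hn := S.edge_norm hu hg hgu s
  rw [S.edge_inner hu hgu, RCLike.norm_ofReal]
  have hpos : 0 ≤ (1 - s) * c + s * c⁻¹ := by
    have : 0 < c⁻¹ := inv_pos.2 hc
    nlinarith [mul_nonneg h0 this.le, mul_nonneg (sub_nonneg.2 h1) hc.le]
  rw [abs_of_nonneg hpos]
  apply abs_le_of_sq_le_sq' _ hpos |>.2
  rw [mul_pow, hn]
  have e : ((1 - s) * c + s * c⁻¹) ^ 2 - c ^ 2 * (1 + s ^ 2 * ((c⁻¹) ^ 2 - 1)) =
      (1 - c ^ 2) * (2 * s - s ^ 2 + s ^ 2 * (1 - c ^ 2) / c ^ 2) := by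
    field_simp; ring
  have h2 : 0 ≤ (1 - c ^ 2) * (2 * s - s ^ 2 + s ^ 2 * (1 - c ^ 2) / c ^ 2) := by
    have h3 : 0 ≤ 1 - c ^ 2 := by nlinarith
    have h4 : 0 ≤ s ^ 2 * (1 - c ^ 2) / c ^ 2 := by positivity
    have h5 : 0 ≤ 2 * s - s ^ 2 := by nlinarith
    exact mul_nonneg h3 (by linarith)
  linarith

theorem edge_ne (S : Setup 𝕜 U c σ) {g u : V} (hu : u ∈ U) (hg : ‖g‖ = 1)
    (hgu : ⟪u, g⟫_𝕜 = (c : 𝕜)) (s : ℝ) : edge 𝕜 c g u s ≠ 0 := by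
  intro h
  have hn := S.edge_norm hu hg hgu s
  rw [h, norm_zero] at hn
  nlinarith [S.t_pos, mul_nonneg (sq_nonneg s) S.t_pos.le]

theorem edge_gt (S : Setup 𝕜 U c σ) {g u : V} (hu : u ∈ U) (hg : ‖g‖ = 1)
    (hgu : ⟪u, g⟫_𝕜 = (c : 𝕜)) {s : ℝ} (h0 : 0 < s) : 1 < ‖edge 𝕜 c g u s‖ := by
  have hn := S.edge_norm hu hg hgu s
  have h1 : 0 < s ^ 2 * ((c⁻¹) ^ 2 - 1) := mul_pos (by positivity) S.t_pos
  nlinarith [norm_nonneg (edge 𝕜 c g u s)]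

/-- Comparison of two descriptions of an edge point. -/
theorem edge_compare (S : Setup 𝕜 U c σ) {g u g' u' : V} (hu : u ∈ U) (hg : ‖g‖ = 1)
    (hgu : ⟪u, g⟫_𝕜 = (c : 𝕜)) (hu' : u' ∈ U) (hg' : ‖g'‖ = 1) (hgu' : ⟪u', g'⟫_𝕜 = (c : 𝕜))
    {s s' : ℝ} (h0 : 0 ≤ s) (h1 : s ≤ 1) (h0' : 0 ≤ s')
    (h : edge 𝕜 c g u s = edge 𝕜 c g' u' s') : s' = s ∧ u' = u ∧ (s ≠ 1 → g' = g) := by
  have hss : s' = s := by
    have e1 := S.edge_norm hu hg hgu s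
    have e2 := S.edge_norm hu' hg' hgu' s'
    rw [← h, e1] at e2
    have ht := S.t_pos
    have h3 : s ^ 2 = s' ^ 2 := by
      have : s ^ 2 * ((c⁻¹) ^ 2 - 1) = s' ^ 2 * ((c⁻¹) ^ 2 - 1) := by linarith
      exact mul_right_cancel₀ ht.ne' this
    have := (abs_eq_abs.2 (sq_eq_sq_iff_eq_or_eq_neg.1 h3))
    rw [abs_of_nonneg h0, abs_of_nonneg h0'] at this
    exact this.symm
  subst hss
  have huu : u' = u := by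
    refine S.same_eq hu hu' (S.edge_ne hu hg hgu s') (S.edge_cone hu hg hgu h0 h1) ?_
    rw [S.edge_inner hu hgu, h, S.edge_inner hu' hgu']
  subst huu
  refine ⟨rfl, rfl, fun hs => ?_⟩
  rw [edge, edge] at h
  have h2 := add_right_cancel h
  have h3 : ((1 - s' : ℝ) : 𝕜) ≠ 0 := by
    simp only [ne_eq, RCLike.ofReal_eq_zero, sub_eq_zero]
    exact fun h => hs h.symm
  exact (smul_right_injective V h3 h2).symm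

end Setup

namespace Contr

variable (C : Contr 𝕜 U c T A)
include C

/-- One step of a chain, when `T` is known to be expanding at some vector which it maps under the
spike `u`. -/
theorem step2 (S : Setup 𝕜 U c σ) {g g' v b u : V} {s : ℝ} (hg' : g' ∈ Dual 𝕜 U c)
    (hA : A g' = g) (hg : ‖g‖ = 1) (hv : ‖v‖ = 1) (hu : u ∈ U) (hb : ‖b‖ = 1)
    (hbu : ⟪u, b⟫_𝕜 = (c : 𝕜)) (hs0 : 0 < s) (hs1 : s < 1) (hTv : T v = edge 𝕜 c b u s) :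
    ‖g'‖ = 1 ∧ ∃ ε : 𝕜, ‖ε‖ = 1 ∧ ⟪ε • u, g'⟫_𝕜 = (c : 𝕜) ∧ ∃ s' : ℝ, 0 < s' ∧ s' < 1 ∧
      T g = edge 𝕜 c g' (ε • u) s' := by
  have hgD : g ∈ Dual 𝕜 U c := hA ▸ C.maps g' hg'
  have hc := S.hc
  have hc1 := S.hc1
  have hgB : g ∈ SBall 𝕜 U c := by
    intro f hf
    refine le_trans (norm_inner_le_norm _ _) ?_
    rw [hg, mul_one]; exact hf.1
  have hin : ⟪g', T g⟫_𝕜 = 1 := by
    rw [← C.adj, hA, inner_self_eq_norm_sq_to_K, hg]; simp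
  have hqv : ‖v‖ < ‖T v‖ := by
    rw [hv, hTv]; exact S.edge_gt hu hb hbu hs0
  have hcv : c * ‖T v‖ ≤ ‖⟪u, T v⟫_𝕜‖ := by
    rw [hTv]; exact S.edge_cone hu hb hbu hs0.le hs1.le
  rcases S.face hg' (C.ball hgB) hin with ⟨u', hu', hx⟩ | ⟨h1, hx⟩ | ⟨h1, u', hu', hgu', s', hs0', hs1', hx⟩
  · exfalso
    have h2 := C.ofTip S hg.le hu' hx v
    set κ : 𝕜 := ((c⁻¹ : ℝ) : 𝕜) * ⟪g, v⟫_𝕜 with hκ
    have hTv0 : T v ≠ 0 := by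
      intro h0; rw [h0, norm_zero] at hqv; linarith [norm_nonneg v]
    have hκ0 : κ ≠ 0 := by rintro h0; rw [h0, zero_smul] at h2; exact hTv0 h2
    have h3 : c * ‖T v‖ ≤ ‖⟪u', T v⟫_𝕜‖ := by
      rw [h2, inner_smul_right, S.inner_self_U hu', norm_smul, S.sp.unit u' hu', mul_one, mul_one]
      nlinarith [norm_nonneg κ]
    obtain ⟨ζ, hζ, rfl⟩ := S.same hu hu' hTv0 hcv h3
    -- `b` is a multiple of `u`
    have h4 : ((1 - s : ℝ) : 𝕜) • b = (κ * ζ - ((s * c⁻¹ : ℝ) : 𝕜)) • u := by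
      have h5 : edge 𝕜 c b u s = κ • ζ • u := by rw [← hTv, h2]
      rw [edge] at h5
      rw [sub_smul, mul_smul, ← h5]; abel
    have h6 : ((1 - s : ℝ) : 𝕜) ≠ 0 := by
      simp only [ne_eq, RCLike.ofReal_eq_zero, sub_eq_zero]
      exact fun h => hs1.ne' h
    have h7 : b = (((1 - s : ℝ) : 𝕜)⁻¹ * (κ * ζ - ((s * c⁻¹ : ℝ) : 𝕜))) • u := by
      rw [mul_smul, ← h4, smul_smul, inv_mul_cancel₀ h6, one_smul]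
    set μ := ((1 - s : ℝ) : 𝕜)⁻¹ * (κ * ζ - ((s * c⁻¹ : ℝ) : 𝕜)) with hμ
    have h8 : μ = (c : 𝕜) := by
      rw [h7, inner_smul_right, S.inner_self_U hu, mul_one] at hbu; exact hbu
    rw [h7, h8, norm_smul, RCLike.norm_ofReal, S.sp.unit u hu, mul_one, abs_of_pos hc] at hb
    linarith
  · exfalso
    have := C.ofH S hg h1 hx hA v
    linarith
  · refine ⟨h1, ?_⟩
    have hx' : T g = edge 𝕜 c g' u' s' := hx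
    have hqg : ‖g‖ < ‖T g‖ := by rw [hg, hx']; exact S.edge_gt hu' h1 hgu' hs0'
    have h2 := C.sector S hqg.le hqv hu hcv
    have h3 : c * ‖T g‖ ≤ ‖⟪u', T g⟫_𝕜‖ := by
      rw [hx']; exact S.edge_cone hu' h1 hgu' hs0'.le hs1'.le
    have h4 : T g ≠ 0 := by intro h0; rw [h0, norm_zero] at hqg; linarith [norm_nonneg g]
    obtain ⟨ζ, hζ, rfl⟩ := S.same hu hu' h4 h2 h3
    exact ⟨ζ, hζ, hgu', s', hs0', hs1', hx'⟩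

/-- The image of a tip adjacent to `g`. -/
theorem step3 (S : Setup 𝕜 U c σ) {g g' u w : V} (hg' : g' ∈ Dual 𝕜 U c) (hg'1 : ‖g'‖ = 1)
    (hA : A g' = g) (hu : u ∈ U) (hgu : ⟪u, g⟫_𝕜 = (c : 𝕜)) (hw : w ∈ U)
    (hgw : ⟪w, g'⟫_𝕜 = (c : 𝕜)) : ∃ s : ℝ, 0 ≤ s ∧ s ≤ 1 ∧
      T (((c⁻¹ : ℝ) : 𝕜) • u) = edge 𝕜 c g' w s := by
  have hc := S.hc
  have hgu' : ⟪g, u⟫_𝕜 = (c : 𝕜) := by rw [← inner_conj_symm, hgu]; simp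
  have hg'0 : g' ≠ 0 := by rintro rfl; simp at hg'1
  have hin : ⟪g', T (((c⁻¹ : ℝ) : 𝕜) • u)⟫_𝕜 = 1 := by
    rw [← C.adj, hA, inner_smul_right, hgu', ← RCLike.ofReal_mul, inv_mul_cancel₀ hc.ne']; simp
  have huniq : ∀ u' ∈ U, ⟪u', g'⟫_𝕜 = (c : 𝕜) → u' = w := by
    intro u' hu' h
    refine S.same_eq hw hu' hg'0 ?_ (by rw [h, hgw])
    rw [hgw, hg'1, mul_one, RCLike.norm_ofReal, abs_of_pos hc]
  rcases S.face hg' (C.ball (S.tip_mem hu)) hin with ⟨u', hu', hx⟩ | ⟨h1, hx⟩ |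
    ⟨h1, u', hu', hgu', s', hs0', hs1', hx⟩
  · refine ⟨1, by norm_num, le_refl _, ?_⟩
    have h1 : ⟪g', u'⟫_𝕜 = (c : 𝕜) := by
      rw [hx, inner_smul_right] at hin
      have hcK : (c : 𝕜) ≠ 0 := by simpa using hc.ne'
      push_cast at hin
      field_simp at hin
      exact hin
    have h2 : ⟪u', g'⟫_𝕜 = (c : 𝕜) := by rw [← inner_conj_symm, h1]; simp
    rw [hx, huniq u' hu' h2, edge]; simp
  · refine ⟨0, le_refl _, by norm_num, ?_⟩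
    rw [hx, edge]; simp
  · refine ⟨s', hs0'.le, hs1'.le, ?_⟩
    rw [hx, huniq u' hu' hgu', edge]

theorem step1 (S : Setup 𝕜 U c σ) (N : NoUni 𝕜 T A) (R : Rigid 𝕜 T A) {g₀ g₁ g₂ : V}
    (hg₂ : g₂ ∈ Dual 𝕜 U c) (h2 : A g₂ = g₁) (h1 : A g₁ = g₀) (h0 : ‖g₀‖ = 1) :
    ‖g₁‖ = 1 ∧ ∃ u ∈ U, ⟪u, g₁⟫_𝕜 = (c : 𝕜) ∧ ∃ s : ℝ, 0 < s ∧ s < 1 ∧
      T g₀ = edge 𝕜 c g₁ u s := by
  have hg₁ : g₁ ∈ Dual 𝕜 U c := h2 ▸ C.maps g₂ hg₂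
  have hg₀ : g₀ ∈ Dual 𝕜 U c := h1 ▸ C.maps g₁ hg₁
  have hc := S.hc
  have hgB : g₀ ∈ SBall 𝕜 U c := by
    intro f hf
    refine le_trans (norm_inner_le_norm _ _) ?_
    rw [h0, mul_one]; exact hf.1
  have hself : ⟪g₀, g₀⟫_𝕜 = 1 := by rw [inner_self_eq_norm_sq_to_K, h0]; simp
  have hin1 : ⟪g₁, T g₀⟫_𝕜 = 1 := by rw [← C.adj, h1, hself]
  have hin2 : ⟪g₂, T (T g₀)⟫_𝕜 = 1 := by rw [← C.adj, h2, hin1]
  have h00 : g₀ ≠ 0 := by rintro rfl; simp at h0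
  rcases S.face hg₁ (C.ball hgB) hin1 with ⟨u, hu, hx⟩ | ⟨hn1, hx⟩ | ⟨hn1, u, hu, hgu, s, hs0, hs1, hx⟩
  · exfalso
    have h3 := C.ofTip S h0.le hu hx
    set ζ : 𝕜 := ((c⁻¹ : ℝ) : 𝕜) * ⟪g₀, u⟫_𝕜 with hζ
    have h4 : T (T g₀) = ζ • T g₀ := by
      rw [hx, map_smul, h3 u, smul_smul, smul_smul, mul_comm]
    have hζ1 : ‖ζ‖ ≤ 1 := by
      rw [hζ, norm_mul, RCLike.norm_ofReal, abs_of_pos (inv_pos.2 hc), inv_mul_eq_div,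
        div_le_one hc, norm_inner_symm]
      exact hg₀.2 u hu
    have h5 : ‖⟪g₂, T g₀⟫_𝕜‖ ≤ 1 := C.ball hgB g₂ hg₂
    have h6 : ‖ζ‖ = 1 := by
      rw [h4, inner_smul_right] at hin2
      have : ‖ζ‖ * ‖⟪g₂, T g₀⟫_𝕜‖ = 1 := by rw [← norm_mul, hin2, norm_one]
      nlinarith [norm_nonneg ζ, norm_nonneg (⟪g₂, T g₀⟫_𝕜)]
    have h7 := N.T1 _ ζ h6 h4
    rw [h7, inner_zero_right] at hin1
    exact zero_ne_one hin1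
  · exfalso
    have h3 := C.ofH S h0 hn1 hx h1
    have hT1 : ‖T g₁‖ ≤ 1 := by rw [← hn1]; exact h3 g₁
    have h4 := Setup.eq_of_inner (𝕜 := 𝕜) hg₂.1 hT1 (by rw [hx] at hin2; rw [hin2]; simp)
    have e0 : A (T g₀) = g₀ := by rw [hx, h1]
    have e1 : A (T g₁) = g₁ := by rw [h4.1, h2]
    obtain ⟨ζ, hζ, hall⟩ := R h3 g₀ g₁ h0 hn1 (fun ζ hζ he => h00 (N.T1 g₀ ζ hζ (by rw [hx, he])))
      e0 e1
    exact h00 (N.T1 g₀ ζ hζ (hall g₀))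
  · exact ⟨hn1, u, hu, hgu, s, hs0, hs1, hx⟩

omit C in
theorem edge_smul (g u : V) (s : ℝ) (ε : 𝕜) :
    ε • edge 𝕜 c g u s = edge 𝕜 c (ε • g) (ε • u) s := by
  rw [edge, edge, smul_add, smul_smul, smul_smul, smul_smul, smul_smul, mul_comm ε, mul_comm ε]

/-- (H) -/
theorem noH (S : Setup 𝕜 U c σ) (N : NoUni 𝕜 T A) (R : Rigid 𝕜 T A) {g₃ : V}
    (hg₃ : g₃ ∈ Dual 𝕜 U c) (h : ‖A (A (A g₃))‖ = 1) : False := by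
  obtain ⟨g₂, h3⟩ : ∃ g₂, A g₃ = g₂ := ⟨_, rfl⟩
  obtain ⟨g₁, h2⟩ : ∃ g₁, A g₂ = g₁ := ⟨_, rfl⟩
  obtain ⟨g₀, h1⟩ : ∃ g₀, A g₁ = g₀ := ⟨_, rfl⟩
  rw [h3, h2, h1] at h
  have hg₂ : g₂ ∈ Dual 𝕜 U c := h3 ▸ C.maps g₃ hg₃
  have hc := S.hc
  obtain ⟨n1, u, hu, hgu, s₁, hs0, hs1, hx1⟩ := C.step1 S N R hg₂ h2 h1 h
  obtain ⟨n2, ε, hε, hgu2, s₂, -, -, -⟩ := C.step2 S hg₂ h2 n1 h hu n1 hgu hs0 hs1 hx1
  have huε := S.sp.smul u hu ε hε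
  obtain ⟨s₃, hs30, hs31, hx3⟩ := C.step3 S hg₂ n2 h2 hu hgu huε hgu2
  obtain ⟨n3, δ, hδ, hgu3, s₄, -, -, -⟩ := C.step2 S hg₃ h3 n2 h hu n1 hgu hs0 hs1 hx1
  have huδ := S.sp.smul u hu δ hδ
  obtain ⟨s₅, hs50, hs51, hx5⟩ := C.step3 S hg₃ n3 h3 huε hgu2 huδ hgu3
  have e1 : T (((c⁻¹ : ℝ) : 𝕜) • ε • u) = edge 𝕜 c (ε • g₂) (ε • ε • u) s₃ := by
    rw [smul_comm, map_smul, hx3, edge_smul]
  have n2' : ‖ε • g₂‖ = 1 := by rw [norm_smul, hε, n2, one_mul]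
  have hεε : (starRingEnd 𝕜) ε * ε = 1 := by
    rw [RCLike.conj_mul, hε]; simp
  have hgu2' : ⟪ε • ε • u, ε • g₂⟫_𝕜 = (c : 𝕜) := by
    rw [inner_smul_left, inner_smul_right, hgu2, ← mul_assoc, hεε, one_mul]
  have huεε := S.sp.smul _ huε ε hε
  obtain ⟨-, -, h6⟩ := S.edge_compare huεε n2' hgu2' huδ n3 hgu3 hs30 hs31 hs50
    (by rw [← e1, hx5])
  have hu0 : u ≠ 0 := by rintro rfl; have := S.sp.unit 0 hu; simp at this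
  have hg30 : g₃ ≠ 0 := by rintro rfl; simp at n3
  by_cases hs3 : s₃ = 1
  · apply hu0
    refine N.T1 u ε hε ?_
    have hcK : ((c⁻¹ : ℝ) : 𝕜) ≠ 0 := by simpa using hc.ne'
    rw [hs3, edge, map_smul] at hx3
    simp only [sub_self, RCLike.ofReal_zero, zero_smul, zero_add, one_mul] at hx3
    exact smul_right_injective V hcK hx3
  · have h7 := h6 hs3
    have hε0 : ε ≠ 0 := by rintro rfl; simp at hε
    apply hg30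
    refine N.A1 g₃ ε⁻¹ (by simp [hε]) ?_
    rw [h3, h7, smul_smul, inv_mul_cancel₀ hε0, one_smul]

/-- The main geometric theorem: no contraction without unimodular eigenvalues has a fourth power
of norm one. -/
theorem no_four (S : Setup 𝕜 U c σ) (N : NoUni 𝕜 T A) (R : Rigid 𝕜 T A) {f₄ x₀ : V}
    (hf₄ : f₄ ∈ Dual 𝕜 U c) (hx₀ : x₀ ∈ SBall 𝕜 U c) (h : ⟪f₄, T (T (T (T x₀)))⟫_𝕜 = 1) :
    False := by
  obtain ⟨f₃, h3⟩ : ∃ f₃, A f₄ = f₃ := ⟨_, rfl⟩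
  obtain ⟨f₂, h2⟩ : ∃ f₂, A f₃ = f₂ := ⟨_, rfl⟩
  obtain ⟨f₁, h1⟩ : ∃ f₁, A f₂ = f₁ := ⟨_, rfl⟩
  obtain ⟨f₀, h0⟩ : ∃ f₀, A f₁ = f₀ := ⟨_, rfl⟩
  have hf₃ : f₃ ∈ Dual 𝕜 U c := h3 ▸ C.maps f₄ hf₄
  have hf₂ : f₂ ∈ Dual 𝕜 U c := h2 ▸ C.maps f₃ hf₃
  have hf₁ : f₁ ∈ Dual 𝕜 U c := h1 ▸ C.maps f₂ hf₂
  have hf₀ : f₀ ∈ Dual 𝕜 U c := h0 ▸ C.maps f₁ hf₁
  have hin3 : ⟪f₃, T (T (T x₀))⟫_𝕜 = 1 := by rw [← h3, C.adj, h]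
  have hin2 : ⟪f₂, T (T x₀)⟫_𝕜 = 1 := by rw [← h2, C.adj, hin3]
  have hin1 : ⟪f₁, T x₀⟫_𝕜 = 1 := by rw [← h1, C.adj, hin2]
  have hin0 : ⟪f₀, x₀⟫_𝕜 = 1 := by rw [← h0, C.adj, hin1]
  have hc := S.hc
  have hc1 := S.hc1
  have hcK : ((c⁻¹ : ℝ) : 𝕜) ≠ 0 := by simpa using hc.ne'
  have nf0 : ‖f₀‖ ≠ 1 := fun hn => C.noH S N R hf₃ (by rw [h2, h1, h0]; exact hn)
  have nf1 : ‖f₁‖ ≠ 1 := fun hn => C.noH S N R hf₄ (by rw [h3, h2, h1]; exact hn)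
  have hx1B := C.ball hx₀
  have hx2B := C.ball hx1B
  obtain ⟨u₀, hu₀, ex0⟩ : ∃ u ∈ U, x₀ = ((c⁻¹ : ℝ) : 𝕜) • u := by
    rcases S.face hf₀ hx₀ hin0 with h | h | h
    · exact h
    · exact absurd h.1 nf0
    · exact absurd h.1 nf0
  obtain ⟨u₁, hu₁, ex1⟩ : ∃ u ∈ U, T x₀ = ((c⁻¹ : ℝ) : 𝕜) • u := by
    rcases S.face hf₁ hx1B hin1 with h | h | h
    · exact h
    · exact absurd h.1 nf1
    · exact absurd h.1 nf1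
  have hu₀0 : u₀ ≠ 0 := by rintro rfl; have := S.sp.unit 0 hu₀; simp at this
  have hu₁0 : u₁ ≠ 0 := by rintro rfl; have := S.sp.unit 0 hu₁; simp at this
  have eT0 : T u₀ = u₁ := by
    rw [ex0, map_smul] at ex1
    exact smul_right_injective V hcK ex1
  have n0 := S.sp.unit u₀ hu₀
  have n1 := S.sp.unit u₁ hu₁
  have hnt : ¬ ∃ u ∈ U, T (T x₀) = ((c⁻¹ : ℝ) : 𝕜) • u := by
    rintro ⟨u₂, hu₂, ex2⟩
    have eT1 : T u₁ = u₂ := by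
      rw [ex1, map_smul] at ex2
      exact smul_right_injective V hcK ex2
    have hle := C.tips S N hu₀ hu₁ hu₂ eT0 eT1
    have a0 : A (T u₀) = u₀ := C.adj_iso hle (by rw [eT0, n0, n1])
    have a1 : A (T u₁) = u₁ := C.adj_iso hle (by rw [eT1, n1, S.sp.unit u₂ hu₂])
    obtain ⟨ζ, hζ, hall⟩ := R hle u₀ u₁ n0 n1
      (fun ζ hζ he => hu₀0 (N.T1 u₀ ζ hζ (by rw [eT0, he]))) a0 a1
    exact hu₀0 (N.T1 u₀ ζ hζ (hall u₀))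
  have key : ‖f₂‖ = 1 ∧ (T (T x₀) = f₂ ∨ ∃ u ∈ U, ⟪u, f₂⟫_𝕜 = (c : 𝕜) ∧ ∃ s : ℝ, 0 < s ∧ s < 1 ∧
        T (T x₀) = edge 𝕜 c f₂ u s) := by
    rcases S.face hf₂ hx2B hin2 with h | h | h
    · exact absurd h hnt
    · exact ⟨h.1, Or.inl h.2⟩
    · exact ⟨h.1, Or.inr h.2⟩
  obtain ⟨n2, hform⟩ := key
  obtain ⟨n3, u, hu, hgu, s₁, hs0, hs1, hxs1⟩ := C.step1 S N R hf₄ h3 h2 n2
  obtain ⟨n4, ε, hε, hgu4, s₂, -, -, -⟩ := C.step2 S hf₄ h3 n3 n2 hu n3 hgu hs0 hs1 hxs1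
  have huε := S.sp.smul u hu ε hε
  obtain ⟨s₃, hs30, hs31, hx3⟩ := C.step3 S hf₄ n4 h3 hu hgu huε hgu4
  -- `u₁` is in the class of `u`
  have hq : ‖f₂‖ < ‖T f₂‖ := by rw [n2, hxs1]; exact S.edge_gt hu n3 hgu hs0
  have hcq : c * ‖T f₂‖ ≤ ‖⟪u, T f₂⟫_𝕜‖ := by
    rw [hxs1]; exact S.edge_cone hu n3 hgu hs0.le hs1.le
  have h5 := C.sector S (a := u₀) (by rw [eT0, n0, n1]) hq hu hcq
  rw [eT0] at h5
  obtain ⟨ζ, hζ, hu1e⟩ := S.same hu hu₁ hu₁0 h5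
    (by rw [S.inner_self_U hu₁, n1]; simp; exact hc1.le)
  have ex2 : T (T x₀) = edge 𝕜 c (ζ • f₄) (ζ • ε • u) s₃ := by
    rw [ex1, hu1e, smul_comm, map_smul, hx3, edge_smul]
  have hζζ : (starRingEnd 𝕜) ζ * ζ = 1 := by
    rw [RCLike.conj_mul, hζ]; simp
  have n4' : ‖ζ • f₄‖ = 1 := by rw [norm_smul, hζ, n4, one_mul]
  have hgu4' : ⟪ζ • ε • u, ζ • f₄⟫_𝕜 = (c : 𝕜) := by
    rw [inner_smul_left, inner_smul_right, hgu4, ← mul_assoc, hζζ, one_mul]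
  have huζ := S.sp.smul _ huε ζ hζ
  have hfin : f₂ = ζ • f₄ := by
    rcases hform with h6 | ⟨u', hu', hgu', s, hs0', hs1', h6⟩
    · have h7 := S.edge_norm huζ n4' hgu4' s₃
      rw [← ex2, h6, n2] at h7
      have h8 : s₃ ^ 2 * ((c⁻¹) ^ 2 - 1) = 0 := by linarith
      have h9 : s₃ = 0 := by
        rcases mul_eq_zero.1 h8 with h | h
        · exact pow_eq_zero_iff (two_ne_zero) |>.1 h
        · exact absurd h S.t_pos.ne'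
      rw [← h6, ex2, h9, edge]; simp
    · have h7 := S.edge_compare hu' n2 hgu' huζ n4' hgu4' hs0'.le hs1'.le hs30
        (by rw [← h6, ex2])
      exact (h7.2.2 hs1'.ne).symm
  have hf40 : f₄ ≠ 0 := by rintro rfl; simp at n4
  exact hf40 (N.A2 f₄ ζ hζ (by rw [h3, h2, hfin]))

end Contr

end P06184b
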